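import Mathlib

set_option autoImplicit false

namespace Pool.Agent.H341R2

open Polynomial

section HD

variable {F : Type*} [Field F]

theorem pow_sub_dvd_hasseDeriv (f : F[X]) (n : ℕ) : ∀ k : ℕ, f ^ (n - k) ∣ hasseDeriv k (f ^ n) := by
  induction n with
  | zero => intro k; simp
  | succ n ih =>
    intro k
    rw [pow_succ, hasseDeriv_mul]
    refine Finset.dvd_sum fun ij hij => ?_
    rw [Finset.HasAntidiagonal.mem_antidiagonal] at hij
    rcases Nat.eq_zero_or_pos ij.2 with h0 | h0
    · rw [h0] at hij ⊢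
      rw [add_zero] at hij
      rw [hij, hasseDeriv_zero, LinearMap.id_coe, id]
      have h1 : f ^ (n + 1 - k) ∣ f ^ (n - k + 1) := pow_dvd_pow f (by omega)
      refine h1.trans ?_
      rw [pow_succ]
      exact mul_dvd_mul_right (ih k) f
    · refine Dvd.dvd.mul_right ?_ _
      exact (pow_dvd_pow f (by omega)).trans (ih ij.1)

/-- the cofactor `P` with `hasseDeriv k (f ^ n) = f ^ (n - k) * P` -/
noncomputable def cof (f : F[X]) (n k : ℕ) : F[X] := (pow_sub_dvd_hasseDeriv f n k).choose

theorem cof_spec (f : F[X]) (n k : ℕ) : hasseDeriv k (f ^ n) = f ^ (n - k) * cof f n k :=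
  (pow_sub_dvd_hasseDeriv f n k).choose_spec

/-- the linear map `h ↦ f ^ (k - n) * hasseDeriv k (f ^ n * h)` -/
noncomputable def T (f : F[X]) (n k : ℕ) : F[X] →ₗ[F] F[X] :=
  ∑ ab ∈ Finset.HasAntidiagonal.antidiagonal k,
    (LinearMap.mulLeft F (f ^ (k - ab.1) * cof f n ab.1)) ∘ₗ hasseDeriv ab.2

theorem T_spec (f : F[X]) (n k : ℕ) (hk : k ≤ n) (h : F[X]) :
    f ^ (n - k) * T f n k h = hasseDeriv k (f ^ n * h) := by
  rw [hasseDeriv_mul, T, LinearMap.sum_apply, Finset.mul_sum]
  refine Finset.sum_congr rfl fun ab hab => ?_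
  rw [Finset.HasAntidiagonal.mem_antidiagonal] at hab
  rw [LinearMap.comp_apply, LinearMap.mulLeft_apply, cof_spec]
  have : f ^ (n - ab.1) = f ^ (n - k) * f ^ (k - ab.1) := by
    rw [← pow_add]
    congr 1
    omega
  rw [this]
  ring

theorem natDegree_T_le (f : F[X]) (hf : 1 ≤ f.natDegree) (n k : ℕ) (hk : k ≤ n) (h : F[X]) :
    (T f n k h).natDegree ≤ k * (f.natDegree - 1) + h.natDegree := by
  have hf0 : f ≠ 0 := by
    rintro rfl
    simp at hf
  by_cases hT : T f n k h = 0
  · rw [hT]; simp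
  have h1 := congrArg natDegree (T_spec f n k hk h)
  rw [natDegree_mul (pow_ne_zero _ hf0) hT, natDegree_pow] at h1
  have h2 := natDegree_hasseDeriv_le (f ^ n * h) k
  have h3 : (f ^ n * h).natDegree ≤ n * f.natDegree + h.natDegree := by
    refine natDegree_mul_le.trans ?_
    rw [natDegree_pow]
  have h4 : n * f.natDegree = (n - k) * f.natDegree + k * f.natDegree := by
    rw [← Nat.add_mul]
    congr 1
    omega
  have h5 : k * f.natDegree = k * (f.natDegree - 1) + k := by
    obtain ⟨e, he⟩ := Nat.exists_eq_add_of_le hf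
    rw [he, Nat.add_sub_cancel_left]
    ring
  omega

/-- if `f` is not a constant times a square and `f 0 ≠ 0`, then a relation
`∑ (r_j + s_j f^Q) X^(jq) = 0` with small degrees is trivial. -/
theorem eq_zero_of_sum [Fintype F] (f : F[X]) (hf0 : f.eval 0 ≠ 0)
    (hns : ∀ (c : F) (h : F[X]), f ≠ C c * h ^ 2) (A Q : ℕ)
    (hQ : 2 * Q + 1 = Fintype.card F) (hA : 2 * A + f.natDegree < Fintype.card F) (J : ℕ) :
    ∀ r s : ℕ → F[X], (∀ j, (r j).natDegree ≤ A) → (∀ j, (s j).natDegree ≤ A) →
      (∑ j ∈ Finset.range J, (r j + s j * f ^ Q) * X ^ (j * Fintype.card F) = 0) →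
      ∀ j < J, r j = 0 ∧ s j = 0 := by
  induction J with
  | zero => intro r s _ _ _ j hj; omega
  | succ J ih =>
    intro r s hr hs h
    set q := Fintype.card F with hq
    rw [Finset.sum_range_succ'] at h
    have e1 : ∑ k ∈ Finset.range J, (r (k + 1) + s (k + 1) * f ^ Q) * X ^ ((k + 1) * q) =
        X ^ q * ∑ k ∈ Finset.range J, (r (k + 1) + s (k + 1) * f ^ Q) * X ^ (k * q) := by
      rw [Finset.mul_sum]
      refine Finset.sum_congr rfl fun k _ => ?_
      rw [Nat.succ_mul, pow_add]
      ring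
    rw [e1, Nat.zero_mul, pow_zero, mul_one] at h
    have hdvd : (X : F[X]) ^ q ∣ r 0 + s 0 * f ^ Q := by
      refine ⟨-∑ k ∈ Finset.range J, (r (k + 1) + s (k + 1) * f ^ Q) * X ^ (k * q), ?_⟩
      linear_combination h
    -- Frobenius
    have hfrob : (X : F[X]) ^ q ∣ f ^ q - C (f.eval 0) := by
      obtain ⟨p, hp⟩ := CharP.exists F
      have := hp
      have : Fact p.Prime := ⟨CharP.char_is_prime F p⟩
      obtain ⟨n, -, hn⟩ := FiniteField.card F p
      have h1 : (X : F[X]) ∣ f - C (f.eval 0) := by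
        have := X_sub_C_dvd_sub_C_eval (a := (0 : F)) (p := f)
        simpa using this
      have h2 := pow_dvd_pow_of_dvd h1 q
      rw [hq]
      rw [hq, hn, sub_pow_char_pow, ← C_pow, ← hn, FiniteField.pow_card] at h2
      exact h2
    have hdvd2 : (X : F[X]) ^ q ∣ r 0 ^ 2 * f - C (f.eval 0) * s 0 ^ 2 := by
      have h1 : (X : F[X]) ^ q ∣ (r 0 + s 0 * f ^ Q) * ((r 0 - s 0 * f ^ Q) * f) :=
        Dvd.dvd.mul_right hdvd _
      have h2 : (X : F[X]) ^ q ∣ s 0 ^ 2 * (f ^ q - C (f.eval 0)) := Dvd.dvd.mul_left hfrob _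
      have h3 : r 0 ^ 2 * f - C (f.eval 0) * s 0 ^ 2 =
          (r 0 + s 0 * f ^ Q) * ((r 0 - s 0 * f ^ Q) * f) + s 0 ^ 2 * (f ^ q - C (f.eval 0)) := by
        have : f ^ q = f ^ Q * f ^ Q * f := by
          rw [← hQ, ← pow_add, ← pow_succ]
          congr 1
          ring
        rw [this]
        ring
      rw [h3]
      exact dvd_add h1 h2
    have hzero : r 0 ^ 2 * f - C (f.eval 0) * s 0 ^ 2 = 0 := by
      by_contra hne
      have h1 := natDegree_le_of_dvd hdvd2 hne
      rw [natDegree_X_pow] at h1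
      have h2 : (r 0 ^ 2 * f - C (f.eval 0) * s 0 ^ 2).natDegree ≤ 2 * A + f.natDegree := by
        refine (natDegree_sub_le _ _).trans (max_le ?_ ?_)
        · refine natDegree_mul_le.trans ?_
          have := natDegree_pow_le (p := r 0) (n := 2)
          have := hr 0
          omega
        · refine natDegree_mul_le.trans ?_
          have := natDegree_pow_le (p := s 0) (n := 2)
          have := hs 0
          rw [natDegree_C]
          omega
      omega
    have h00 : r 0 = 0 ∧ s 0 = 0 := by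
      by_cases hr0 : r 0 = 0
      · refine ⟨hr0, ?_⟩
        rw [hr0] at hzero
        have h1 : C (f.eval 0) * s 0 ^ 2 = 0 := by linear_combination -hzero
        rcases mul_eq_zero.1 h1 with h2 | h2
        · rw [C_eq_zero] at h2
          exact absurd h2 hf0
        · exact pow_eq_zero_iff (two_ne_zero) |>.1 h2
      · exfalso
        have h1 : r 0 ^ 2 ∣ s 0 ^ 2 := by
          refine ⟨C (f.eval 0)⁻¹ * f, ?_⟩
          have h2 : s 0 ^ 2 = C (f.eval 0)⁻¹ * (C (f.eval 0) * s 0 ^ 2) := by
            rw [← mul_assoc, ← C_mul, inv_mul_cancel₀ hf0, C_1, one_mul]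
          rw [h2]
          linear_combination -C (f.eval 0)⁻¹ * hzero
        rw [IsIntegrallyClosed.pow_dvd_pow_iff two_ne_zero] at h1
        obtain ⟨t, ht⟩ := h1
        apply hns (f.eval 0) t
        have h3 : r 0 ^ 2 * f = r 0 ^ 2 * (C (f.eval 0) * t ^ 2) := by
          rw [ht] at hzero
          linear_combination hzero
        exact mul_left_cancel₀ (pow_ne_zero 2 hr0) h3
    have hrest : ∑ k ∈ Finset.range J, (r (k + 1) + s (k + 1) * f ^ Q) * X ^ (k * q) = 0 := by
      rw [h00.1, h00.2] at h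
      have h1 : (X : F[X]) ^ q *
          ∑ k ∈ Finset.range J, (r (k + 1) + s (k + 1) * f ^ Q) * X ^ (k * q) = 0 := by
        linear_combination h
      rcases mul_eq_zero.1 h1 with h2 | h2
      · exact absurd h2 (pow_ne_zero _ X_ne_zero)
      · exact h2
    have := ih (fun j => r (j + 1)) (fun j => s (j + 1)) (fun j => hr _) (fun j => hs _) hrest
    intro j hj
    rcases j with _ | j
    · exact h00
    · exact this j (by omega)

/-- the core of Stepanov's method -/
theorem core [Fintype F] [DecidableEq F] (f : F[X]) (hd : 1 ≤ f.natDegree) (hf0 : f.eval 0 ≠ 0)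
    (hns : ∀ (c : F) (h : F[X]), f ≠ C c * h ^ 2) (a : F) (ℓ J A Q : ℕ)
    (hQ : 2 * Q + 1 = Fintype.card F) (hA : 2 * A + f.natDegree < Fintype.card F)
    (hℓ : ℓ ≤ Fintype.card F) (hJ : 1 ≤ J)
    (hdim : ∑ k ∈ Finset.range ℓ, (A + k * (f.natDegree - 1) + J) < 2 * (J * (A + 1))) :
    ℓ * (Finset.univ.filter fun x : F => f.eval x = 0 ∨ f.eval x ^ Q = a).card ≤
      ℓ * f.natDegree + Q * f.natDegree + A + (J - 1) * Fintype.card F := by
  set q := Fintype.card F with hq
  have hf : f ≠ 0 := by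
    rintro rfl
    simp at hd
  let V := (Fin J → degreeLT F (A + 1)) × (Fin J → degreeLT F (A + 1))
  let W := (k : Fin ℓ) → (Fin (A + k * (f.natDegree - 1) + J) → F)
  let σ : ℕ → V →ₗ[F] F[X] := fun k => ∑ j : Fin J,
    (LinearMap.mulLeft F (X ^ (j : ℕ))) ∘ₗ
      ((T f ℓ k) ∘ₗ (degreeLT F (A + 1)).subtype ∘ₗ (LinearMap.proj j) ∘ₗ (LinearMap.fst F _ _) +
      a • ((T f (ℓ + Q) k) ∘ₗ (degreeLT F (A + 1)).subtype ∘ₗ (LinearMap.proj j) ∘ₗ
        (LinearMap.snd F _ _)))
  have hσ : ∀ k (v : V), σ k v = ∑ j : Fin J, X ^ (j : ℕ) *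
      (T f ℓ k (v.1 j : F[X]) + a • T f (ℓ + Q) k (v.2 j : F[X])) := by
    intro k v
    simp only [σ, LinearMap.sum_apply, LinearMap.comp_apply, LinearMap.mulLeft_apply,
      LinearMap.add_apply, LinearMap.smul_apply, LinearMap.proj_apply, Submodule.subtype_apply]
    rfl
  let Φ : V →ₗ[F] W := LinearMap.pi fun k => LinearMap.pi fun i => (lcoeff F (i : ℕ)) ∘ₗ (σ k)
  have hfin : Module.finrank F W < Module.finrank F V := by
    have h1 : Module.finrank F W = ∑ k ∈ Finset.range ℓ, (A + k * (f.natDegree - 1) + J) := by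
      simp only [W]
      rw [Module.finrank_pi_fintype, Finset.sum_range]
      refine Finset.sum_congr rfl fun k _ => ?_
      simp
    have h2 : Module.finrank F (degreeLT F (A + 1)) = A + 1 := by
      rw [(degreeLTEquiv F (A + 1)).finrank_eq]
      simp
    have h3 : Module.finrank F V = 2 * (J * (A + 1)) := by
      simp only [V]
      rw [Module.finrank_prod, Module.finrank_pi_fintype]
      simp only [h2, Finset.sum_const, Finset.card_univ, Fintype.card_fin, smul_eq_mul]
      ring
    rw [h1, h3]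
    exact hdim
  have hker : LinearMap.ker Φ ≠ ⊥ := LinearMap.ker_ne_bot_of_finrank_lt hfin
  obtain ⟨v, hv, hv0⟩ := (Submodule.ne_bot_iff _).1 hker
  have hσ0 : ∀ k < ℓ, σ k v = 0 := by
    intro k hk
    by_contra hne
    have hdeg : (σ k v).natDegree < A + k * (f.natDegree - 1) + J := by
      have h1 : (σ k v).natDegree ≤ A + k * (f.natDegree - 1) + (J - 1) := by
        rw [hσ]
        refine natDegree_sum_le_of_forall_le _ _ fun j _ => ?_
        refine natDegree_mul_le.trans ?_
        rw [natDegree_X_pow]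
        have h2 : ∀ n, k ≤ n → ∀ w : degreeLT F (A + 1),
            (T f n k (w : F[X])).natDegree ≤ k * (f.natDegree - 1) + A := by
          intro n hn w
          have h3 : (w : F[X]).natDegree ≤ A := by
            have := mem_degreeLT.1 w.2
            by_cases h0 : (w : F[X]) = 0
            · rw [h0]; simp
            · exact Nat.lt_succ_iff.1 ((natDegree_lt_iff_degree_lt h0).2 this)
          exact (natDegree_T_le f hd n k hn _).trans (by omega)
        have h4 : (T f ℓ k (v.1 j : F[X]) + a • T f (ℓ + Q) k (v.2 j : F[X])).natDegree ≤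
            k * (f.natDegree - 1) + A := by
          refine (natDegree_add_le _ _).trans (max_le (h2 ℓ hk.le _) ?_)
          exact (natDegree_smul_le _ _).trans (h2 (ℓ + Q) (by omega) _)
        have := j.2
        omega
      omega
    apply hne
    ext i
    by_cases hi : i < A + k * (f.natDegree - 1) + J
    · have h1 := congrFun (congrFun (LinearMap.mem_ker.1 hv) ⟨k, hk⟩) ⟨i, hi⟩
      simpa [Φ] using h1
    · rw [coeff_eq_zero_of_natDegree_lt (by omega)]
      simp
  -- the auxiliary polynomial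
  set R : F[X] := ∑ j : Fin J, (f ^ ℓ * (v.1 j : F[X]) + f ^ (ℓ + Q) * (v.2 j : F[X])) *
    X ^ ((j : ℕ) * q) with hR
  have hdegv : ∀ w : degreeLT F (A + 1), (w : F[X]).natDegree ≤ A := by
    intro w
    have := mem_degreeLT.1 w.2
    by_cases h0 : (w : F[X]) = 0
    · rw [h0]; simp
    · exact Nat.lt_succ_iff.1 ((natDegree_lt_iff_degree_lt h0).2 this)
  have hR' : R = f ^ ℓ * ∑ j : Fin J, ((v.1 j : F[X]) + (v.2 j : F[X]) * f ^ Q) *
    X ^ ((j : ℕ) * q) := by
    rw [hR, Finset.mul_sum]
    refine Finset.sum_congr rfl fun j _ => ?_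
    rw [pow_add]
    ring
  have hRne : R ≠ 0 := by
    intro hR0
    rw [hR'] at hR0
    have h1 := (mul_eq_zero.1 hR0).resolve_left (pow_ne_zero _ hf)
    let r : ℕ → F[X] := fun j => if h : j < J then (v.1 ⟨j, h⟩ : F[X]) else 0
    let s : ℕ → F[X] := fun j => if h : j < J then (v.2 ⟨j, h⟩ : F[X]) else 0
    have h2 := eq_zero_of_sum f hf0 hns A Q hQ hA J r s
      (by
        intro j
        simp only [r]
        split_ifs
        · exact hdegv _
        · simp)
      (by
        intro j
        simp only [s]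
        split_ifs
        · exact hdegv _
        · simp)
      (by
        rw [Finset.sum_range]
        rw [← h1]
        refine Finset.sum_congr rfl fun j _ => ?_
        simp [r, s, hq])
    apply hv0
    refine Prod.ext ?_ ?_
    · funext j
      have := (h2 j j.2).1
      simp only [r, j.2, dite_true] at this
      exact Subtype.ext this
    · funext j
      have := (h2 j j.2).2
      simp only [s, j.2, dite_true] at this
      exact Subtype.ext this
  have hdegR : R.natDegree ≤ ℓ * f.natDegree + Q * f.natDegree + A + (J - 1) * q := by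
    rw [hR]
    refine natDegree_sum_le_of_forall_le _ _ fun j _ => ?_
    refine natDegree_mul_le.trans ?_
    rw [natDegree_X_pow]
    have h1 : (f ^ ℓ * (v.1 j : F[X]) + f ^ (ℓ + Q) * (v.2 j : F[X])).natDegree ≤
        ℓ * f.natDegree + Q * f.natDegree + A := by
      refine (natDegree_add_le _ _).trans (max_le ?_ ?_)
      · refine natDegree_mul_le.trans ?_
        rw [natDegree_pow]
        have := hdegv (v.1 j)
        nlinarith [Nat.zero_le (Q * f.natDegree)]
      · refine natDegree_mul_le.trans ?_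
        rw [natDegree_pow, Nat.add_mul]
        have := hdegv (v.2 j)
        omega
    have h2 : (j : ℕ) * q ≤ (J - 1) * q := Nat.mul_le_mul_right _ (by have := j.2; omega)
    omega
  have hvan : ∀ x : F, (f.eval x = 0 ∨ f.eval x ^ Q = a) → (X - C x) ^ ℓ ∣ R := by
    intro x hx
    by_cases hx0 : f.eval x = 0
    · rw [hR']
      exact Dvd.dvd.mul_right (pow_dvd_pow_of_dvd (dvd_iff_isRoot.2 hx0) ℓ) _
    · have hxa := hx.resolve_left hx0
      set R₁ : F[X] := ∑ j : Fin J, (x ^ (j : ℕ)) •
        (f ^ ℓ * (v.1 j : F[X]) + f ^ (ℓ + Q) * (v.2 j : F[X])) with hR₁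
      have h1 : (X - C x) ^ ℓ ∣ R - R₁ := by
        rw [hR, hR₁, ← Finset.sum_sub_distrib]
        refine Finset.dvd_sum fun j _ => ?_
        rw [smul_eq_C_mul, mul_comm (C (x ^ (j : ℕ))), ← mul_sub]
        refine Dvd.dvd.mul_left ?_ _
        have h2 : (X : F[X]) ^ q - C x = (X - C x) ^ q := by
          obtain ⟨p, hp⟩ := CharP.exists F
          have := hp
          have : Fact p.Prime := ⟨CharP.char_is_prime F p⟩
          obtain ⟨n, -, hn⟩ := FiniteField.card F p
          have h3 := sub_pow_char_pow (p := p) (X : F[X]) (C x) (n : ℕ)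
          rw [hq]
          rw [← hn, ← C_pow, FiniteField.pow_card] at h3
          exact h3.symm
        have h3 : (X : F[X]) ^ q - C x ∣ X ^ ((j : ℕ) * q) - C (x ^ (j : ℕ)) := by
          rw [mul_comm, pow_mul, C_pow]
          exact sub_dvd_pow_sub_pow _ _ _
        rw [h2] at h3
        exact (pow_dvd_pow _ hℓ).trans h3
      have h2 : (X - C x) ^ ℓ ∣ R₁ := by
        rw [X_sub_C_pow_dvd_iff, X_pow_dvd_iff]
        intro k hk
        have h3 : (R₁.comp (X + C x)).coeff k = (taylor x R₁).coeff k := by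
          rw [taylor_apply]
        rw [h3, taylor_coeff, hR₁, map_sum]
        simp only [map_smul, map_add, eval_finsetSum]
        have h4 : ∀ j : Fin J, eval x (x ^ (j : ℕ) • (hasseDeriv k (f ^ ℓ * (v.1 j : F[X])) +
            hasseDeriv k (f ^ (ℓ + Q) * (v.2 j : F[X])))) =
            eval x f ^ (ℓ - k) * eval x (X ^ (j : ℕ) *
              (T f ℓ k (v.1 j : F[X]) + a • T f (ℓ + Q) k (v.2 j : F[X]))) := by
          intro j
          rw [← T_spec f ℓ k hk.le, ← T_spec f (ℓ + Q) k (by omega)]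
          have h5 : ℓ + Q - k = (ℓ - k) + Q := by omega
          rw [h5]
          simp only [eval_smul, eval_add, eval_mul, eval_pow, eval_X, smul_eq_mul, pow_add, hxa]
          ring
        rw [Finset.sum_congr rfl fun j _ => h4 j, ← Finset.mul_sum, ← eval_finsetSum, ← hσ,
          hσ0 k hk, eval_zero, mul_zero]
      have h3 := dvd_add h1 h2
      rwa [sub_add_cancel] at h3
  have hprod : ∏ x ∈ Finset.univ.filter (fun x : F => f.eval x = 0 ∨ f.eval x ^ Q = a),
      (X - C x) ^ ℓ ∣ R := by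
    refine Finset.prod_dvd_of_coprime ?_ ?_
    · intro x _ y _ hxy
      exact (isCoprime_X_sub_C_of_isUnit_sub (sub_ne_zero.2 hxy).isUnit).pow
    · intro x hx
      exact hvan x (Finset.mem_filter.1 hx).2
  have h1 := natDegree_le_of_dvd hprod hRne
  rw [natDegree_prod_of_monic _ _ fun x _ => (monic_X_sub_C x).pow ℓ] at h1
  simp only [natDegree_pow, natDegree_X_sub_C, mul_one, Finset.sum_const, smul_eq_mul] at h1
  rw [mul_comm ℓ]
  exact h1.trans hdegR

/-- Stepanov's bound for the number of points with `f x = 0` or `f x ^ Q = a`,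
when `f 0 ≠ 0` and `q` is large -/
theorem card_le [Fintype F] [DecidableEq F] (f : F[X]) (hd : 1 ≤ f.natDegree) (hf0 : f.eval 0 ≠ 0)
    (hns : ∀ (c : F) (h : F[X]), f ≠ C c * h ^ 2) (a : F) (Q : ℕ)
    (hQ : 2 * Q + 1 = Fintype.card F) (hbig : 25 * f.natDegree ^ 2 ≤ Fintype.card F) :
    (2 * ((Finset.univ.filter fun x : F => f.eval x = 0 ∨ f.eval x ^ Q = a).card : ℝ) -
      Fintype.card F) ≤ 5 * f.natDegree * Real.sqrt (Fintype.card F) := by
  have hcore := fun ℓ J A => core f hd hf0 hns a ℓ J A Q hQ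
  set q := Fintype.card F with hq
  set d := f.natDegree with hdd
  set Z := (Finset.univ.filter fun x : F => f.eval x = 0 ∨ f.eval x ^ Q = a).card with hZ
  set S := Real.sqrt (q : ℝ) with hS
  have hSq : S * S = q := Real.mul_self_sqrt (Nat.cast_nonneg q)
  have hS0 : 0 ≤ S := Real.sqrt_nonneg _
  have hd1 : (1 : ℝ) ≤ d := by exact_mod_cast hd
  have hSd : 5 * (d : ℝ) ≤ S := by
    rw [hS]
    apply Real.le_sqrt_of_sq_le
    have : (25 * d ^ 2 : ℝ) ≤ q := by exact_mod_cast hbig
    nlinarith
  set t := ⌊S / 2⌋₊ with ht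
  have ht1 : (t : ℝ) ≤ S / 2 := Nat.floor_le (by positivity)
  have ht2 : S / 2 < t + 1 := Nat.lt_floor_add_one _
  have ht3 : 3 / 10 * S ≤ t := by nlinarith
  have htpos : (0 : ℝ) < t := by nlinarith
  have htpos' : 0 < t := by exact_mod_cast htpos
  have h4t : 4 * t * t ≤ q := by
    have : (4 * t * t : ℝ) ≤ q := by nlinarith
    exact_mod_cast this
  have hq2 : 2 * t * t + t + d + 1 ≤ q := by
    have : (2 * t * t + t + d + 1 : ℝ) ≤ q := by nlinarith
    exact_mod_cast this
  set A := (q - d - 1) / 2 with hA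
  have hA1 : 2 * A + d < q := by omega
  have hA2 : q ≤ 2 * (A + 1) + d := by omega
  have hsum : ∀ n, ∑ k ∈ Finset.range n, (A + k * (d - 1) + (t + d)) =
      n * (A + (t + d)) + (∑ k ∈ Finset.range n, k) * (d - 1) := by
    intro n
    induction n with
    | zero => simp
    | succ n ih => rw [Finset.sum_range_succ, Finset.sum_range_succ, ih]; ring
  have hsum2 : (∑ k ∈ Finset.range (2 * t), k) = t * (2 * t - 1) := by
    rw [Finset.sum_range_id, mul_assoc, Nat.mul_div_cancel_left _ (by norm_num)]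
  have hdim : ∑ k ∈ Finset.range (2 * t), (A + k * (d - 1) + (t + d)) <
      2 * ((t + d) * (A + 1)) := by
    rw [hsum, hsum2]
    obtain ⟨e, he⟩ := Nat.exists_eq_add_of_le hd
    obtain ⟨u, hu⟩ := Nat.exists_eq_add_of_le (Nat.one_le_iff_ne_zero.2 htpos'.ne')
    have h1 : 2 * t - 1 = 2 * u + 1 := by omega
    have h2 : d - 1 = e := by omega
    rw [h1, h2]
    have hA2' : (q : ℤ) ≤ 2 * (A + 1) + d := by exact_mod_cast hA2
    have hq2' : (2 * t * t + t + d + 1 : ℤ) ≤ q := by exact_mod_cast hq2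
    have hu' : (t : ℤ) = 1 + u := by exact_mod_cast hu
    have he' : (d : ℤ) = 1 + e := by exact_mod_cast he
    have key : (2 * t : ℤ) * (A + (t + d)) + t * (2 * u + 1) * e < 2 * ((t + d) * (A + 1)) := by
      have hdz : (1 : ℤ) ≤ d := by exact_mod_cast hd
      have h3 : (d : ℤ) * (2 * t * t + t + d + 1) ≤ d * (2 * (A + 1) + d) :=
        mul_le_mul_of_nonneg_left (hq2'.trans hA2') (by positivity)
      have h4 : (u : ℤ) = t - 1 := by omega
      have h5 : (e : ℤ) = d - 1 := by omega
      rw [h4, h5]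
      have ht0 : (0 : ℤ) ≤ t := by positivity
      nlinarith
    exact_mod_cast key
  have hmain := hcore (2 * t) (t + d) A hA1 (by nlinarith) (by omega) hdim
  have hmainR : (2 * t * Z : ℝ) ≤ 2 * t * d + Q * d + A + ((t : ℝ) + d - 1) * q := by
    have h1 : ((2 * t * Z : ℕ) : ℝ) ≤ ((2 * t * d + Q * d + A + (t + d - 1) * q : ℕ) : ℝ) := by
      exact_mod_cast hmain
    push_cast at h1
    rw [Nat.cast_sub (by omega)] at h1
    push_cast at h1
    exact h1
  have hQR : (2 * Q + 1 : ℝ) = q := by exact_mod_cast hQ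
  have hAR : (2 * A + d + 1 : ℝ) ≤ q := by
    have : 2 * A + d + 1 ≤ q := hA1
    exact_mod_cast this
  have h5 : (t : ℝ) * (2 * Z - q) ≤ 2 * t * d + (3 * d - 1) / 2 * q := by
    nlinarith
  have h6 : (q : ℝ) ≤ 10 / 3 * S * t := by nlinarith
  have h7 : (t : ℝ) * (2 * Z - q) ≤ t * (5 * d * S) := by
    have h8 : (3 * d - 1) / 2 * (q : ℝ) ≤ (3 * d - 1) / 2 * (10 / 3 * S * t) :=
      mul_le_mul_of_nonneg_left h6 (by linarith)
    have h9 : 2 * (t : ℝ) * d ≤ 2 / 5 * (S * t) := by
      have : (t : ℝ) * (5 * d) ≤ t * S := mul_le_mul_of_nonneg_left hSd htpos.le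
      linarith
    have h10 : 0 ≤ S * t := mul_nonneg hS0 htpos.le
    have h11 : (3 * (d : ℝ) - 1) / 2 * (10 / 3 * S * t) = 5 * d * S * t - 5 / 3 * (S * t) := by ring
    have h12 : (t : ℝ) * (5 * d * S) = 5 * d * S * t := by ring
    rw [h12]
    linarith
  exact le_of_mul_le_mul_left h7 htpos

/-- the Weil bound for quadratic character sums (with constant `5 * deg f`),
by Stepanov's method -/
theorem weil_bound [Fintype F] [DecidableEq F] (hF : ringChar F ≠ 2) (f : F[X])
    (hd : 1 ≤ f.natDegree) (hns : ∀ (c : F) (h : F[X]), f ≠ C c * h ^ 2) :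
    |∑ x : F, (quadraticChar F (f.eval x) : ℝ)| ≤
      5 * f.natDegree * Real.sqrt (Fintype.card F) := by
  set q := Fintype.card F with hq
  have htriv : |∑ x : F, (quadraticChar F (f.eval x) : ℝ)| ≤ q := by
    refine (Finset.abs_sum_le_sum_abs _ _).trans ?_
    have : ∀ x ∈ (Finset.univ : Finset F), |(quadraticChar F (f.eval x) : ℝ)| ≤ 1 := by
      intro x _
      by_cases h0 : f.eval x = 0
      · simp [h0]
      · rcases quadraticChar_dichotomy h0 with h | h <;> simp [h]
    refine (Finset.sum_le_sum this).trans ?_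
    simp [hq, Finset.card_univ]
  by_cases hbig : 25 * f.natDegree ^ 2 ≤ q
  swap
  · refine htriv.trans ?_
    push Not at hbig
    have hbig' : (q : ℝ) ≤ 25 * f.natDegree ^ 2 := by exact_mod_cast hbig.le
    have hSq : Real.sqrt (q : ℝ) * Real.sqrt (q : ℝ) = q := Real.mul_self_sqrt (Nat.cast_nonneg q)
    have hS : Real.sqrt (q : ℝ) ≤ 5 * f.natDegree := by
      apply Real.sqrt_le_iff.2
      constructor
      · positivity
      · nlinarith
    nlinarith [Real.sqrt_nonneg (q : ℝ)]
  -- choose a point with `f c ≠ 0`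
  have hf : f ≠ 0 := by
    rintro rfl
    simp at hd
  obtain ⟨c, hc⟩ : ∃ c : F, f.eval c ≠ 0 := by
    by_contra hcon
    push Not at hcon
    have h1 : (Finset.univ : Finset F).card ≤ f.natDegree := by
      refine (Finset.card_le_card (t := f.roots.toFinset) ?_).trans
        ((Multiset.toFinset_card_le _).trans (card_roots' f))
      intro x _
      rw [Multiset.mem_toFinset, mem_roots hf]
      exact hcon x
    rw [Finset.card_univ, ← hq] at h1
    nlinarith
  set g := f.comp (X + C c) with hg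
  have hgd : g.natDegree = f.natDegree := by
    rw [hg, natDegree_comp]
    simp
  have hg0 : g.eval 0 ≠ 0 := by
    rw [hg, eval_comp]
    simpa using hc
  have hgns : ∀ (b : F) (h : F[X]), g ≠ C b * h ^ 2 := by
    intro b h hgh
    apply hns b (h.comp (X - C c))
    have h1 := congrArg (fun p => p.comp (X - C c)) hgh
    simp only [hg] at h1
    rw [comp_assoc] at h1
    simpa using h1
  have hsum : ∑ x : F, (quadraticChar F (f.eval x) : ℝ) =
      ∑ x : F, (quadraticChar F (g.eval x) : ℝ) := by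
    refine (Fintype.sum_equiv (Equiv.addRight c) _ _ fun x => ?_).symm
    rw [hg, eval_comp]
    simp
  obtain ⟨Q, hQ⟩ : ∃ Q, 2 * Q + 1 = q := by
    have := FiniteField.odd_card_of_char_ne_two hF
    refine ⟨q / 2, ?_⟩
    omega
  have hQ2 : q / 2 = Q := by omega
  have hneg : (-1 : F) ≠ 1 := Ring.neg_one_ne_one_of_char_ne_two hF
  have hA := card_le g (by omega) hg0 hgns 1 Q hQ (by rw [hgd]; exact hbig)
  have hB := card_le g (by omega) hg0 hgns (-1) Q hQ (by rw [hgd]; exact hbig)
  rw [← hq, hgd] at hA hB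
  -- express the sum
  have hpt : ∀ x : F, (quadraticChar F (g.eval x) : ℝ) =
      2 * (if g.eval x = 0 ∨ g.eval x ^ Q = 1 then 1 else 0) - 1 -
        (if g.eval x = 0 then 1 else 0) := by
    intro x
    by_cases h0 : g.eval x = 0
    · simp [h0]
      norm_num
    · have h1 := quadraticChar_eq_pow_of_char_ne_two hF h0
      rw [← hq, hQ2] at h1
      rw [h1]
      by_cases h2 : g.eval x ^ Q = 1
      · simp [h0, h2]; norm_num
      · simp [h0, h2]
  have hpt2 : ∀ x : F, (quadraticChar F (g.eval x) : ℝ) =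
      1 + (if g.eval x = 0 then 1 else 0) -
        2 * (if g.eval x = 0 ∨ g.eval x ^ Q = -1 then 1 else 0) := by
    intro x
    by_cases h0 : g.eval x = 0
    · simp [h0]
      norm_num
    · have h1 := quadraticChar_eq_pow_of_char_ne_two hF h0
      have h3 := FiniteField.pow_dichotomy hF h0
      rw [← hq, hQ2] at h1 h3
      rw [h1]
      rcases h3 with h2 | h2
      · simp [h0, h2, hneg.symm]
      · simp [h0, h2, hneg]; norm_num
  rw [hsum, abs_le]
  constructor
  · have h1 : ∑ x : F, (quadraticChar F (g.eval x) : ℝ) =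
        q + (∑ x : F, if g.eval x = 0 then (1 : ℝ) else 0) -
        2 * ((Finset.univ.filter fun x : F => g.eval x = 0 ∨ g.eval x ^ Q = -1).card : ℝ) := by
      rw [Finset.sum_congr rfl fun x _ => hpt2 x, Finset.sum_sub_distrib, Finset.sum_add_distrib,
        ← Finset.mul_sum, Finset.sum_boole (R := ℝ) (fun x : F => g.eval x = 0 ∨ g.eval x ^ Q = -1)]
      simp [hq, Finset.card_univ]
    have h2 : (0 : ℝ) ≤ ∑ x : F, if g.eval x = 0 then (1 : ℝ) else 0 :=
      Finset.sum_nonneg fun x _ => by split_ifs <;> norm_num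
    rw [h1]
    linarith
  · have h1 : ∑ x : F, (quadraticChar F (g.eval x) : ℝ) =
        2 * ((Finset.univ.filter fun x : F => g.eval x = 0 ∨ g.eval x ^ Q = 1).card : ℝ) - q -
        (∑ x : F, if g.eval x = 0 then (1 : ℝ) else 0) := by
      rw [Finset.sum_congr rfl fun x _ => hpt x, Finset.sum_sub_distrib, Finset.sum_sub_distrib,
        ← Finset.mul_sum, Finset.sum_boole (R := ℝ) (fun x : F => g.eval x = 0 ∨ g.eval x ^ Q = 1)]
      simp [hq, Finset.card_univ]
    have h2 : (0 : ℝ) ≤ ∑ x : F, if g.eval x = 0 then (1 : ℝ) else 0 :=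
      Finset.sum_nonneg fun x _ => by split_ifs <;> norm_num
    rw [h1]
    linarith

end HD

end Pool.Agent.H341R2
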