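import Pool.Agent.H223.EM.Defs
import Pool.Agent.H777R2.SM_T6D

set_option autoImplicit false

/-!
Task T7c of the eighth moment project: the kernel on the line `1/2`.
-/

namespace Pool.Agent.H341R2.EM

open Finset Filter Topology MeasureTheory Complex
open Pool.Agent.H306R2 Pool.Agent.H306R2.SM Pool.Agent.H223.EM
open Pool.Agent.H777R2.SM (norm_Gamma_decay continuous_Gamma_line)

noncomputable section

theorem T7c_sin (t : ℝ) : Complex.sin ((Real.pi : ℂ) * (((1 / 2 : ℝ) : ℂ) + t * I))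
    = ((Real.cosh (Real.pi * t) : ℝ) : ℂ) := by
  have h : (Real.pi : ℂ) * (((1 / 2 : ℝ) : ℂ) + t * I)
      = ((Real.pi * t : ℝ) : ℂ) * I + (Real.pi : ℂ) / 2 := by
    push_cast
    ring
  rw [h, Complex.sin_add_pi_div_two, Complex.cos_mul_I, Complex.ofReal_cosh]

theorem T7c_cos (t : ℝ) : Complex.cos ((Real.pi : ℂ) * (((1 / 2 : ℝ) : ℂ) + t * I))
    = -(((Real.sinh (Real.pi * t) : ℝ) : ℂ) * I) := by
  have h : (Real.pi : ℂ) * (((1 / 2 : ℝ) : ℂ) + t * I)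
      = ((Real.pi * t : ℝ) : ℂ) * I + (Real.pi : ℂ) / 2 := by
    push_cast
    ring
  rw [h, Complex.cos_add_pi_div_two, Complex.sin_mul_I, Complex.ofReal_sinh]

theorem T7c_cs (i : Fin 2) (t : ℝ) :
    ‖cs i (((1 / 2 : ℝ) : ℂ) + t * I)‖ ≤ Real.cosh (Real.pi * t) := by
  unfold cs
  split_ifs with h
  · rw [norm_one]; exact Real.one_le_cosh _
  · rw [norm_neg, T7c_cos, norm_neg, norm_mul, Complex.norm_I, mul_one, Complex.norm_real,
      Real.norm_eq_abs, abs_le]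
    have h1 := Real.cosh_sq (Real.pi * t)
    have h2 := Real.cosh_pos (Real.pi * t)
    constructor <;> nlinarith

theorem T7c_gam (t : ℝ) :
    ‖Complex.Gamma (1 - (((1 / 2 : ℝ) : ℂ) + t * I))‖ ^ 2 = Real.pi / Real.cosh (Real.pi * t) := by
  set s : ℂ := ((1 / 2 : ℝ) : ℂ) + t * I with hs
  have h1 : 1 - s = (starRingEnd ℂ) s := by
    rw [hs, map_add, map_mul, Complex.conj_ofReal, Complex.conj_ofReal, Complex.conj_I]
    push_cast
    ring
  have h2 := Complex.Gamma_mul_Gamma_one_sub s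
  have h3 : ‖Complex.Gamma (1 - s)‖ = ‖Complex.Gamma s‖ := by
    rw [h1, Complex.Gamma_conj, Complex.norm_conj]
  have h4 : ‖Complex.Gamma s * Complex.Gamma (1 - s)‖ = Real.pi / Real.cosh (Real.pi * t) := by
    rw [h2, hs, T7c_sin, norm_div, Complex.norm_real, Complex.norm_real, Real.norm_eq_abs,
      Real.norm_eq_abs, abs_of_pos Real.pi_pos, abs_of_pos (Real.cosh_pos _)]
  rw [norm_mul, ← h3] at h4
  rw [sq]
  exact h4

theorem T7c_bound (i : Fin 2) (k : ℕ) (t : ℝ) :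
    ‖kap i k (((1 / 2 : ℝ) : ℂ) + t * I)‖
      ≤ 16 * Real.Gamma ((k : ℝ) + 5 / 2) * Real.pi * (1 + t ^ 2)⁻¹ := by
  have hk0 : (0 : ℝ) ≤ k := Nat.cast_nonneg k
  unfold kap
  have h1 := norm_Gamma_decay (((1 / 2 : ℝ) : ℂ) + t * I + k) (by simp) 2
  have e1 : (((1 / 2 : ℝ) : ℂ) + t * I + k).re + ((2 : ℕ) : ℝ) = (k : ℝ) + 5 / 2 := by
    simp
    ring
  have e2 : (((1 / 2 : ℝ) : ℂ) + t * I + k).im = t := by simp
  rw [e1, e2] at h1
  have hG : 0 < Real.Gamma ((k : ℝ) + 5 / 2) := Real.Gamma_pos_of_pos (by positivity)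
  have h2 : (4 : ℝ) ^ 2 * Real.Gamma ((k : ℝ) + 5 / 2) / (1 + |t|) ^ 2
      ≤ 16 * Real.Gamma ((k : ℝ) + 5 / 2) * (1 + t ^ 2)⁻¹ := by
    rw [div_eq_mul_inv]
    have h3 : ((1 + |t|) ^ 2)⁻¹ ≤ (1 + t ^ 2)⁻¹ := by
      apply inv_anti₀ (by positivity)
      nlinarith [abs_nonneg t, sq_abs t]
    have h4 : (4 : ℝ) ^ 2 * Real.Gamma ((k : ℝ) + 5 / 2) = 16 * Real.Gamma ((k : ℝ) + 5 / 2) := by
      norm_num
    rw [h4]
    exact mul_le_mul_of_nonneg_left h3 (by positivity)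
  have h5 : ‖Complex.Gamma (1 - (((1 / 2 : ℝ) : ℂ) + t * I))‖ ^ 2 *
      ‖cs i (((1 / 2 : ℝ) : ℂ) + t * I)‖ ≤ Real.pi := by
    rw [T7c_gam]
    have hc := Real.cosh_pos (Real.pi * t)
    calc Real.pi / Real.cosh (Real.pi * t) * ‖cs i (((1 / 2 : ℝ) : ℂ) + t * I)‖
        ≤ Real.pi / Real.cosh (Real.pi * t) * Real.cosh (Real.pi * t) :=
          mul_le_mul_of_nonneg_left (T7c_cs i t) (by positivity)
      _ = Real.pi := div_mul_cancel₀ _ hc.ne'
  rw [norm_mul, norm_mul, norm_pow, mul_assoc]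
  calc ‖Complex.Gamma (((1 / 2 : ℝ) : ℂ) + t * I + k)‖ *
        (‖Complex.Gamma (1 - (((1 / 2 : ℝ) : ℂ) + t * I))‖ ^ 2 *
          ‖cs i (((1 / 2 : ℝ) : ℂ) + t * I)‖)
      ≤ (16 * Real.Gamma ((k : ℝ) + 5 / 2) * (1 + t ^ 2)⁻¹) * Real.pi :=
        mul_le_mul (h1.trans h2) h5 (by positivity) (by positivity)
    _ = _ := by ring

theorem T7c_cont (i : Fin 2) (k : ℕ) :
    Continuous (fun t : ℝ => kap i k (((1 / 2 : ℝ) : ℂ) + t * I)) := by
  unfold kap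
  have h1 : Continuous (fun t : ℝ => Complex.Gamma (((1 / 2 : ℝ) : ℂ) + t * I + k)) := by
    have h := continuous_Gamma_line ((k : ℝ) + 1 / 2) (by positivity)
    refine h.congr fun t => ?_
    congr 1
    push_cast
    ring
  have h2 : Continuous (fun t : ℝ => Complex.Gamma (1 - (((1 / 2 : ℝ) : ℂ) + t * I))) := by
    have h := (continuous_Gamma_line (1 / 2) (by norm_num)).comp continuous_neg
    refine h.congr fun t => ?_
    show Complex.Gamma (((1 / 2 : ℝ) : ℂ) + ((-t : ℝ) : ℂ) * I) = _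
    congr 1
    push_cast
    ring
  have h3 : Continuous (fun t : ℝ => cs i (((1 / 2 : ℝ) : ℂ) + t * I)) := by
    unfold cs
    split_ifs
    · exact continuous_const
    · exact (Complex.continuous_cos.comp (by fun_prop)).neg
  exact (h1.mul (h2.pow 2)).mul h3

/-- T7c. the kernel on the line `1/2` -/
theorem kap_int : ∃ C : ℝ, ∃ A : ℕ, 0 < C ∧ ∀ (i : Fin 2) (k : ℕ), 1 ≤ k →
    Integrable (fun t : ℝ => kap i k (((1 / 2 : ℝ) : ℂ) + t * I)) ∧
    ∫ t : ℝ, ‖kap i k (((1 / 2 : ℝ) : ℂ) + t * I)‖ ≤ C * (k : ℝ) ^ A * (k.factorial : ℝ) := by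
  refine ⟨96 * Real.pi ^ 2, 2, by positivity, fun i k hk => ?_⟩
  have hk' : (1 : ℝ) ≤ k := by exact_mod_cast hk
  have hint : Integrable (fun t : ℝ =>
      16 * Real.Gamma ((k : ℝ) + 5 / 2) * Real.pi * (1 + t ^ 2)⁻¹) :=
    integrable_inv_one_add_sq.const_mul _
  have hI : Integrable (fun t : ℝ => kap i k (((1 / 2 : ℝ) : ℂ) + t * I)) :=
    hint.mono' (T7c_cont i k).aestronglyMeasurable (Eventually.of_forall fun t => T7c_bound i k t)
  refine ⟨hI, ?_⟩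
  have hG : Real.Gamma ((k : ℝ) + 5 / 2) ≤ 6 * (k : ℝ) ^ 2 * (k.factorial : ℝ) := by
    have h3 : Real.Gamma ((k : ℝ) + 5 / 2) ≤ Real.Gamma ((k : ℝ) + 3) := by
      apply Real.Gamma_strictMonoOn_Ici.monotoneOn
      · show (2 : ℝ) ≤ _
        linarith
      · show (2 : ℝ) ≤ _
        linarith
      · linarith
    have h4 : Real.Gamma ((k : ℝ) + 3) = ((k + 2).factorial : ℝ) := by
      rw [← Real.Gamma_nat_eq_factorial]
      congr 1
      push_cast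
      ring
    have h5 : ((k + 2).factorial : ℝ) = ((k : ℝ) + 2) * (((k : ℝ) + 1) * (k.factorial : ℝ)) := by
      rw [Nat.factorial_succ, Nat.factorial_succ]
      push_cast
      ring
    rw [h4, h5] at h3
    refine h3.trans ?_
    have h6 : (0 : ℝ) ≤ k.factorial := Nat.cast_nonneg _
    have h7 : ((k : ℝ) + 2) * ((k : ℝ) + 1) ≤ 6 * (k : ℝ) ^ 2 := by nlinarith
    calc ((k : ℝ) + 2) * (((k : ℝ) + 1) * (k.factorial : ℝ))
        = (((k : ℝ) + 2) * ((k : ℝ) + 1)) * (k.factorial : ℝ) := by ring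
      _ ≤ _ := mul_le_mul_of_nonneg_right h7 h6
  calc ∫ t : ℝ, ‖kap i k (((1 / 2 : ℝ) : ℂ) + t * I)‖
      ≤ ∫ t : ℝ, 16 * Real.Gamma ((k : ℝ) + 5 / 2) * Real.pi * (1 + t ^ 2)⁻¹ :=
        integral_mono hI.norm hint fun t => T7c_bound i k t
    _ = 16 * Real.Gamma ((k : ℝ) + 5 / 2) * Real.pi * Real.pi := by
        rw [integral_const_mul, integral_univ_inv_one_add_sq]
    _ ≤ 16 * (6 * (k : ℝ) ^ 2 * (k.factorial : ℝ)) * Real.pi * Real.pi := by
        have := Real.pi_pos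
        gcongr
    _ = 96 * Real.pi ^ 2 * (k : ℝ) ^ 2 * (k.factorial : ℝ) := by ring

end

end Pool.Agent.H341R2.EM
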