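import Pool.Agent.H343R2.Gauss

/-!
Task T8a of the eighth moment project: Gauss sums of arbitrary Dirichlet characters.
-/

namespace Pool.Agent.H341R2.EM

open H343 H343.Gauss

theorem GS_le (q m r : ℕ) (hq : 1 ≤ q) (hm : 1 ≤ m) (h : q * m = r)
    (ψ : DirichletCharacter ℂ q) (hψ : ψ.IsPrimitive) :
    ‖GS (DirichletCharacter.changeLevel (Dvd.intro m h : q ∣ r) ψ)‖ ≤ Real.sqrt q := by
  subst h
  rw [GS_changeLevel q m hq hm, norm_mul, norm_mul, GS_primitive q hq _ hψ]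
  have h2 : ‖((ArithmeticFunction.moebius m : ℤ) : ℂ)‖ ≤ 1 := by
    rw [Complex.norm_intCast]
    exact_mod_cast ArithmeticFunction.abs_moebius_le_one
  have h3 : ‖ψ (m : ZMod q)‖ ≤ 1 := DirichletCharacter.norm_le_one _ _
  calc _ ≤ 1 * 1 * Real.sqrt q := by gcongr
    _ = Real.sqrt q := by ring

/-- T8a. Gauss sums of arbitrary characters -/
theorem gauss_le (r : ℕ) [NeZero r] (χ : DirichletCharacter ℂ r) :
    ‖gaussSum χ (ZMod.stdAddChar : AddChar (ZMod r) ℂ)‖ ^ 2 ≤ (χ.conductor : ℝ) := by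
  have hdvd := χ.conductor_dvd_level
  have hr : 0 < r := Nat.pos_of_ne_zero (NeZero.ne r)
  have hq : 1 ≤ χ.conductor := Nat.pos_of_dvd_of_pos hdvd hr
  have hm : 1 ≤ r / χ.conductor := Nat.div_pos (Nat.le_of_dvd hr hdvd) hq
  have h := GS_le χ.conductor (r / χ.conductor) r hq hm (Nat.mul_div_cancel' hdvd)
    χ.primitiveCharacter χ.primitiveCharacter_isPrimitive
  rw [χ.changeLevel_primitiveCharacter, GS_eq] at h
  calc ‖gaussSum χ (ZMod.stdAddChar : AddChar (ZMod r) ℂ)‖ ^ 2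
      ≤ (Real.sqrt (χ.conductor : ℝ)) ^ 2 := pow_le_pow_left₀ (norm_nonneg _) h 2
    _ = (χ.conductor : ℝ) := Real.sq_sqrt (Nat.cast_nonneg _)

end Pool.Agent.H341R2.EM
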