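import Pool.Agent.H341R2.LFunLog
import Pool.Agent.H341R2.TwoSided

set_option autoImplicit false

namespace Pool.Agent.H341R2

open Complex Filter Topology ComplexConjugate Polynomial

/-- the order of a meromorphic extension of `L(Hⁱ((C_D)ⁿ), s)` at a point of the edge, in terms of
the mean of the normalized traces -/
theorem curve_order {f : ℤ[X]} (hf : (f.map (Int.castRingHom ℚ)).Separable)
    (hd : 1 ≤ f.natDegree) (n i : ℕ) {D : ℤ} (hD : D ≠ 0) (B : Nat.Primes → ℂ[X])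
    (hB : ∀ p, ¬ GoodPrime f D p → ∀ s : ℂ, s.re = (i : ℝ) / 2 + 1 →
      (B p).eval (((p : ℕ) : ℂ) ^ (-s)) ≠ 0)
    (τ : ℝ) (Λ : ℂ → ℂ) (hΛ : MeromorphicAt Λ ((i / 2 + 1 : ℂ) + τ * I))
    (hΛL : ∀ᶠ s in 𝓝 ((i / 2 + 1 : ℂ) + τ * I), (i / 2 + 1 : ℝ) < s.re →
      Λ s = LFun n i f D B s) :
    ∃ m : ℤ, meromorphicOrderAt Λ ((i / 2 + 1 : ℂ) + τ * I) = m ∧
      ∃ C' : ℝ, ∀ᶠ ε : ℝ in 𝓝[>] 0,
        |(E ε fun p => (aa n i f D τ p).re) + m * lam ε| ≤ C' := by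
  classical
  set ρ : ℂ := (i / 2 + 1 : ℂ) + τ * I with hρ
  have hρre : ρ.re = i / 2 + 1 := by rw [hρ]; simp
  have hK : 0 ≤ KK f n := by unfold KK; positivity
  refine two_sided (finite_bad hf hD) B ρ (fun p hp => hB p hp ρ hρre) (aa n i f D τ)
    (K := KK f n) (fun p => norm_aa_le hd n i D τ p) (fun p hp => by rw [aa, if_neg hp])
    (fun ε p => ∑' m : ℕ, (traceH n i f D p (m + 1) : ℂ) *
      ((p : ℕ) : ℂ) ^ (-((m + 1 : ℂ) * (ρ + ε))) / (m + 1 : ℂ)) (C := 2 * KK f n) ?_ hΛ ?_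
  · intro ε hε p hp
    have hp0 : (0 : ℝ) < p := by exact_mod_cast p.2.pos
    have hpc : ((p : ℕ) : ℂ) ≠ 0 := by exact_mod_cast p.2.ne_zero
    have hsre : (ρ + ε : ℂ).re = i / 2 + 1 + ε := by
      rw [Complex.add_re, hρre, Complex.ofReal_re]
    have h1 := goodLog_bound (fun m => (traceH n i f D p m : ℂ)) (KK f n) (i / 2) hK p
      (by
        intro m
        have h2 := traceH_bound hd hp n i (m + 1) (by omega)
        rwa [Complex.norm_intCast]) (ρ + ε) (by rw [hsre]; linarith)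
    have h3 : aa n i f D τ p * ((p : ℝ) ^ (-(1 + ε)) : ℝ) =
        (traceH n i f D p 1 : ℂ) * ((p : ℕ) : ℂ) ^ (-(ρ + ε)) := by
      rw [aa, if_pos hp]
      push_cast
      rw [Complex.ofReal_cpow hp0.le, Complex.ofReal_cpow hp0.le]
      push_cast
      rw [mul_assoc, mul_assoc, ← Complex.cpow_add _ _ hpc, ← Complex.cpow_add _ _ hpc]
      congr 2
      rw [hρ]
      ring
    rw [h3]
    exact h1
  · filter_upwards [(path_tendsto' ρ).eventually hΛL, self_mem_nhdsWithin] with ε h1 h2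
    have hε : (0 : ℝ) < ε := h2
    rw [h1 (by rw [Complex.add_re, hρre, Complex.ofReal_re]; linarith), LFun]
    rfl

end Pool.Agent.H341R2
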