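import Mathlib

set_option autoImplicit false

/-! # Random choice of residue classes, abstract form -/

namespace Pool.Agent.H341R2.DG

open Finset

open scoped Classical

/-- Averaging: nonzero classes modulo the primes of `S`, for arbitrary objects `x` and an arbitrary
relation `class c modulo p hits x`; `x` is good for `p` if some nonzero class hits it. -/
theorem greedy_abs {α : Type*} (hit : ℕ → ℕ → α → Prop) (good : ℕ → α → Prop)
    (hg : ∀ p x, good p x → ∃ c, 1 ≤ c ∧ c < p ∧ hit p c x) (S : Finset ℕ)
    (hS : ∀ p ∈ S, 3 ≤ p) :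
    ∀ R : Finset α, ∃ b : ℕ → ℕ, (∀ p ∈ S, 1 ≤ b p ∧ b p < p) ∧
      ((R.filter (fun x => ∀ p ∈ S, ¬ hit p (b p) x)).card : ℝ) ≤
        ∑ x ∈ R, ∏ p ∈ S.filter (fun p => good p x), (1 - 1 / ((p : ℝ) - 1)) := by
  induction S using Finset.induction_on with
  | empty => intro R; exact ⟨fun _ => 0, by simp, by simp⟩
  | insert p S hpS ih =>
    intro R
    have ihP := ih (fun q hq => hS q (mem_insert_of_mem hq))
    have hp3 : 3 ≤ p := hS p (mem_insert_self _ _)
    have hp3' : (3 : ℝ) ≤ p := by exact_mod_cast hp3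
    set w : α → ℝ := fun x => ∏ q ∈ S.filter (fun q => good q x), (1 - 1 / ((q : ℝ) - 1)) with hw
    have hw0 : ∀ x, 0 ≤ w x := by
      intro x
      apply prod_nonneg
      intro q hq
      have h2 : (3 : ℝ) ≤ q := by exact_mod_cast hS q (mem_insert_of_mem (mem_filter.1 hq).1)
      have h3 : 1 / ((q : ℝ) - 1) ≤ 1 := by
        rw [div_le_one (by linarith)]; linarith
      linarith
    have hcard : ((Icc 1 (p - 1)).card : ℝ) = (p : ℝ) - 1 := by
      rw [Nat.card_Icc, Nat.add_sub_cancel, Nat.cast_sub (by omega)]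
      simp
    have havg : ∃ c ∈ Icc 1 (p - 1), ∑ x ∈ R.filter (fun x => ¬ hit p c x), w x ≤
        ∑ x ∈ R, ∏ q ∈ (insert p S).filter (fun q => good q x), (1 - 1 / ((q : ℝ) - 1)) := by
      by_contra hcon
      push Not at hcon
      have hne : (Icc 1 (p - 1)).Nonempty := ⟨1, mem_Icc.2 ⟨le_rfl, by omega⟩⟩
      have h1 := sum_lt_sum_of_nonempty hne hcon
      rw [sum_const, nsmul_eq_mul, hcard] at h1
      have h2 : ∑ c ∈ Icc 1 (p - 1), ∑ x ∈ R.filter (fun x => ¬ hit p c x), w x =
          ∑ x ∈ R, w x * (((Icc 1 (p - 1)).filter (fun c => ¬ hit p c x)).card : ℝ) := by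
        simp_rw [sum_filter]
        rw [sum_comm]
        refine sum_congr rfl fun x _ => ?_
        rw [← sum_filter, sum_const, nsmul_eq_mul, mul_comm]
      rw [h2] at h1
      have h3 : ∀ x ∈ R, w x * (((Icc 1 (p - 1)).filter (fun c => ¬ hit p c x)).card : ℝ) ≤
          ((p : ℝ) - 1) *
            ∏ q ∈ (insert p S).filter (fun q => good q x), (1 - 1 / ((q : ℝ) - 1)) := by
        intro x _
        rw [filter_insert]
        by_cases hgx : good p x
        · rw [if_pos hgx, prod_insert (by simp [hpS])]
          obtain ⟨c, hc1, hc2, hc3⟩ := hg p x hgx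
          have h4 : (Icc 1 (p - 1)).filter (fun c => ¬ hit p c x) ⊆ (Icc 1 (p - 1)).erase c := by
            intro d hd
            rw [mem_filter] at hd
            rw [mem_erase]
            exact ⟨fun h => hd.2 (h ▸ hc3), hd.1⟩
          have h5 := card_le_card h4
          rw [card_erase_of_mem (mem_Icc.2 ⟨hc1, by omega⟩), Nat.card_Icc] at h5
          have h6 : ((((Icc 1 (p - 1)).filter (fun c => ¬ hit p c x)).card : ℕ) : ℝ) ≤
              (p : ℝ) - 2 := by
            have h7 : ((Icc 1 (p - 1)).filter (fun c => ¬ hit p c x)).card ≤ p - 2 := by omega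
            have h8 : ((((Icc 1 (p - 1)).filter (fun c => ¬ hit p c x)).card : ℕ) : ℝ) ≤
              ((p - 2 : ℕ) : ℝ) := by exact_mod_cast h7
            rwa [Nat.cast_sub (by omega)] at h8
          have h7 : ((p : ℝ) - 1) * ((1 - 1 / ((p : ℝ) - 1)) * w x) = w x * ((p : ℝ) - 2) := by
            have : (p : ℝ) - 1 ≠ 0 := by linarith
            field_simp
            ring
          change _ ≤ ((p : ℝ) - 1) * ((1 - 1 / ((p : ℝ) - 1)) * w x)
          rw [h7]
          exact mul_le_mul_of_nonneg_left h6 (hw0 x)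
        · rw [if_neg hgx]
          change _ ≤ ((p : ℝ) - 1) * w x
          rw [mul_comm]
          refine mul_le_mul_of_nonneg_right ?_ (hw0 x)
          rw [← hcard]
          exact_mod_cast card_filter_le _ _
      have h4 := sum_le_sum h3
      rw [← mul_sum] at h4
      linarith
    obtain ⟨c, hc, hle⟩ := havg
    rw [mem_Icc] at hc
    obtain ⟨b, hb, hbc⟩ := ihP (R.filter (fun x => ¬ hit p c x))
    refine ⟨Function.update b p c, ?_, ?_⟩
    · intro q hq
      rcases mem_insert.1 hq with rfl | hq
      · rw [Function.update_self]; exact ⟨hc.1, by omega⟩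
      · have : q ≠ p := fun h => hpS (h ▸ hq)
        rw [Function.update_of_ne this]
        exact hb q hq
    · have h8 : R.filter (fun x => ∀ q ∈ insert p S, ¬ hit q (Function.update b p c q) x) ⊆
          (R.filter (fun x => ¬ hit p c x)).filter (fun x => ∀ q ∈ S, ¬ hit q (b q) x) := by
        intro x hx
        rw [mem_filter] at hx
        rw [mem_filter, mem_filter]
        refine ⟨⟨hx.1, ?_⟩, ?_⟩
        · have := hx.2 p (mem_insert_self _ _)
          rwa [Function.update_self] at this
        · intro q hq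
          have h9 : q ≠ p := fun h => hpS (h ▸ hq)
          have := hx.2 q (mem_insert_of_mem hq)
          rwa [Function.update_of_ne h9] at this
      calc _ ≤ (((R.filter (fun x => ¬ hit p c x)).filter
              (fun x => ∀ q ∈ S, ¬ hit q (b q) x)).card : ℝ) := by
            exact_mod_cast card_le_card h8
        _ ≤ _ := hbc
        _ ≤ _ := hle

end Pool.Agent.H341R2.DG
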