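import Pool.Agent.H398R2.RK.Surv
import Pool.Agent.H341R2.DG1

set_option autoImplicit false
set_option maxHeartbeats 4000000

/-! # Residue classes modulo the small primes for the multiples `n, 2n, ..., Jn` -/

namespace Pool.Agent.H341R2.DG

open Finset Filter Pool.Agent.H318R2.Cr Pool.Agent.H398R2.RK

open scoped Classical

/-- `log v` for the smoothness bound `v` -/
noncomputable def VV (y : ℝ) : ℝ :=
  Real.log y * Real.log (Real.log (Real.log y)) / (40 * Real.log (Real.log y))

/-- the primes treated at random: `(log y)^2 < p`, `log p ≤ VV y` -/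
noncomputable def SS (y : ℝ) : Finset ℕ :=
  (Icc 1 ⌊Real.exp (VV y)⌋₊).filter (fun p : ℕ => p.Prime ∧ (Real.log y) ^ 2 < (p : ℝ))

theorem mem_SS {y : ℝ} {p : ℕ} (hp : p.Prime) :
    p ∈ SS y ↔ (Real.log y) ^ 2 < (p : ℝ) ∧ Real.log p ≤ VV y := by
  have hp0 : (0 : ℝ) < p := by exact_mod_cast hp.pos
  rw [SS, mem_filter, mem_Icc, Real.log_le_iff_le_exp hp0, Nat.le_floor_iff (Real.exp_pos _).le]
  constructor
  · rintro ⟨⟨_, h⟩, _, h'⟩; exact ⟨h', h⟩
  · rintro ⟨h, h'⟩; exact ⟨⟨hp.pos, h'⟩, hp, h⟩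

/-- the `m ≤ L` all of whose primes factors are `> y` or in `SS y` -/
noncomputable def Good (y : ℝ) (L : ℕ) : Finset ℕ :=
  (Icc 1 L).filter (fun m => ∀ p : ℕ, p.Prime → p ∣ m → (y < p ∨ p ∈ SS y))

/-- what is needed about `y` -/
def Big (y : ℝ) : Prop :=
  1 ≤ Real.log (Real.log y) ∧ 1 ≤ Real.log (Real.log (Real.log y)) ∧
  100 ≤ Real.log y ∧ 100 * (Real.log (Real.log y)) ^ 2 ≤ Real.log y ∧
  Real.log (Real.log (Real.log y)) ≤ Real.log (Real.log y) ∧
  2 ≤ Real.log (Real.log (Real.log y)) ∧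
  (Real.log y) ^ 2 ≤ Real.sqrt y ∧ 0 < y

theorem big : ∃ y₀ : ℝ, ∀ y : ℝ, y₀ ≤ y → Big y := by
  obtain ⟨t₀, hev⟩ := ev_surv
  have h3 := (Real.tendsto_log_atTop.comp Real.tendsto_log_atTop).comp Real.tendsto_log_atTop
  have h4 := (Real.tendsto_log_atTop.comp Real.tendsto_log_atTop)
  obtain ⟨y₁, hy₁⟩ := eventually_atTop.1 ((h3.eventually_ge_atTop 2).and
    (((h4.eventually_ge_atTop (max t₀ 1000))).and (eventually_ge_atTop (1 : ℝ))))
  refine ⟨y₁, fun y hy => ?_⟩
  obtain ⟨a1, a2, a3⟩ := hy₁ y hy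
  simp only [Function.comp] at a1 a2
  have hy0 : 0 < y := by linarith
  set t := Real.log (Real.log y) with ht
  have b1 : t₀ ≤ t := (le_max_left _ _).trans a2
  have b2 : 1000 ≤ t := (le_max_right _ _).trans a2
  obtain ⟨h1, h2, h3', h4', h5, h6⟩ := hev t b1
  have hly : 0 < Real.log y := by
    by_contra hcon
    push Not at hcon
    have : 0 ≤ Real.log y := Real.log_nonneg a3
    have h0 : Real.log y = 0 := le_antisymm hcon this
    rw [ht, h0, Real.log_zero] at b2
    linarith
  have hLe : Real.log y = Real.exp t := by rw [ht, Real.exp_log hly]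
  have e3 : t ^ 3 / 6 ≤ Real.exp t := by
    have h7 := Real.pow_div_factorial_le_exp t (by linarith) 3
    norm_num [Nat.factorial] at h7
    linarith
  have e1 : 100 * t ^ 2 ≤ Real.log y := by
    rw [hLe]
    refine le_trans ?_ e3
    nlinarith [sq_nonneg t]
  refine ⟨by linarith, by linarith, by rw [hLe]; exact h4', e1, h5, a1, ?_, hy0⟩
  -- (log y)^2 ≤ √y
  have h7 : (Real.log y / 2) ^ 5 / 120 ≤ Real.exp (Real.log y / 2) := by
    have h7 := Real.pow_div_factorial_le_exp (Real.log y / 2) (by linarith) 5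
    norm_num [Nat.factorial] at h7
    linarith
  have h8 : Real.exp (Real.log y / 2) = Real.sqrt y := by
    rw [Real.sqrt_eq_rpow, Real.rpow_def_of_pos hy0]
    congr 1
    ring
  rw [← h8]
  refine le_trans ?_ h7
  have h9 : 10000 ≤ Real.log y := by
    have : (1000 : ℝ) ^ 2 ≤ t ^ 2 := by gcongr
    linarith
  have h10 : (Real.log y / 2) ^ 5 / 120 = (Real.log y) ^ 2 * ((Real.log y) ^ 3 / 3840) := by ring
  rw [h10]
  have h11 : 1 ≤ (Real.log y) ^ 3 / 3840 := by
    rw [le_div_iff₀ (by norm_num)]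
    have : (10000 : ℝ) ^ 3 ≤ (Real.log y) ^ 3 := by gcongr
    linarith
  nlinarith [sq_nonneg (Real.log y)]

/-- the number of good `m ≤ L` -/
theorem card_good : ∃ y₀ : ℝ, ∀ y : ℝ, y₀ ≤ y → Big y → ∀ L : ℕ, Real.sqrt y ≤ L →
    (L : ℝ) ≤ y * (Real.log y) ^ 2 →
    ((Good y L).card : ℝ) ≤ 11 * L / Real.log y := by
  obtain ⟨y₁, hsm⟩ := smooth_count
  refine ⟨max 2 (y₁ ^ 2 + 4), fun y hy hB L hL1 hL2 => ?_⟩
  obtain ⟨B1, B2, B3, B4, B5, B6, B7, hy0⟩ := hB
  have hy2 : y₁ ^ 2 + 4 ≤ y := (le_max_right _ _).trans hy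
  set t := Real.log (Real.log y) with ht
  have hly : 0 < Real.log y := by linarith
  have ht0 : 0 < t := by linarith
  have hlt0 : 0 < Real.log t := by linarith
  have hs : y₁ ≤ Real.sqrt y := by
    apply Real.le_sqrt_of_sq_le
    linarith
  have hs2 : 2 ≤ Real.sqrt y := by
    apply Real.le_sqrt_of_sq_le
    nlinarith [sq_nonneg y₁]
  have hs0 : 0 < Real.sqrt y := by linarith
  have hL2' : 2 ≤ L := by
    have : (2 : ℝ) ≤ L := by linarith
    exact_mod_cast this
  have hL0 : (0 : ℝ) < L := by linarith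
  -- the comparison point
  set y' : ℝ := min (L : ℝ) y with hy'
  have hy'1 : Real.sqrt y ≤ y' := by
    rw [hy', le_min_iff]
    refine ⟨hL1, ?_⟩
    rw [Real.sqrt_le_left hy0.le]
    nlinarith [sq_nonneg y₁]
  have hy'2 : y' ≤ L := min_le_left _ _
  have hy'3 : y' ≤ y := min_le_right _ _
  have hy'0 : 0 < y' := by linarith
  have hsm' := hsm y' (hs.trans hy'1) L hy'2
  have hlog' : Real.log y / 2 ≤ Real.log y' := by
    have h1 := Real.log_le_log hs0 hy'1
    rw [Real.log_sqrt hy0.le] at h1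
    exact h1
  have hlog'' : Real.log y' ≤ Real.log y := Real.log_le_log hy'0 hy'3
  have hl' : 0 < Real.log y' := by linarith
  have hloglog' : t - 1 ≤ Real.log (Real.log y') := by
    have h1 := Real.log_le_log (by linarith) hlog'
    rw [Real.log_div hly.ne' (by norm_num)] at h1
    have := Real.log_two_lt_d9
    linarith
  have hloglog'' : Real.log (Real.log y') ≤ t := Real.log_le_log hl' hlog''
  have ht2 : 4 ≤ t := by
    have : Real.log t ≤ t / 2 := by
      have h1 := Real.log_le_sub_one_of_pos (show (0 : ℝ) < t / 2 by linarith)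
      rw [Real.log_div ht0.ne' (by norm_num)] at h1
      have := Real.log_two_lt_d9
      linarith
    linarith
  have hlll : Real.log t / 2 ≤ Real.log (Real.log (Real.log y')) := by
    have h1 : Real.log (t / 2) ≤ Real.log (Real.log (Real.log y')) := by
      apply Real.log_le_log (by linarith)
      linarith
    rw [Real.log_div ht0.ne' (by norm_num)] at h1
    have := Real.log_two_lt_d9
    linarith
  have hthr : VV y ≤ Real.log y' * Real.log (Real.log (Real.log y')) /
      (10 * Real.log (Real.log y')) := by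
    rw [VV, ← ht]
    have h1 : 0 < Real.log (Real.log y') := by linarith
    rw [div_le_div_iff₀ (by positivity) (by positivity)]
    calc Real.log y * Real.log t * (10 * Real.log (Real.log y'))
        ≤ Real.log y * Real.log t * (10 * t) := by gcongr
      _ = (Real.log y / 2) * (Real.log t / 2) * (40 * t) := by ring
      _ ≤ _ := by gcongr
  -- the decomposition
  have hsub : Good y L ⊆ (if y ≤ L then (Icc 1 L).filter Nat.Prime else ∅) ∪
      (Finset.Icc 1 L).filter (fun m => ∀ p : ℕ, p.Prime → p ∣ m →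
      Real.log p ≤ Real.log y' * Real.log (Real.log (Real.log y')) /
      (10 * Real.log (Real.log y'))) := by
    intro m hm
    rw [Good, mem_filter] at hm
    obtain ⟨hmI, hfac⟩ := hm
    rw [mem_Icc] at hmI
    rw [mem_union]
    by_cases hall : ∀ p : ℕ, p.Prime → p ∣ m → p ∈ SS y
    · right
      rw [mem_filter, mem_Icc]
      exact ⟨hmI, fun p hp hd => ((mem_SS hp).1 (hall p hp hd)).2.trans hthr⟩
    · left
      push Not at hall
      obtain ⟨p, hp, hd, hpS⟩ := hall
      have hpy : y < p := (hfac p hp hd).resolve_right hpS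
      have hpL : p ≤ L := (Nat.le_of_dvd (by omega) hd).trans hmI.2
      have hyL : y ≤ L := by
        have : (p : ℝ) ≤ L := by exact_mod_cast hpL
        linarith
      rw [if_pos hyL]
      obtain ⟨m', rfl⟩ := hd
      have hm'1 : m' = 1 := by
        by_contra hne
        have hm'0 : m' ≠ 0 := by rintro rfl; simp at hmI
        obtain ⟨q, hq, hqd⟩ := Nat.exists_prime_and_dvd hne
        have hqle : q ≤ m' := Nat.le_of_dvd (Nat.pos_of_ne_zero hm'0) hqd
        have hm'le : (m' : ℝ) < (Real.log y) ^ 2 := by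
          have h7 : (p : ℝ) * m' ≤ L := by exact_mod_cast hmI.2
          have h8 : (0 : ℝ) < m' := by exact_mod_cast Nat.pos_of_ne_zero hm'0
          have h9 : y * m' < y * (Real.log y) ^ 2 := by
            calc y * m' < p * m' := by gcongr
              _ ≤ L := h7
              _ ≤ _ := hL2
          exact lt_of_mul_lt_mul_left h9 hy0.le
        have hqv : (q : ℝ) < (Real.log y) ^ 2 := lt_of_le_of_lt (by exact_mod_cast hqle) hm'le
        rcases hfac q hq (hqd.mul_left p) with h | h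
        · have h10 : (Real.log y) ^ 2 ≤ y := B7.trans (by
            rw [Real.sqrt_le_left hy0.le]
            nlinarith [sq_nonneg y₁])
          linarith
        · have := ((mem_SS hq).1 h).1; linarith
      rw [hm'1, mul_one, mem_filter, mem_Icc]
      rw [hm'1, mul_one] at hmI
      exact ⟨hmI, hp⟩
  have h1 : (Good y L).card ≤ (if y ≤ L then (Icc 1 L).filter Nat.Prime else ∅ : Finset ℕ).card +
      ((Finset.Icc 1 L).filter (fun m => ∀ p : ℕ, p.Prime → p ∣ m →
      Real.log p ≤ Real.log y' * Real.log (Real.log (Real.log y')) /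
      (10 * Real.log (Real.log y')))).card := (card_le_card hsub).trans (card_union_le _ _)
  have h2 : ((Good y L).card : ℝ) ≤
      (((if y ≤ L then (Icc 1 L).filter Nat.Prime else ∅ : Finset ℕ).card : ℕ) : ℝ) +
      (((Finset.Icc 1 L).filter (fun m => ∀ p : ℕ, p.Prime → p ∣ m →
      Real.log p ≤ Real.log y' * Real.log (Real.log (Real.log y')) /
      (10 * Real.log (Real.log y')))).card : ℝ) := by exact_mod_cast h1
  have h3 : (((if y ≤ L then (Icc 1 L).filter Nat.Prime else ∅ : Finset ℕ).card : ℕ) : ℝ) ≤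
      10 * L / Real.log y := by
    split_ifs with hyL
    · refine (primes_le L hL2').trans ?_
      apply div_le_div_of_nonneg_left (by positivity) hly
      exact Real.log_le_log hy0 hyL
    · simp only [card_empty, Nat.cast_zero]
      positivity
  have h4 : (L : ℝ) / (Real.log y') ^ 3 ≤ L / Real.log y := by
    apply div_le_div_of_nonneg_left hL0.le hly
    calc Real.log y ≤ (Real.log y / 2) ^ 3 := by nlinarith [sq_nonneg (Real.log y)]
      _ ≤ (Real.log y') ^ 3 := by gcongr
  have h5 : 11 * (L : ℝ) / Real.log y = 10 * L / Real.log y + L / Real.log y := by ring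
  linarith

/-- the product over the random primes -/
theorem prod_SS : ∃ C : ℝ, 0 < C ∧ ∀ y : ℝ, Big y →
    ∏ p ∈ SS y, (1 - 1 / (p : ℝ)) ≤
      C * ((Real.log (Real.log y)) ^ 2 / (Real.log y * Real.log (Real.log (Real.log y)))) := by
  obtain ⟨c₁, c₂, hc₁, hc₁₂, hV⟩ := cz_bounds
  have hc₂ : 0 < c₂ := hc₁.trans_le hc₁₂
  refine ⟨c₂ / c₁ * 160, by positivity, fun y hB => ?_⟩
  obtain ⟨B1, B2, B3, B4, B5, B6, B7, hy0⟩ := hB
  set t := Real.log (Real.log y) with ht
  have hly : 0 < Real.log y := by linarith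
  have ht0 : 0 < t := by linarith
  have hlt0 : 0 < Real.log t := by linarith
  have hLe : Real.log y = Real.exp t := by rw [ht, Real.exp_log hly]
  set V0 := VV y with hV0
  have hV0e : V0 = Real.log y * Real.log t / (40 * t) := by rw [hV0, VV]
  have hV1 : 2 * t ≤ V0 := by
    rw [hV0e, le_div_iff₀ (by positivity)]
    nlinarith
  set v₀ : ℝ := (Real.log y) ^ 2 with hv₀
  have hv₀e : v₀ = Real.exp (2 * t) := by
    rw [hv₀, hLe, ← Real.exp_nat_mul]; push_cast; ring_nf
  have hv₀0 : 0 < v₀ := by positivity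
  have hv₀big : 10000 ≤ v₀ := by rw [hv₀]; nlinarith
  set u : ℕ := ⌊v₀⌋₊ with hu
  set v : ℕ := ⌊Real.exp V0⌋₊ with hv
  have huv : u ≤ v := by
    rw [hu, hv]; apply Nat.floor_le_floor; rw [hv₀e]; exact Real.exp_le_exp.2 hV1
  have hu2 : 2 ≤ u := by
    rw [hu, Nat.le_floor_iff hv₀0.le]; push_cast; linarith
  have hvle : (v : ℝ) ≤ Real.exp V0 := Nat.floor_le (Real.exp_pos _).le
  have hule : (u : ℝ) ≤ v₀ := Nat.floor_le hv₀0.le
  have hv0 : (0 : ℝ) < v := by exact_mod_cast (by omega : 0 < v)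
  have hu0 : (0 : ℝ) < u := by exact_mod_cast (by omega : 0 < u)
  have hlu : Real.log u ≤ 2 * t := by
    rw [← Real.log_exp (2 * t), ← hv₀e]; exact Real.log_le_log hu0 hule
  have hlu0 : 0 < Real.log u := Real.log_pos (by exact_mod_cast (by omega : 1 < u))
  have hlv0 : 0 < Real.log v := Real.log_pos (by exact_mod_cast (by omega : 1 < v))
  have hlv : V0 / 2 ≤ Real.log v := by
    have h7 : Real.exp V0 < v + 1 := Nat.lt_floor_add_one _
    have h8 : (2 : ℝ) ≤ v := by exact_mod_cast (by omega : 2 ≤ v)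
    have h9 : Real.exp V0 ≤ (v : ℝ) ^ 2 := by nlinarith
    have h10 := Real.log_le_log (Real.exp_pos _) h9
    rw [Real.log_exp, Real.log_pow] at h10
    push_cast at h10; linarith
  have hPv : V v = V u * ∏ p ∈ SS y, (1 - 1 / (p : ℝ)) := by
    have h7 : Pz v = Pz u ∪ SS y := by
      ext p
      rw [mem_union, mem_Pz, mem_Pz, SS, mem_filter, mem_Icc, hu, Nat.le_floor_iff hv₀0.le]
      constructor
      · rintro ⟨hp, hpv⟩
        by_cases h : (p : ℝ) ≤ v₀
        · exact Or.inl ⟨hp, h⟩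
        · exact Or.inr ⟨⟨hp.pos, hpv⟩, hp, not_le.1 h⟩
      · rintro (⟨hp, hpu⟩ | ⟨⟨_, hpv⟩, hp, _⟩)
        · refine ⟨hp, ?_⟩
          have : p ≤ u := by rw [hu, Nat.le_floor_iff hv₀0.le]; exact hpu
          omega
        · exact ⟨hp, hpv⟩
    have h8 : Disjoint (Pz u) (SS y) := by
      rw [Finset.disjoint_left]
      intro p hp hpS
      have h9 := (mem_Pz.1 hp).2
      rw [hu, Nat.le_floor_iff hv₀0.le] at h9
      have := ((mem_SS (mem_Pz.1 hp).1).1 hpS).1
      linarith
    unfold V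
    rw [h7, prod_union h8]
  have hSprod0 : 0 ≤ ∏ p ∈ SS y, (1 - 1 / (p : ℝ)) :=
    prod_nonneg fun p hp => (one_sub_inv_pos (mem_filter.1 hp).2.1).le
  have h7 := (hV v (by omega)).2
  have h8 := (hV u hu2).1
  rw [hPv] at h7
  have hVu := V_pos u
  have hV0pos : 0 < V0 := by linarith
  have hV02 : 0 ≤ V0 / 2 := by linarith
  have h9 : c₁ * (∏ p ∈ SS y, (1 - 1 / (p : ℝ))) * (V0 / 2) ≤ c₂ * (2 * t) := by
    calc c₁ * (∏ p ∈ SS y, (1 - 1 / (p : ℝ))) * (V0 / 2)
        ≤ (V u * Real.log u) * (∏ p ∈ SS y, (1 - 1 / (p : ℝ))) * Real.log v := by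
          gcongr
      _ = (V u * (∏ p ∈ SS y, (1 - 1 / (p : ℝ))) * Real.log v) * Real.log u := by ring
      _ ≤ c₂ * Real.log u := by gcongr
      _ ≤ _ := by gcongr
  have h10 : ∏ p ∈ SS y, (1 - 1 / (p : ℝ)) ≤ c₂ * (2 * t) / (c₁ * (V0 / 2)) := by
    rw [le_div_iff₀ (by positivity)]
    linarith
  refine h10.trans (le_of_eq ?_)
  rw [hV0e]
  field_simp
  ring

end Pool.Agent.H341R2.DG
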