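import Pool.Agent.H341R2.DG2
import Pool.Agent.H256R2.SC.G1

set_option autoImplicit false
set_option maxHeartbeats 4000000

/-! # Survivors in the rectangle `1 ≤ j ≤ J`, `|k| ≤ K` -/

namespace Pool.Agent.H341R2.DG

open Finset Filter Pool.Agent.H318R2.Cr Pool.Agent.H398R2.RK

open scoped Classical

/-- primitive pairs -/
noncomputable def Rect (J K : ℕ) : Finset (ℕ × ℤ) :=
  ((Icc 1 J) ×ˢ (Icc (-(K : ℤ)) K)).filter (fun x => Nat.gcd x.1 x.2.natAbs = 1)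

/-- survivors of the classes `b p` modulo the primes `p ≤ y` -/
noncomputable def Surv (y : ℝ) (b : ℕ → ℕ) (R : Finset (ℕ × ℤ)) : Finset (ℕ × ℤ) :=
  R.filter (fun x => ∀ p : ℕ, p.Prime → (p : ℝ) ≤ y → ¬ (p : ℤ) ∣ (x.1 : ℤ) * b p + x.2)

theorem mem_Rect {J K : ℕ} {x : ℕ × ℤ} : x ∈ Rect J K ↔
    (1 ≤ x.1 ∧ x.1 ≤ J) ∧ (-(K : ℤ) ≤ x.2 ∧ x.2 ≤ K) ∧ Nat.gcd x.1 x.2.natAbs = 1 := by
  rw [Rect, mem_filter, mem_product, mem_Icc, mem_Icc]
  tauto

theorem hit_exists (p : ℕ) (x : ℕ × ℤ) (h : p.Prime ∧ ¬ p ∣ x.1 * x.2.natAbs) :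
    ∃ c : ℕ, 1 ≤ c ∧ c < p ∧ (p : ℤ) ∣ (x.1 : ℤ) * c + x.2 := by
  obtain ⟨hp, hnd⟩ := h
  have h1 : ¬ p ∣ x.1 := fun h => hnd (h.mul_right _)
  have h2 : ¬ p ∣ x.2.natAbs := fun h => hnd (h.mul_left _)
  obtain ⟨i, hi⟩ := Pool.Agent.H256R2.SC.LG.inv_exists hp h1
  have hp0 : (0 : ℤ) < p := by exact_mod_cast hp.pos
  set d : ℤ := (-x.2 * i) % p with hd
  have hd0 : 0 ≤ d := Int.emod_nonneg _ hp0.ne'
  have hdp : d < p := Int.emod_lt_of_pos _ hp0
  have hdd : (p : ℤ) ∣ -x.2 * i - d := Int.dvd_self_sub_emod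
  obtain ⟨c, hc⟩ := Int.eq_ofNat_of_zero_le hd0
  have hkey : (p : ℤ) ∣ (x.1 : ℤ) * c + x.2 := by
    have e1 : (p : ℤ) ∣ (x.1 : ℤ) * (-x.2 * i - d) := hdd.mul_left _
    have e2 : (p : ℤ) ∣ x.2 * ((x.1 : ℤ) * i - 1) := hi.mul_left _
    have e3 := dvd_add e1 e2
    have e4 : (x.1 : ℤ) * (-x.2 * i - d) + x.2 * ((x.1 : ℤ) * i - 1) =
        -((x.1 : ℤ) * c + x.2) := by
      rw [hc]; ring
    rw [e4] at e3
    exact (dvd_neg).1 e3
  refine ⟨c, ?_, ?_, hkey⟩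
  · rcases Nat.eq_zero_or_pos c with h0 | h0
    · exfalso
      rw [h0] at hkey
      simp only [Nat.cast_zero, mul_zero, zero_add] at hkey
      exact h2 (Int.natCast_dvd.1 hkey)
    · exact h0
  · have : (c : ℤ) < p := by rw [← hc]; exact hdp
    exact_mod_cast this

/-- the random step -/
theorem rand_step : ∃ C : ℝ, 0 < C ∧ ∀ y : ℝ, Big y → ∀ R : Finset (ℕ × ℤ),
    (∀ x ∈ R, 1 ≤ x.1 ∧ x.2 ≠ 0 ∧ ((x.1 * x.2.natAbs : ℕ) : ℝ) ≤ y * (Real.log y) ^ 2) →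
    ∃ b : ℕ → ℕ, (∀ p ∈ SS y, 1 ≤ b p ∧ b p < p) ∧
      ((R.filter (fun x => ∀ p ∈ SS y, ¬ (p : ℤ) ∣ (x.1 : ℤ) * b p + x.2)).card : ℝ) ≤
        R.card * (C * ((Real.log (Real.log y)) ^ 2 /
          (Real.log y * Real.log (Real.log (Real.log y))))) := by
  obtain ⟨C, hC, hprod⟩ := prod_SS
  refine ⟨3 * C, by positivity, fun y hB R hR => ?_⟩
  have hpr := hprod y hB
  obtain ⟨B1, B2, B3, B4, B5, B6, B7, hy0⟩ := hB
  have hSp : ∀ p ∈ SS y, p.Prime ∧ 3 ≤ p := by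
    intro p hp
    have hpp : p.Prime := (mem_filter.1 hp).2.1
    refine ⟨hpp, ?_⟩
    have h1 : (Real.log y) ^ 2 < (p : ℝ) := (mem_filter.1 hp).2.2
    have h2 : (3 : ℝ) < p := by nlinarith
    have h3 : 3 < p := by exact_mod_cast h2
    omega
  have hSv : ∀ p ∈ SS y, (Real.log y) ^ 2 < (p : ℝ) := fun p hp => (mem_filter.1 hp).2.2
  obtain ⟨b, hb, hbc⟩ := greedy_abs (fun p c (x : ℕ × ℤ) => (p : ℤ) ∣ (x.1 : ℤ) * c + x.2)
    (fun p x => p.Prime ∧ ¬ p ∣ x.1 * x.2.natAbs) (fun p x h => hit_exists p x h) (SS y)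
    (fun p hp => (hSp p hp).2) R
  refine ⟨b, hb, ?_⟩
  have hbc' : ((R.filter (fun x => ∀ p ∈ SS y, ¬ (p : ℤ) ∣ (x.1 : ℤ) * b p + x.2)).card : ℝ) ≤
      ∑ x ∈ R, ∏ p ∈ (SS y).filter (fun p => p.Prime ∧ ¬ p ∣ x.1 * x.2.natAbs),
        (1 - 1 / ((p : ℝ) - 1)) := by
    convert hbc
  refine hbc'.trans ?_
  set t := Real.log (Real.log y) with ht
  have hly : 0 < Real.log y := by linarith
  set v₀ : ℝ := (Real.log y) ^ 2 with hv₀
  have hv₀0 : 0 < v₀ := by positivity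
  have hSprod0 : 0 ≤ ∏ p ∈ SS y, (1 - 1 / (p : ℝ)) :=
    prod_nonneg fun p hp => (one_sub_inv_pos (hSp p hp).1).le
  have hexp : ∀ x ∈ R, Real.exp (4 * Real.log ((x.1 * x.2.natAbs : ℕ) : ℝ) / v₀) ≤ 3 := by
    intro x hx
    obtain ⟨hx1, hx2, hx3⟩ := hR x hx
    have hm1 : 1 ≤ x.1 * x.2.natAbs := Nat.mul_pos hx1 (Int.natAbs_pos.2 hx2)
    have hk0 : (0 : ℝ) < ((x.1 * x.2.natAbs : ℕ) : ℝ) := by exact_mod_cast hm1
    have h7 : Real.log ((x.1 * x.2.natAbs : ℕ) : ℝ) ≤ 3 * Real.log y := by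
      have h9 : Real.log ((x.1 * x.2.natAbs : ℕ) : ℝ) ≤ Real.log (y * (Real.log y) ^ 2) :=
        Real.log_le_log hk0 hx3
      rw [Real.log_mul hy0.ne' (by positivity), Real.log_pow, ← ht] at h9
      have h10 : t ≤ Real.log y := by
        have := Real.log_le_sub_one_of_pos hly
        linarith
      push_cast at h9 ⊢
      linarith
    have h8 : 4 * Real.log ((x.1 * x.2.natAbs : ℕ) : ℝ) / v₀ ≤ 1 := by
      rw [div_le_one hv₀0, hv₀]
      nlinarith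
    calc Real.exp (4 * Real.log ((x.1 * x.2.natAbs : ℕ) : ℝ) / v₀) ≤ Real.exp 1 :=
          Real.exp_le_exp.2 h8
      _ ≤ 3 := by have := Real.exp_one_lt_d9; linarith
  calc ∑ x ∈ R, ∏ p ∈ (SS y).filter (fun p => p.Prime ∧ ¬ p ∣ x.1 * x.2.natAbs),
        (1 - 1 / ((p : ℝ) - 1))
      ≤ ∑ x ∈ R, (∏ p ∈ SS y, (1 - 1 / (p : ℝ))) * 3 := by
        apply sum_le_sum
        intro x hx
        obtain ⟨hx1, hx2, hx3⟩ := hR x hx
        have hm1 : 1 ≤ x.1 * x.2.natAbs := Nat.mul_pos hx1 (Int.natAbs_pos.2 hx2)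
        have e1 : (SS y).filter (fun p => p.Prime ∧ ¬ p ∣ x.1 * x.2.natAbs) =
            (SS y).filter (fun p => ¬ p ∣ x.1 * x.2.natAbs) := by
          apply filter_congr
          intro p hp
          exact ⟨fun h => h.2, fun h => ⟨(hSp p hp).1, h⟩⟩
        rw [e1]
        refine (prod_one_sub (SS y) hSp _ hm1 v₀ hv₀0 hSv).trans
          (mul_le_mul_of_nonneg_left (hexp x hx) hSprod0)
    _ = R.card * ((∏ p ∈ SS y, (1 - 1 / (p : ℝ))) * 3) := by rw [sum_const, nsmul_eq_mul]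
    _ ≤ R.card * ((C * (t ^ 2 / (Real.log y * Real.log t))) * 3) := by
        gcongr
    _ = _ := by ring

/-- the pairs left by the classes `b₀ p` modulo the primes outside `SS y` -/
noncomputable def R1 (y : ℝ) (J K : ℕ) (b₀ : ℕ → ℕ) : Finset (ℕ × ℤ) :=
  ((Rect J K).erase (1, 0)).filter (fun x => ∀ p : ℕ, p.Prime → (p : ℝ) ≤ y → p ∉ SS y →
    ¬ (p : ℤ) ∣ (x.1 : ℤ) * b₀ p + x.2)

theorem R1_ne {y : ℝ} {J K : ℕ} {b₀ : ℕ → ℕ} {x : ℕ × ℤ} (hx : x ∈ R1 y J K b₀) : x.2 ≠ 0 := by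
  intro h0
  rw [R1, mem_filter, mem_erase, mem_Rect] at hx
  obtain ⟨⟨h1, h2, h3, h4⟩, -⟩ := hx
  rw [h0] at h4
  simp only [Int.natAbs_zero, Nat.gcd_zero_right] at h4
  exact h1 (Prod.ext h4 h0)

theorem card_pm (G : Finset ℕ) :
    ((G.image (fun m : ℕ => (m : ℤ))) ∪ (G.image (fun m : ℕ => -(m : ℤ)))).card ≤ 2 * G.card := by
  refine (card_union_le _ _).trans ?_
  have h1 : (G.image (fun m : ℕ => (m : ℤ))).card ≤ G.card := card_image_le
  have h2 : (G.image (fun m : ℕ => -(m : ℤ))).card ≤ G.card := card_image_le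
  omega

theorem mem_pm {G : Finset ℕ} {d : ℤ} (h : d.natAbs ∈ G) :
    d ∈ (G.image (fun m : ℕ => (m : ℤ))) ∪ (G.image (fun m : ℕ => -(m : ℤ))) := by
  rw [mem_union, mem_image, mem_image]
  rcases Int.natAbs_eq d with h1 | h1
  · left; exact ⟨d.natAbs, h, h1.symm⟩
  · right; exact ⟨d.natAbs, h, h1.symm⟩

/-- tall rectangles: class `0` -/
theorem case1 {y : ℝ} (J K : ℕ)
    (hG : ((Good y K).card : ℝ) ≤ 11 * K / Real.log y) :
    ((R1 y J K (fun _ => 0)).card : ℝ) ≤ 22 * (J * K / Real.log y) := by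
  have hsub : R1 y J K (fun _ => 0) ⊆ (Icc 1 J) ×ˢ
      (((Good y K).image (fun m : ℕ => (m : ℤ))) ∪ ((Good y K).image (fun m : ℕ => -(m : ℤ)))) := by
    intro x hx
    have hx0 := R1_ne hx
    rw [R1, mem_filter, mem_erase, mem_Rect] at hx
    obtain ⟨⟨h1, h2, h3, h4⟩, h5⟩ := hx
    rw [mem_product, mem_Icc]
    refine ⟨h2, mem_pm ?_⟩
    rw [Good, mem_filter, mem_Icc]
    refine ⟨⟨Int.natAbs_pos.2 hx0, by omega⟩, fun p hp hd => ?_⟩
    by_contra hcon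
    push Not at hcon
    apply h5 p hp hcon.1 hcon.2
    simp only [Nat.cast_zero, mul_zero, zero_add]
    exact Int.natCast_dvd.2 hd
  have h1 : (R1 y J K (fun _ => 0)).card ≤ J * (2 * (Good y K).card) := by
    refine (card_le_card hsub).trans ?_
    rw [card_product, Nat.card_Icc, Nat.add_sub_cancel]
    exact Nat.mul_le_mul_left _ (card_pm _)
  have h2 : ((R1 y J K (fun _ => 0)).card : ℝ) ≤ J * (2 * (Good y K).card) := by
    exact_mod_cast h1
  refine h2.trans ?_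
  calc (J : ℝ) * (2 * (Good y K).card) ≤ J * (2 * (11 * K / Real.log y)) := by gcongr
    _ = _ := by ring

/-- long rectangles: class `-1` -/
theorem case2 {y : ℝ} (hB : Big y) (J K : ℕ) (hK1 : 1 ≤ K) (hKJ : K ≤ J)
    (hG : ((Good y (2 * J)).card : ℝ) ≤ 11 * ((2 * J : ℕ) : ℝ) / Real.log y) (hy2 : 2 ≤ y) :
    ((R1 y J K (fun p => p - 1)).card : ℝ) ≤ 132 * (J * K / Real.log y) := by
  obtain ⟨B1, B2, B3, B4, B5, B6, B7, hy0⟩ := hB
  have h2S : 2 ∉ SS y := by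
    intro h
    have := ((mem_SS Nat.prime_two).1 h).1
    push_cast at this
    nlinarith
  have hsub : R1 y J K (fun p => p - 1) ⊆ ((Icc (-(K : ℤ)) K) ×ˢ
      (((Good y (2 * J)).image (fun m : ℕ => (m : ℤ))) ∪
        ((Good y (2 * J)).image (fun m : ℕ => -(m : ℤ))))).image
        (fun w : ℤ × ℤ => ((w.1 - w.2).toNat, w.1)) := by
    intro x hx
    rw [R1, mem_filter, mem_erase, mem_Rect] at hx
    obtain ⟨⟨h1, h2, h3, h4⟩, h5⟩ := hx
    rw [mem_image]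
    refine ⟨(x.2, x.2 - x.1), ?_, ?_⟩
    · rw [mem_product, mem_Icc]
      refine ⟨h3, mem_pm ?_⟩
      have hdiv : ∀ p : ℕ, p.Prime → (p : ℤ) ∣ x.2 - x.1 → (y < p ∨ p ∈ SS y) := by
        intro p hp hd
        by_contra hcon
        push Not at hcon
        apply h5 p hp hcon.1 hcon.2
        have e1 : ((p - 1 : ℕ) : ℤ) = (p : ℤ) - 1 := by
          rw [Nat.cast_sub hp.one_lt.le]; simp
        simp only [e1]
        have e2 : (x.1 : ℤ) * ((p : ℤ) - 1) + x.2 = (p : ℤ) * x.1 + (x.2 - x.1) := by ring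
        rw [e2]
        exact dvd_add (dvd_mul_right _ _) hd
      have hne : x.2 - x.1 ≠ 0 := by
        intro h0
        rcases hdiv 2 Nat.prime_two (by rw [h0]; exact dvd_zero _) with h | h
        · push_cast at h; linarith
        · exact h2S h
      rw [Good, mem_filter, mem_Icc]
      refine ⟨⟨Int.natAbs_pos.2 hne, ?_⟩, fun p hp hd => hdiv p hp (Int.natCast_dvd.2 hd)⟩
      simp only
      omega
    · apply Prod.ext
      · simp
      · rfl
  have h1 : (R1 y J K (fun p => p - 1)).card ≤ (2 * K + 1) * (2 * (Good y (2 * J)).card) := by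
    refine (card_le_card hsub).trans (card_image_le.trans ?_)
    rw [card_product, Int.card_Icc]
    have e : ((K : ℤ) + 1 - -(K : ℤ)).toNat = 2 * K + 1 := by omega
    rw [e]
    exact Nat.mul_le_mul_left _ (card_pm _)
  have h2 : ((R1 y J K (fun p => p - 1)).card : ℝ) ≤
      (2 * K + 1) * (2 * (Good y (2 * J)).card) := by
    exact_mod_cast h1
  refine h2.trans ?_
  have hK1' : (1 : ℝ) ≤ K := by exact_mod_cast hK1
  calc (2 * (K : ℝ) + 1) * (2 * (Good y (2 * J)).card)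
      ≤ (3 * K) * (2 * (11 * ((2 * J : ℕ) : ℝ) / Real.log y)) := by
        gcongr
        linarith
    _ = _ := by push_cast; ring

/-- small rectangles -/
theorem case3 {y : ℝ} (J K : ℕ) (hK1 : 1 ≤ K) (hJK : (J : ℝ) * K ≤ y) (b₀ : ℕ → ℕ) :
    ((R1 y J K b₀).card : ℝ) ≤ 3 * y := by
  have hsub : R1 y J K b₀ ⊆ (Icc 1 J) ×ˢ (Icc (-(K : ℤ)) K) := by
    intro x hx
    rw [R1, mem_filter, mem_erase, mem_Rect] at hx
    obtain ⟨⟨h1, h2, h3, h4⟩, h5⟩ := hx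
    rw [mem_product, mem_Icc, mem_Icc]
    exact ⟨h2, h3⟩
  have h1 := card_le_card hsub
  rw [card_product, Nat.card_Icc, Int.card_Icc] at h1
  have e : ((K : ℤ) + 1 - -(K : ℤ)).toNat = 2 * K + 1 := by omega
  rw [e, Nat.add_sub_cancel] at h1
  have h2 : ((R1 y J K b₀).card : ℝ) ≤ J * (2 * K + 1) := by exact_mod_cast h1
  have hK1' : (1 : ℝ) ≤ K := by exact_mod_cast hK1
  have hJ0 : (0 : ℝ) ≤ J := by positivity
  nlinarith

theorem survivors_rect : ∃ C : ℝ, 0 < C ∧ ∃ y₀ : ℝ, ∀ y : ℝ, y₀ ≤ y → ∀ J K : ℕ, 1 ≤ J → 1 ≤ K →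
    2 * ((J : ℝ) * K) ≤ y * (Real.log y) ^ 2 →
    ∃ b : ℕ → ℕ, ((Surv y b (Rect J K)).card : ℝ) ≤
      (J * K / Real.log y + y) * (C * ((Real.log (Real.log y)) ^ 2 /
          (Real.log y * Real.log (Real.log (Real.log y))))) + 1 := by
  obtain ⟨C, hC, hrand⟩ := rand_step
  obtain ⟨y₁, hbig⟩ := big
  obtain ⟨y₂, hgood⟩ := card_good
  refine ⟨132 * C, by positivity, max (max y₁ y₂) 2, fun y hy J K hJ1 hK1 hJK => ?_⟩
  have hB : Big y := hbig y (((le_max_left _ _).trans (le_max_left _ _)).trans hy)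
  have hgy := hgood y (((le_max_right _ _).trans (le_max_left _ _)).trans hy) hB
  have hy2 : 2 ≤ y := (le_max_right _ _).trans hy
  have hB' := hB
  obtain ⟨B1, B2, B3, B4, B5, B6, B7, hy0⟩ := hB'
  have hJ1' : (1 : ℝ) ≤ J := by exact_mod_cast hJ1
  have hK1' : (1 : ℝ) ≤ K := by exact_mod_cast hK1
  have hly : 0 < Real.log y := by linarith
  have hsq : Real.sqrt y * Real.sqrt y = y := Real.mul_self_sqrt hy0.le
  have hsq0 : 0 < Real.sqrt y := Real.sqrt_pos.2 hy0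
  have hJKl : 0 ≤ (J : ℝ) * K / Real.log y := by positivity
  -- the first step
  have hstep : ∃ b₀ : ℕ → ℕ, ((R1 y J K b₀).card : ℝ) ≤ 132 * (J * K / Real.log y + y) := by
    by_cases hc1 : Real.sqrt y ≤ K
    · refine ⟨fun _ => 0, ?_⟩
      have hKy : (K : ℝ) ≤ y * (Real.log y) ^ 2 := by nlinarith
      have := case1 J K (hgy K hc1 hKy)
      linarith
    · push Not at hc1
      by_cases hc2 : Real.sqrt y ≤ J
      · refine ⟨fun p => p - 1, ?_⟩
        have hKJ : K ≤ J := by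
          have : (K : ℝ) ≤ J := by linarith
          exact_mod_cast this
        have h2J : ((2 * J : ℕ) : ℝ) ≤ y * (Real.log y) ^ 2 := by push_cast; nlinarith
        have h2J' : Real.sqrt y ≤ ((2 * J : ℕ) : ℝ) := by push_cast; linarith
        have := case2 hB J K hK1 hKJ (hgy (2 * J) h2J' h2J) hy2
        linarith
      · push Not at hc2
        refine ⟨fun _ => 0, ?_⟩
        have hJKy : (J : ℝ) * K ≤ y := by
          rw [← hsq]
          gcongr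
        have := case3 J K hK1 hJKy (fun _ => 0)
        linarith
  obtain ⟨b₀, hb₀⟩ := hstep
  obtain ⟨b, hb, hbc⟩ := hrand y hB (R1 y J K b₀) (by
    intro x hx
    have hx0 := R1_ne hx
    rw [R1, mem_filter, mem_erase, mem_Rect] at hx
    obtain ⟨⟨h1, h2, h3, h4⟩, h5⟩ := hx
    refine ⟨h2.1, hx0, ?_⟩
    have e1 : x.2.natAbs ≤ K := by omega
    have e2 : x.1 * x.2.natAbs ≤ J * K := Nat.mul_le_mul h2.2 e1
    have e3 : ((x.1 * x.2.natAbs : ℕ) : ℝ) ≤ J * K := by exact_mod_cast e2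
    nlinarith)
  refine ⟨fun p => if p ∈ SS y then b p else b₀ p, ?_⟩
  have hSy : ∀ p ∈ SS y, (p : ℝ) ≤ y := by
    intro p hp
    have hpp : p.Prime := (mem_filter.1 hp).2.1
    have hp0 : (0 : ℝ) < p := by exact_mod_cast hpp.pos
    have h7 := ((mem_SS hpp).1 hp).2
    rw [← Real.log_le_log_iff hp0 hy0]
    refine h7.trans ?_
    rw [VV, div_le_iff₀ (by linarith)]
    have h8 : Real.log (Real.log (Real.log y)) ≤ 40 * Real.log (Real.log y) := by linarith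
    exact mul_le_mul_of_nonneg_left h8 hly.le
  have hsub : Surv y (fun p => if p ∈ SS y then b p else b₀ p) (Rect J K) ⊆
      insert (1, 0) ((R1 y J K b₀).filter
        (fun x => ∀ p ∈ SS y, ¬ (p : ℤ) ∣ (x.1 : ℤ) * b p + x.2)) := by
    intro x hx
    rw [Surv, mem_filter] at hx
    rw [mem_insert]
    by_cases hx1 : x = (1, 0)
    · exact Or.inl hx1
    · right
      rw [mem_filter, R1, mem_filter, mem_erase]
      refine ⟨⟨⟨hx1, hx.1⟩, fun p hp hpy hpS => ?_⟩, fun p hpS => ?_⟩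
      · have := hx.2 p hp hpy
        rwa [if_neg hpS] at this
      · have := hx.2 p (mem_filter.1 hpS).2.1 (hSy p hpS)
        rwa [if_pos hpS] at this
  have h1 := (card_le_card hsub).trans (card_insert_le _ _)
  have h2 : ((Surv y (fun p => if p ∈ SS y then b p else b₀ p) (Rect J K)).card : ℝ) ≤
      (((R1 y J K b₀).filter
        (fun x => ∀ p ∈ SS y, ¬ (p : ℤ) ∣ (x.1 : ℤ) * b p + x.2)).card : ℝ) + 1 := by
    exact_mod_cast h1
  refine h2.trans ?_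
  have hq0 : 0 ≤ C * ((Real.log (Real.log y)) ^ 2 /
          (Real.log y * Real.log (Real.log (Real.log y)))) := by
    have : 0 < Real.log (Real.log (Real.log y)) := by linarith
    positivity
  have h3 := hbc.trans (mul_le_mul_of_nonneg_right hb₀ hq0)
  have h4 : 132 * (J * K / Real.log y + y) * (C * ((Real.log (Real.log y)) ^ 2 /
          (Real.log y * Real.log (Real.log (Real.log y))))) =
      (J * K / Real.log y + y) * (132 * C * ((Real.log (Real.log y)) ^ 2 /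
          (Real.log y * Real.log (Real.log (Real.log y))))) := by ring
  linarith

end Pool.Agent.H341R2.DG
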