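import Pool.Agent.H341R2.DG3

set_option autoImplicit false
set_option maxHeartbeats 4000000

/-! # From the survivors to a simultaneous gap behind `n, 2n, ..., Jn` -/

namespace Pool.Agent.H341R2.DG

open Finset Filter Pool.Agent.H256R2.SC Pool.Agent.H256R2.SC.LG

open scoped Classical

/-- two primitive pairs with the same slope are equal -/
theorem prim_eq {a a' : ℕ} {u u' : ℤ} (ha : 1 ≤ a) (ha' : 1 ≤ a')
    (h1 : Nat.gcd a u.natAbs = 1) (h2 : Nat.gcd a' u'.natAbs = 1)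
    (h : (a : ℤ) * u' = a' * u) : a = a' ∧ u = u' := by
  have h3 : a * u'.natAbs = a' * u.natAbs := by
    have := congrArg Int.natAbs h
    rw [Int.natAbs_mul, Int.natAbs_mul, Int.natAbs_natCast, Int.natAbs_natCast] at this
    exact this
  have h4 : a ∣ a' := by
    have h5 : a ∣ a' * u.natAbs := ⟨_, h3.symm⟩
    exact (Nat.Coprime.dvd_of_dvd_mul_right h1 h5)
  have h5 : a' ∣ a := by
    have h5 : a' ∣ a * u'.natAbs := ⟨_, h3⟩
    exact (Nat.Coprime.dvd_of_dvd_mul_right h2 h5)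
  have h6 : a = a' := Nat.dvd_antisymm h4 h5
  refine ⟨h6, ?_⟩
  subst h6
  have h7 : (a : ℤ) ≠ 0 := by positivity
  exact (mul_left_cancel₀ h7 h).symm

theorem mult_arith {c X y : ℝ} {J K : ℕ} (hcov : CovAt c X) (hX1 : 1 ≤ X) (hy0 : 0 ≤ y)
    (hyX : y ≤ (Real.log X) ^ 2) {b : ℕ → ℕ}
    (hU : ((Surv y b (Rect J K)).card : ℝ) ≤ c * Real.log X)
    (hJ : 1 ≤ J) (hK : 1 ≤ K)
    (hL : 2 * ((J : ℝ) * K) ≤ (Real.log X) ^ 2)
    (hlog : 0 ≤ 2 * Real.log X)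
    (hP : 4 * (primorial ⌊y⌋₊ : ℝ) ≤ X ^ (1 / 2 : ℝ)) (hX10 : 2 ≤ X ^ (1 / 10 : ℝ))
    (hX4 : X ^ (1 / 10 : ℝ) + (Real.log X) ^ 2 ≤ X / 4) (hy4 : y + (Real.log X) ^ 2 ≤ X / 4)
    (z : ℕ) :
    ∃ n : ℕ, z + X / 4 < n ∧ (n : ℝ) ≤ z + X / 2 + primorial ⌊y⌋₊ ∧
      ∀ j : ℕ, 1 ≤ j → j ≤ J → ∀ k : ℤ, -(K : ℤ) ≤ k → k ≤ K → ∀ p : ℕ, p.Prime →
        (p : ℤ) ≠ j * n + k := by
  classical
  have hJ' : (1 : ℝ) ≤ J := by exact_mod_cast hJ
  have hK' : (1 : ℝ) ≤ K := by exact_mod_cast hK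
  have hz0 : (0 : ℝ) ≤ z := by positivity
  set P : ℕ := primorial ⌊y⌋₊ with hPdef
  have hPpos : 0 < P := primorial_pos _
  have hPr : (0 : ℝ) < P := by exact_mod_cast hPpos
  obtain ⟨b0, hb0, hb0'⟩ := exists_crt ⌊y⌋₊ b
  have hfloor : ∀ p : ℕ, p ≤ ⌊y⌋₊ ↔ (p : ℝ) ≤ y := fun p => Nat.le_floor_iff hy0
  have hdvdP : ∀ p : ℕ, p.Prime → (p : ℝ) ≤ y → p ∣ P := fun p hp hpy =>
    (hp.dvd_primorial_iff).2 ((hfloor p).2 hpy)
  have hndvdP : ∀ p : ℕ, p.Prime → (Real.log X) ^ 2 < p → ¬ p ∣ P := by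
    intro p hp hpX h
    have := (hfloor p).1 ((hp.dvd_primorial_iff).1 h)
    linarith
  have hJlt : ∀ p : ℕ, (Real.log X) ^ 2 < p → 2 * (J * K) < p := by
    intro p hpX
    have : 2 * ((J : ℝ) * K) < p := lt_of_le_of_lt hL hpX
    exact_mod_cast this
  have hndvdj : ∀ p : ℕ, p.Prime → (Real.log X) ^ 2 < p → ∀ j : ℕ, 1 ≤ j → j ≤ J →
      ¬ p ∣ j * P := by
    intro p hp hpX j hj1 hjJ h
    rcases (hp.dvd_mul).1 h with h | h
    · have h1 := Nat.le_of_dvd (by omega) h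
      have h2 := hJlt p hpX
      have h3 : J * 1 ≤ J * K := Nat.mul_le_mul_left _ hK
      omega
    · exact hndvdP p hp hpX h
  -- inverses
  have hinv : ∀ p j : ℕ, ∃ i : ℤ, p.Prime → ¬ p ∣ j * P → (p : ℤ) ∣ ((j * P : ℕ) : ℤ) * i - 1 := by
    intro p j
    by_cases h : p.Prime ∧ ¬ p ∣ j * P
    · obtain ⟨i, hi⟩ := inv_exists h.1 h.2
      exact ⟨i, fun _ _ => hi⟩
    · exact ⟨0, fun h1 h2 => absurd ⟨h1, h2⟩ h⟩
  choose ip hip using hinv
  set U : Finset (ℕ × ℤ) := Surv y b (Rect J K) with hUdef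
  have hUmem : ∀ x ∈ U, (1 ≤ x.1 ∧ x.1 ≤ J) ∧ (-(K : ℤ) ≤ x.2 ∧ x.2 ≤ K) ∧
      Nat.gcd x.1 x.2.natAbs = 1 := by
    intro x hx
    rw [hUdef, Surv, mem_filter] at hx
    exact mem_Rect.1 hx.1
  set A : Finset ℤ := Ioc ⌊(z + X / 4) / P⌋ ⌊(z + X / 2) / P⌋ with hA
  have hlt : (z + X / 4) / P ≤ (z + X / 2) / P := by
    apply div_le_div_of_nonneg_right _ hPr.le
    linarith
  have hN : X ^ (1 / 2 : ℝ) ≤ X / (4 * P) := by
    rw [le_div_iff₀ (by positivity)]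
    calc X ^ (1 / 2 : ℝ) * (4 * P) ≤ X ^ (1 / 2 : ℝ) * X ^ (1 / 2 : ℝ) := by gcongr
      _ = X := by
        rw [← Real.rpow_add (by linarith)]
        norm_num
  obtain ⟨m, hmA, hm⟩ := hcov ∅ (by simpa using hlog) U (by simpa using hU)
    (fun p x => -(((x.1.1 : ℕ) : ℤ) * (b0 : ℤ) + x.1.2) * ip p x.1.1) (by
      intro p hp hp1 _ _ k l hkl hdvd
      obtain ⟨hk1, hk2, hk3⟩ := hUmem k.1 k.2
      obtain ⟨hl1, hl2, hl3⟩ := hUmem l.1 l.2
      have h1 := hip p k.1.1 hp (hndvdj p hp hp1 _ hk1.1 hk1.2)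
      have h1' := hip p l.1.1 hp (hndvdj p hp hp1 _ hl1.1 hl1.2)
      generalize ip p k.1.1 = i at *
      generalize ip p l.1.1 = i' at *
      have h2 : (p : ℤ) ∣ (P : ℤ) * ((k.1.1 : ℤ) * l.1.2 - l.1.1 * k.1.2) := by
        have h3 := hdvd.mul_left (((k.1.1 * P : ℕ) : ℤ) * ((l.1.1 * P : ℕ) : ℤ))
        have h4 := h1.mul_left ((((k.1.1 : ℕ) : ℤ) * (b0 : ℤ) + k.1.2) * ((l.1.1 * P : ℕ) : ℤ))
        have h5 := h1'.mul_left ((((l.1.1 : ℕ) : ℤ) * (b0 : ℤ) + l.1.2) * ((k.1.1 * P : ℕ) : ℤ))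
        have h6 := dvd_sub (dvd_add h3 h4) h5
        refine h6.trans (dvd_of_eq ?_)
        push_cast
        ring
      have hpP : ¬ (p : ℤ) ∣ (P : ℤ) := fun h => hndvdP p hp hp1 (Int.natCast_dvd_natCast.1 h)
      have h3 : (p : ℤ) ∣ (k.1.1 : ℤ) * l.1.2 - l.1.1 * k.1.2 :=
        ((Nat.prime_iff_prime_int.1 hp).dvd_or_dvd h2).resolve_left hpP
      have h4 : (k.1.1 : ℤ) * l.1.2 - l.1.1 * k.1.2 = 0 := by
        apply Int.eq_zero_of_abs_lt_dvd h3
        have hp2 := hJlt p hp1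
        have hp2' : 2 * ((J : ℤ) * K) < p := by exact_mod_cast hp2
        have e1 : |(k.1.1 : ℤ) * l.1.2| ≤ J * K := by
          rw [abs_mul]
          apply mul_le_mul _ (abs_le.2 hl2) (abs_nonneg _) (by positivity)
          rw [abs_of_nonneg (by positivity)]
          exact_mod_cast hk1.2
        have e2 : |(l.1.1 : ℤ) * k.1.2| ≤ J * K := by
          rw [abs_mul]
          apply mul_le_mul _ (abs_le.2 hk2) (abs_nonneg _) (by positivity)
          rw [abs_of_nonneg (by positivity)]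
          exact_mod_cast hl1.2
        have e3 := abs_sub ((k.1.1 : ℤ) * l.1.2) ((l.1.1 : ℤ) * k.1.2)
        linarith
      have h5 : (k.1.1 : ℤ) * l.1.2 = l.1.1 * k.1.2 := by linarith
      obtain ⟨h6, h7⟩ := prim_eq hk1.1 hl1.1 hk3 hl3 h5
      exact hkl (Subtype.ext (Prod.ext h6 h7)))
    A (X / (4 * P)) 2 hN (by norm_num) hX10 (by
      intro q hq hq4 _ r
      have hq0 : 0 < q := Nat.pos_of_ne_zero hq.ne_zero
      have hq1 : (1 : ℝ) ≤ q := by exact_mod_cast hq0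
      have h1 := count_Ioc ⌊(z + X / 4) / P⌋ ⌊(z + X / 2) / P⌋ (Int.floor_le_floor hlt) q hq0 r
      have e1 := Int.floor_le ((z + X / 4) / P)
      have e2 := Int.lt_floor_add_one ((z + X / 4) / P)
      have e3 := Int.floor_le ((z + X / 2) / P)
      have e4 := Int.lt_floor_add_one ((z + X / 2) / P)
      have e5 : (z + X / 2) / P - (z + X / 4) / P = X / (4 * P) := by
        field_simp
        ring
      have h2 : |((⌊(z + X / 2) / P⌋ : ℝ) - ⌊(z + X / 4) / P⌋) / q - X / (4 * P) / q| ≤ 1 := by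
        rw [← sub_div, abs_div, abs_of_pos (by linarith : (0 : ℝ) < q), div_le_one (by linarith)]
        refine le_trans ?_ hq1
        rw [abs_le]
        constructor <;> linarith
      calc _ = |((((Ioc ⌊(z + X / 4) / P⌋ ⌊(z + X / 2) / P⌋).filter
              (fun x => (q : ℤ) ∣ x - r)).card : ℕ) : ℝ) -
              ((⌊(z + X / 2) / P⌋ : ℝ) - ⌊(z + X / 4) / P⌋) / q +
              (((⌊(z + X / 2) / P⌋ : ℝ) - ⌊(z + X / 4) / P⌋) / q - X / (4 * P) / q)| := by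
            congr 1
            ring
        _ ≤ _ := abs_add_le _ _
        _ ≤ 2 := by linarith)
  rw [hA, mem_Ioc] at hmA
  have hm1 : (z + X / 4) / P < m := by
    have := Int.lt_floor_add_one ((z + X / 4) / P)
    have h2 : (⌊(z + X / 4) / P⌋ : ℝ) + 1 ≤ m := by exact_mod_cast hmA.1
    linarith
  have hm2 : (m : ℝ) ≤ (z + X / 2) / P := by
    have := Int.floor_le ((z + X / 2) / P)
    have h2 : (m : ℝ) ≤ (⌊(z + X / 2) / P⌋ : ℝ) := by exact_mod_cast hmA.2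
    linarith
  have hm0 : 0 < m := by
    have : (0 : ℝ) < m := lt_of_le_of_lt (by positivity) hm1
    exact_mod_cast this
  obtain ⟨m', rfl⟩ := Int.eq_ofNat_of_zero_le hm0.le
  have hPm1 : z + X / 4 < P * m' := by
    have h1 : (z + X / 4) / P < ((m' : ℕ) : ℝ) := by exact_mod_cast hm1
    rw [div_lt_iff₀ hPr] at h1
    linarith
  have hPm2 : (P * m' : ℝ) ≤ z + X / 2 := by
    have h1 : ((m' : ℕ) : ℝ) ≤ (z + X / 2) / P := by exact_mod_cast hm2
    rw [le_div_iff₀ hPr] at h1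
    linarith
  have hxr : ((b0 + P * m' : ℕ) : ℝ) = b0 + P * m' := by push_cast; ring
  have hb0r : (0 : ℝ) ≤ b0 := by positivity
  have hb0P : (b0 : ℝ) ≤ P := by exact_mod_cast hb0.le
  refine ⟨b0 + P * m', by rw [hxr]; linarith, by rw [hxr]; linarith, ?_⟩
  intro j hj1 hjJ k hk1 hk2 q hq hqe
  -- the size of `q`
  have hj1' : (1 : ℝ) ≤ j := by exact_mod_cast hj1
  have hqr : (q : ℝ) = j * (b0 + P * m') + k := by
    have : ((q : ℤ) : ℝ) = (((j : ℤ) * ((b0 + P * m' : ℕ) : ℤ) + k : ℤ) : ℝ) := by rw [hqe]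
    push_cast at this
    linarith
  have hkr : -(K : ℝ) ≤ k := by exact_mod_cast hk1
  have hqbig : X / 4 - K < q := by
    have h1 : (0 : ℝ) ≤ b0 + P * m' := by positivity
    have h2 : (b0 : ℝ) + P * m' ≤ j * (b0 + P * m') := le_mul_of_one_le_left h1 hj1'
    rw [hqr]
    linarith
  have hJKs : (J : ℝ) + K ≤ (Real.log X) ^ 2 := by nlinarith
  have hcomp : ∀ p : ℕ, p.Prime → (p : ℝ) + (Real.log X) ^ 2 ≤ X / 4 →
      ¬ (p : ℤ) ∣ (j : ℤ) * ((b0 + P * m' : ℕ) : ℤ) + k := by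
    intro p hp hpX h
    rw [← hqe] at h
    have h1 := (Nat.prime_dvd_prime_iff_eq hp hq).1 (Int.natCast_dvd_natCast.1 h)
    have h2 : (p : ℝ) = q := by rw [h1]
    linarith
  by_cases hg : Nat.gcd j k.natAbs = 1
  · by_cases hkU : (j, k) ∈ U
    · obtain ⟨p, hp, hp1, hp2, -, hp3⟩ := hm ⟨(j, k), hkU⟩
      apply hcomp p hp (by linarith)
      have h1 := hip p j hp (hndvdj p hp hp1 j hj1 hjJ)
      have h3 := hp3.mul_left ((j * P : ℕ) : ℤ)
      have h4 := h1.mul_left ((j : ℤ) * (b0 : ℤ) + k)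
      have h5 := dvd_sub h3 h4
      refine h5.trans (dvd_of_eq ?_)
      push_cast
      ring
    · have hkU' : ¬ ∀ p : ℕ, p.Prime → (p : ℝ) ≤ y → ¬ (p : ℤ) ∣ (j : ℤ) * b p + k := fun h =>
        hkU (by
          rw [hUdef, Surv, mem_filter]
          exact ⟨mem_Rect.2 ⟨⟨hj1, hjJ⟩, ⟨hk1, hk2⟩, hg⟩, h⟩)
      push Not at hkU'
      obtain ⟨p, hp, hpy, hkp⟩ := hkU'
      apply hcomp p hp (by linarith)
      have h1 : (p : ℤ) ∣ (b0 : ℤ) - b p := by
        have h2 := hb0' p hp ((hfloor p).2 hpy)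
        exact (Nat.modEq_iff_dvd.1 h2.symm)
      have h3 : (p : ℤ) ∣ (P : ℤ) := Int.natCast_dvd_natCast.2 (hdvdP p hp hpy)
      have h4 := dvd_add (dvd_add hkp (h1.mul_left (j : ℤ))) (h3.mul_left ((j : ℤ) * m'))
      refine h4.trans (dvd_of_eq ?_)
      push_cast
      ring
  · -- a common factor
    set g := Nat.gcd j k.natAbs with hgdef
    have hgj : g ∣ j := Nat.gcd_dvd_left _ _
    have hgk : (g : ℤ) ∣ k := Int.natCast_dvd.2 (Nat.gcd_dvd_right _ _)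
    have hgq : (g : ℤ) ∣ (q : ℤ) := by
      rw [hqe]
      exact dvd_add ((Int.natCast_dvd_natCast.2 hgj).mul_right _) hgk
    have h1 : g = q := ((Nat.dvd_prime hq).1 (Int.natCast_dvd_natCast.1 hgq)).resolve_left hg
    have h2 : g ≤ J := (Nat.le_of_dvd (by omega) hgj).trans hjJ
    have h3 : (q : ℝ) ≤ J := by rw [← h1]; exact_mod_cast h2
    have h4 : 0 < X ^ (1 / 10 : ℝ) := by linarith
    linarith

theorem ana2 {C c : ℝ} (hC : 0 < C) (hc : 0 < c) : ∃ X₀ : ℝ, ∀ X : ℝ, X₀ ≤ X →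
    ∀ y : ℝ, y = Real.log X / 10 →
    y * (C * ((Real.log (Real.log y)) ^ 2 / (Real.log y * Real.log (Real.log (Real.log y))))) ≤
      c * Real.log X ∧ 1 ≤ c * Real.log X ∧
    X ^ (1 / 10 : ℝ) + (Real.log X) ^ 2 ≤ X / 4 ∧ y + (Real.log X) ^ 2 ≤ X / 4 := by
  have t0 := Real.tendsto_log_atTop
  have t1 : Tendsto (fun X : ℝ => Real.log X / 10) atTop atTop :=
    t0.atTop_div_const (by norm_num)
  have t2 := t0.comp t1
  have t3 := t0.comp t2
  have t4 := t0.comp t3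
  obtain ⟨X₀, hX₀⟩ := eventually_atTop.1 ((eventually_ge_atTop (1 : ℝ)).and
    ((t0.eventually_ge_atTop (max 20 (1 / c))).and ((t2.eventually_ge_atTop 1).and
    ((t3.eventually_ge_atTop (max 1 (6 * C / (10 * c)))).and (t4.eventually_ge_atTop 1)))))
  refine ⟨X₀, fun X hX y hy => ?_⟩
  obtain ⟨hX1, hs, h2, h3, h4⟩ := hX₀ X hX
  simp only [Function.comp] at h2 h3 h4
  rw [← hy] at h2 h3 h4
  set s := Real.log X with hsdef
  have hs20 : 20 ≤ s := (le_max_left _ _).trans hs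
  have hsc : 1 / c ≤ s := (le_max_right _ _).trans hs
  set t := Real.log (Real.log y) with ht
  have ht1 : 1 ≤ t := (le_max_left _ _).trans h3
  have htc : 6 * C / (10 * c) ≤ t := (le_max_right _ _).trans h3
  have hly : 0 < Real.log y := by linarith
  have hLe : Real.log y = Real.exp t := by rw [ht, Real.exp_log hly]
  have hXpos : 0 < X := by linarith
  have hE : ∃ E : ℝ, X ^ (1 / 10 : ℝ) = E ∧ X = E ^ 10 ∧ s ^ 2 ≤ 200 * E ∧ 3 ≤ E := by
    refine ⟨Real.exp (s / 10), ?_, ?_, ?_, ?_⟩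
    · rw [Real.rpow_def_of_pos hXpos]
      congr 1
      ring
    · rw [← Real.exp_nat_mul]
      push_cast
      rw [show (10 : ℝ) * (s / 10) = s by ring, hsdef, Real.exp_log hXpos]
    · have h7 := Real.pow_div_factorial_le_exp (s / 10) (by linarith) 2
      norm_num [Nat.factorial] at h7
      nlinarith
    · have h7 := Real.add_one_le_exp (s / 10)
      linarith
  obtain ⟨E, hE1, hE2, hE3, hE4⟩ := hE
  have hE9 : 1640 * E ≤ E ^ 10 := by
    have h5 : (3 : ℝ) ^ 9 ≤ E ^ 9 := by gcongr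
    have h6 : E ^ 10 = E ^ 9 * E := by ring
    rw [h6]
    have : (1640 : ℝ) ≤ E ^ 9 := by linarith
    gcongr
  refine ⟨?_, ?_, ?_, ?_⟩
  · have h5 : C * (t ^ 2 / (Real.log y * Real.log t)) ≤ 10 * c := by
      have e3 : t ^ 3 / 6 ≤ Real.exp t := by
        have h7 := Real.pow_div_factorial_le_exp t (by linarith) 3
        norm_num [Nat.factorial] at h7
        linarith
      have h6 : t ^ 2 / (Real.log y * Real.log t) ≤ t ^ 2 / (t ^ 3 / 6) := by
        apply div_le_div_of_nonneg_left (by positivity) (by positivity)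
        rw [hLe]
        calc t ^ 3 / 6 ≤ Real.exp t := e3
          _ = Real.exp t * 1 := by ring
          _ ≤ _ := by gcongr
      have h7 : t ^ 2 / (t ^ 3 / 6) = 6 / t := by
        field_simp
      rw [h7] at h6
      calc C * (t ^ 2 / (Real.log y * Real.log t)) ≤ C * (6 / t) := by gcongr
        _ ≤ 10 * c := by
          rw [div_le_iff₀ (by positivity)] at htc
          rw [mul_div_assoc', div_le_iff₀ (by positivity)]
          linarith
    have hy0 : 0 ≤ y := by rw [hy]; linarith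
    calc y * (C * (t ^ 2 / (Real.log y * Real.log t))) ≤ y * (10 * c) := by gcongr
      _ = c * s := by rw [hy]; ring
  · rw [div_le_iff₀ hc] at hsc
    linarith
  · rw [hE1]; nlinarith
  · rw [hy]; nlinarith

end Pool.Agent.H341R2.DG
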