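import Pool.Agent.H341R2.DG4
import Pool.Agent.H256R2.SC.V

set_option autoImplicit false
set_option maxHeartbeats 4000000

/-! # Simultaneous record gaps behind `n, 2n, ..., Jn` -/

namespace Pool.Agent.H341R2.DG

open Finset Filter Pool.Agent.H256R2.SC Pool.Agent.H256R2.SC.LG

open scoped Classical

theorem simultaneous : ∃ c : ℝ, 0 < c ∧ ∃ X₀ : ℝ, ∀ X : ℝ, X₀ ≤ X → ∀ J K : ℕ, 1 ≤ J → 1 ≤ K →
    (J : ℝ) * K ≤ c * ff X → ∀ z : ℕ, ∃ n : ℕ, z + Real.sqrt X ≤ n ∧ (n : ℝ) ≤ z + X ∧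
      ∀ j : ℕ, 1 ≤ j → j ≤ J → ∀ p : ℕ, p.Prime → (K : ℤ) < |(j : ℤ) * n - p| := by
  obtain ⟨c₁, hc₁, X₁, hcov⟩ := covering
  obtain ⟨C, hC, y₀, hsur⟩ := survivors_rect
  obtain ⟨y₁, hbig⟩ := big
  obtain ⟨c', hc', X₂, hana⟩ := ana (c := c₁ / 4) (C := C) (y₀ := max y₀ y₁) (by positivity) hC
  obtain ⟨X₃, hana2⟩ := ana2 (c := c₁ / 4) hC (by positivity)
  refine ⟨c' / 2, by positivity, max (max X₁ X₂) X₃, fun X hX J K hJ hK hJK z => ?_⟩
  have hX1 : X₁ ≤ X := ((le_max_left _ _).trans (le_max_left _ _)).trans hX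
  have hX2 : X₂ ≤ X := ((le_max_right _ _).trans (le_max_left _ _)).trans hX
  have hX3 : X₃ ≤ X := (le_max_right _ _).trans hX
  obtain ⟨a1, a2, a3, a4, a5, a6, a7, a8, a9, a10, a11, a12, a13, a14, a15, a16, a17⟩ :=
    hana X hX2 (Real.log X / 10) (c' * ff X) rfl rfl ⌊c' * ff X⌋₊ rfl
  obtain ⟨d1, d2, d3, d4⟩ := hana2 X hX3 (Real.log X / 10) rfl
  set y := Real.log X / 10 with hy
  set L := ⌊c' * ff X⌋₊ with hL
  have hJKL : 2 * (J * K) ≤ L := by
    rw [hL]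
    apply Nat.le_floor
    push_cast
    linarith
  have hJKL' : 2 * ((J : ℝ) * K) ≤ L := by exact_mod_cast hJKL
  have hJK0 : (0 : ℝ) ≤ (J : ℝ) * K := by positivity
  obtain ⟨b, hb⟩ := hsur y ((le_max_left _ _).trans a3) J K hJ hK (hJKL'.trans a7)
  obtain ⟨B1, B2, B3, B4, B5, B6, B7, hy0⟩ := hbig y ((le_max_right _ _).trans a3)
  have hly : 0 < Real.log y := by linarith
  have hlt : 0 < Real.log (Real.log (Real.log y)) := by linarith
  have hU : ((Surv y b (Rect J K)).card : ℝ) ≤ c₁ * Real.log X := by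
    refine hb.trans ?_
    have h1 : (J : ℝ) * K ≤ L := by linarith
    set Q : ℝ := C * ((Real.log (Real.log y)) ^ 2 /
          (Real.log y * Real.log (Real.log (Real.log y)))) with hQ
    have hq : 0 ≤ Q := by positivity
    have h2 : (J : ℝ) * K / Real.log y * Q ≤ L / Real.log y * Q := by gcongr
    have h3 : (L : ℝ) / Real.log y * Q = C * L * (Real.log (Real.log y)) ^ 2 /
        ((Real.log y) ^ 2 * Real.log (Real.log (Real.log y))) := by
      rw [hQ]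
      field_simp
    rw [add_mul]
    have h4 : c₁ / 4 * Real.log X + c₁ / 4 * Real.log X + c₁ / 4 * Real.log X ≤
        c₁ * Real.log X := by nlinarith
    linarith
  obtain ⟨n, h1, h2, h3⟩ := mult_arith (z := z) (hcov X hX1) a1 a4 a10 hU hJ hK (hJKL'.trans a9)
    (by linarith) a11 a12 d3 d4
  refine ⟨n, by linarith, by linarith, ?_⟩
  intro j hj1 hjJ p hp
  by_contra hcon
  push Not at hcon
  rw [abs_le] at hcon
  exact h3 j hj1 hjJ (p - j * n) (by linarith) (by linarith) p hp (by ring)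

end Pool.Agent.H341R2.DG
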