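import Mathlib

set_option autoImplicit false
set_option maxHeartbeats 4000000

/-! # From prime-free runs in every block to the number of large gaps -/

namespace Pool.Agent.H341R2.DG

open Finset

/-- the indices of the gaps of length at least `2 K + 2` up to `x` -/
def gapSet (K x : ℕ) : Set ℕ :=
  {m : ℕ | Nat.nth Nat.Prime (m + 1) ≤ x ∧
    Nat.nth Nat.Prime m + (2 * K + 2) ≤ Nat.nth Nat.Prime (m + 1)}

theorem gapSet_finite (K x : ℕ) : (gapSet K x).Finite := by
  refine (Set.finite_Iic x).subset ?_
  intro m hm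
  have h1 : m + 1 ≤ Nat.nth Nat.Prime (m + 1) :=
    (Nat.nth_strictMono Nat.infinite_setOfPred_prime).id_le _
  have := hm.1
  exact Set.mem_Iic.2 (by omega)

/-- fibres with at most two elements -/
theorem fibre_two (B : Finset ℕ) (f : ℕ → ℕ)
    (h : ∀ i ∈ B, ∀ j ∈ B, ∀ k ∈ B, i < j → j < k → f i < f k) :
    B.card ≤ 2 * (B.image f).card := by
  apply Finset.card_le_mul_card_image
  intro b _
  by_contra hcon
  push Not at hcon
  obtain ⟨a1, h1, a2, h2, a3, h3, h12, h13, h23⟩ := Finset.two_lt_card.1 hcon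
  rw [mem_filter] at h1 h2 h3
  have key : ∀ i j k : ℕ, (i ∈ B ∧ f i = b) → (j ∈ B ∧ f j = b) → (k ∈ B ∧ f k = b) →
      i < j → j < k → False := by
    intro i j k hi hj hk hij hjk
    have := h i hi.1 j hj.1 k hk.1 hij hjk
    omega
  rcases lt_or_gt_of_ne h12 with p | p <;> rcases lt_or_gt_of_ne h13 with q | q <;>
    rcases lt_or_gt_of_ne h23 with r | r
  · exact key _ _ _ h1 h2 h3 p r
  · exact key _ _ _ h1 h3 h2 q r
  · omega
  · exact key _ _ _ h3 h1 h2 q p
  · exact key _ _ _ h2 h1 h3 p q
  · omega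
  · exact key _ _ _ h2 h3 h1 r q
  · exact key _ _ _ h3 h2 h1 r p

theorem count_gaps (M K x : ℕ) (hM : 1 ≤ M) (hrun : ∀ z : ℕ, ∃ n : ℕ, z + K < n ∧ n + K < z + M ∧
      ∀ p : ℕ, p.Prime → (K : ℤ) < |(n : ℤ) - p|) :
    Nat.primeCounting x ≤ M * (2 * (gapSet K x).ncard + 2) := by
  classical
  choose n hn1 hn2 hn3 using hrun
  set Pr : Finset ℕ := (Icc 1 x).filter Nat.Prime with hPr
  have hcard : Pr.card = Nat.primeCounting x := by
    rw [Nat.primeCounting, Nat.primeCounting', Nat.count_eq_card_filter_range]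
    congr 1
    ext p
    simp only [hPr, mem_filter, mem_Icc, mem_range]
    constructor
    · rintro ⟨h1, h2⟩; exact ⟨by omega, h2⟩
    · rintro ⟨h1, h2⟩; exact ⟨⟨h2.pos, by omega⟩, h2⟩
  set B : Finset ℕ := Pr.image (fun p => p / M) with hB
  have h1 : Pr.card ≤ M * B.card := by
    apply Finset.card_le_mul_card_image
    intro b _
    have hsub : Pr.filter (fun p => p / M = b) ⊆ Ico (b * M) (b * M + M) := by
      intro p hp
      rw [mem_filter] at hp
      rw [mem_Ico]
      have := hp.2
      have h3 := Nat.div_add_mod p M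
      have h4 := Nat.mod_lt p (show 0 < M by omega)
      rw [this] at h3
      have h5 : b * M = M * b := Nat.mul_comm _ _
      constructor <;> omega
    have := card_le_card hsub
    rw [Nat.card_Ico] at this
    omega
  -- a prime in each block of `B`
  have hblock : ∀ i ∈ B, ∃ q : ℕ, q.Prime ∧ q ≤ x ∧ i * M ≤ q ∧ q < i * M + M := by
    intro i hi
    rw [hB, mem_image] at hi
    obtain ⟨q, hq, hqi⟩ := hi
    rw [hPr, mem_filter, mem_Icc] at hq
    have h3 := Nat.div_add_mod q M
    have h4 := Nat.mod_lt q (show 0 < M by omega)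
    rw [hqi] at h3
    have h5 : i * M = M * i := Nat.mul_comm _ _
    exact ⟨q, hq.2, hq.1.2, by omega, by omega⟩
  set c : ℕ → ℕ := fun i => Nat.count Nat.Prime (n (i * M)) with hc
  have hstep : ∀ i j : ℕ, i < j → i * M + M ≤ j * M := by
    intro i j hij
    calc i * M + M = (i + 1) * M := by ring
      _ ≤ j * M := Nat.mul_le_mul_right _ hij
  have hmono : ∀ i ∈ B, ∀ j ∈ B, ∀ k ∈ B, i < j → j < k → c i < c k := by
    intro i _ j hj k _ hij hjk
    obtain ⟨q, hq, -, hq1, hq2⟩ := hblock j hj
    have e1 := hn2 (i * M)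
    have e2 := hn1 (k * M)
    have e3 := hstep i j hij
    have e4 := hstep j k hjk
    have e5 : Nat.count Nat.Prime (n (i * M)) ≤ Nat.count Nat.Prime q :=
      Nat.count_monotone _ (by omega)
    have e6 : Nat.count Nat.Prime (q + 1) ≤ Nat.count Nat.Prime (n (k * M)) :=
      Nat.count_monotone _ (by omega)
    have e7 : Nat.count Nat.Prime (q + 1) = Nat.count Nat.Prime q + 1 := by
      rw [Nat.count_succ, if_pos hq]
    simp only [hc]
    omega
  -- remove the first and the last block
  by_cases hBne : B.Nonempty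
  · set i₀ := B.min' hBne with hi₀
    set i₁ := B.max' hBne with hi₁
    set B' : Finset ℕ := (B.erase i₀).erase i₁ with hB'
    have hB'c : B.card ≤ B'.card + 2 := by
      have e1 : B.card - 1 ≤ (B.erase i₀).card := Finset.pred_card_le_card_erase
      have e2 : (B.erase i₀).card - 1 ≤ B'.card := Finset.pred_card_le_card_erase
      omega
    have hB'B : ∀ i ∈ B', i ∈ B ∧ i₀ < i ∧ i < i₁ := by
      intro i hi
      rw [hB', mem_erase, mem_erase] at hi
      refine ⟨hi.2.2, ?_, ?_⟩
      · exact lt_of_le_of_ne (B.min'_le i hi.2.2) (Ne.symm hi.2.1)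
      · exact lt_of_le_of_ne (B.le_max' i hi.2.2) hi.1
    have h2 := fibre_two B' (fun i => c i - 1) (by
      intro i hi j hj k hk hij hjk
      have e1 := hmono i (hB'B i hi).1 j (hB'B j hj).1 k (hB'B k hk).1 hij hjk
      have e2 : 1 ≤ c i := by
        obtain ⟨q, hq, -, hq1, hq2⟩ := hblock i₀ (B.min'_mem hBne)
        have e3 := hstep i₀ i (hB'B i hi).2.1
        have e4 := hn1 (i * M)
        have e5 : Nat.count Nat.Prime (q + 1) ≤ Nat.count Nat.Prime (n (i * M)) :=
          Nat.count_monotone _ (by omega)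
        have e7 : Nat.count Nat.Prime (q + 1) = Nat.count Nat.Prime q + 1 := by
          rw [Nat.count_succ, if_pos hq]
        simp only [hc]
        omega
      omega)
    have h3 : ((B'.image (fun i => c i - 1) : Finset ℕ) : Set ℕ) ⊆ gapSet K x := by
      intro m hm
      rw [Finset.mem_coe, mem_image] at hm
      obtain ⟨i, hi, rfl⟩ := hm
      obtain ⟨hiB, hi0, hi1⟩ := hB'B i hi
      have e2 : 1 ≤ c i := by
        obtain ⟨q, hq, -, hq1, hq2⟩ := hblock i₀ (B.min'_mem hBne)
        have e3 := hstep i₀ i hi0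
        have e4 := hn1 (i * M)
        have e5 : Nat.count Nat.Prime (q + 1) ≤ Nat.count Nat.Prime (n (i * M)) :=
          Nat.count_monotone _ (by omega)
        have e7 : Nat.count Nat.Prime (q + 1) = Nat.count Nat.Prime q + 1 := by
          rw [Nat.count_succ, if_pos hq]
        simp only [hc]
        omega
      have e8 : c i - 1 + 1 = c i := by omega
      have hlt : Nat.nth Nat.Prime (c i - 1) < n (i * M) := by
        apply Nat.nth_lt_of_lt_count
        simp only [hc] at e2 ⊢
        omega
      have hge : n (i * M) ≤ Nat.nth Nat.Prime (c i) :=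
        Nat.le_nth_count Nat.infinite_setOfPred_prime _
      have p1 : (Nat.nth Nat.Prime (c i - 1)).Prime := Nat.prime_nth_prime _
      have p2 : (Nat.nth Nat.Prime (c i)).Prime := Nat.prime_nth_prime _
      have g1 := hn3 (i * M) _ p1
      have g2 := hn3 (i * M) _ p2
      rw [abs_of_nonneg (by omega)] at g1
      rw [abs_of_nonpos (by omega)] at g2
      refine ⟨?_, ?_⟩
      · rw [e8]
        obtain ⟨q, hq, hqx, hq1, hq2⟩ := hblock i₁ (B.max'_mem hBne)
        have e3 := hstep i i₁ hi1
        have e4 := hn2 (i * M)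
        have e5 : Nat.nth Nat.Prime (c i) ≤ q := by
          have e6 : c i ≤ Nat.count Nat.Prime q := Nat.count_monotone _ (by omega)
          calc Nat.nth Nat.Prime (c i) ≤ Nat.nth Nat.Prime (Nat.count Nat.Prime q) :=
                Nat.nth_monotone Nat.infinite_setOfPred_prime e6
            _ = q := Nat.nth_count hq
        omega
      · rw [e8]
        omega
    have h4 : (B'.image (fun i => c i - 1)).card ≤ (gapSet K x).ncard := by
      rw [← Set.ncard_coe_finset]
      exact Set.ncard_le_ncard h3 (gapSet_finite K x)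
    rw [← hcard]
    refine h1.trans (Nat.mul_le_mul_left _ ?_)
    omega
  · rw [not_nonempty_iff_eq_empty] at hBne
    rw [hBne, card_empty, Nat.mul_zero] at h1
    rw [← hcard]
    omega

end Pool.Agent.H341R2.DG
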