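import Pool.Agent.H341R2.DG5
import Pool.Agent.H341R2.DG6

set_option autoImplicit false
set_option maxHeartbeats 4000000

/-! # The number of large gaps in the full record range -/

namespace Pool.Agent.H341R2.DG

open Finset Filter Pool.Agent.H256R2.SC Pool.Agent.H256R2.SC.LG

open scoped Classical

theorem ana3 {c₀ X₀ A : ℝ} (hc₀ : 0 < c₀) (hA16 : 16 ≤ A) (hA : 8 / c₀ ≤ A) :
    ∃ x₀ : ℝ, ∀ x : ℝ, x₀ ≤ x → ∀ h : ℝ, Real.log x ≤ h → h ≤ 1 / (4 * A) * ff x →
    ∀ X₁ : ℝ, X₁ = Real.exp (A * h / ff x * Real.log x) →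
    100 ≤ x ∧ 100 ≤ Real.log x ∧ 0 < ff x ∧ X₀ ≤ X₁ ∧ 100 ≤ X₁ ∧ h ≤ c₀ * ff X₁ ∧
      c₀ * ff X₁ + 2 ≤ Real.sqrt X₁ ∧ Real.sqrt X₁ ≤ X₁ ∧ X₁ ^ 2 ≤ x ∧ 48 * Real.log x ≤ X₁ := by
  have hA0 : 0 < A := by linarith
  set M : ℝ := max (max 288 (48 * (4 * c₀ + 2))) (max X₀ 1) with hM
  have M1 : 288 ≤ M := (le_max_left _ _).trans (le_max_left _ _)
  have M2 : 48 * (4 * c₀ + 2) ≤ M := (le_max_right _ _).trans (le_max_left _ _)
  have M3 : X₀ ≤ M := (le_max_left _ _).trans (le_max_right _ _)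
  obtain ⟨x₀, hx₀⟩ := ev_log (M ^ 2)
  refine ⟨max x₀ 100, fun x hx h hh1 hh2 X₁ hX₁ => ?_⟩
  have hx100 : 100 ≤ x := (le_max_right _ _).trans hx
  obtain ⟨hx1, m1, m2, m3, m4⟩ := hx₀ x ((le_max_left _ _).trans hx)
  have hMsq : M ≤ M ^ 2 := by nlinarith
  set l1 := Real.log x with hl1
  set l2 := Real.log l1 with hl2
  set l3 := Real.log l2 with hl3
  set l4 := Real.log l3 with hl4
  have p1 : 0 < l1 := by linarith
  have p2 : 0 < l2 := by linarith
  have p3 : 0 < l3 := by linarith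
  have p4 : 0 < l4 := by linarith
  have hxpos : 0 < x := by linarith
  set R : ℝ := l2 ^ 2 * l4 / l3 ^ 2 with hR
  have hR0 : 0 < R := by positivity
  have hff : ff x = l1 * R := by
    unfold ff
    rw [hR]
    ring
  have hff0 : 0 < ff x := by rw [hff]; positivity
  set L : ℝ := A * h / R with hL
  have hLe : A * h / ff x * l1 = L := by
    rw [hff, hL]
    field_simp
  rw [hLe] at hX₁
  -- `R ≤ 16 √l1`
  have hs0 : 0 < Real.sqrt l1 := Real.sqrt_pos.2 p1
  have hsq : Real.sqrt l1 * Real.sqrt l1 = l1 := Real.mul_self_sqrt p1.le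
  have hsM : M ≤ Real.sqrt l1 := Real.le_sqrt_of_sq_le m1
  have hR16 : R ≤ 16 * Real.sqrt l1 := by
    have h1 : l4 ≤ l3 ^ 2 := by
      have := Real.log_le_sub_one_of_pos p3
      nlinarith
    have h2 : R ≤ l2 ^ 2 := by
      rw [hR, div_le_iff₀ (by positivity)]
      gcongr
    have h3 : l2 = 2 * Real.log (Real.sqrt l1) := by
      rw [hl2, Real.log_sqrt p1.le]
      ring
    have h4 := log_sq_le (t := Real.sqrt l1) (by linarith)
    calc R ≤ l2 ^ 2 := h2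
      _ = 4 * (Real.log (Real.sqrt l1)) ^ 2 := by rw [h3]; ring
      _ ≤ 4 * (4 * Real.sqrt l1) := by gcongr
      _ = _ := by ring
  have hLlow : Real.sqrt l1 ≤ L := by
    rw [hL, le_div_iff₀ hR0]
    calc Real.sqrt l1 * R ≤ Real.sqrt l1 * (16 * Real.sqrt l1) := by gcongr
      _ = 16 * (Real.sqrt l1 * Real.sqrt l1) := by ring
      _ = 16 * l1 := by rw [hsq]
      _ ≤ A * h := by gcongr
  have hLup : L ≤ l1 / 4 := by
    rw [hL, div_le_iff₀ hR0]
    calc A * h ≤ A * (1 / (4 * A) * ff x) := by gcongr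
      _ = l1 / 4 * R := by rw [hff]; field_simp
  have hLM : M ≤ L := hsM.trans hLlow
  have hL0 : 0 < L := by linarith
  have hlogX : Real.log X₁ = L := by rw [hX₁, Real.log_exp]
  have hX0 : 0 < X₁ := by rw [hX₁]; exact Real.exp_pos _
  have hXL : L + 1 ≤ X₁ := by rw [hX₁]; exact Real.add_one_le_exp _
  -- iterated logarithms of `X₁`
  have k2a : l2 / 2 ≤ Real.log L := by
    have h1 := Real.log_le_log hs0 hLlow
    rw [Real.log_sqrt p1.le] at h1
    exact h1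
  have k2b : Real.log L ≤ l2 := Real.log_le_log hL0 (by linarith)
  have hlog2 := Real.log_two_lt_d9
  have hlog2' := Real.log_two_gt_d9
  have k3a : l3 / 2 ≤ Real.log (Real.log L) := by
    have h1 := Real.log_le_log (by linarith) k2a
    rw [Real.log_div p2.ne' (by norm_num)] at h1
    linarith
  have k3b : Real.log (Real.log L) ≤ l3 := Real.log_le_log (by linarith) k2b
  have k4a : l4 / 2 ≤ Real.log (Real.log (Real.log L)) := by
    have h1 := Real.log_le_log (by linarith) k3a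
    rw [Real.log_div p3.ne' (by norm_num)] at h1
    linarith
  have q2 : 0 < Real.log L := by linarith
  have q3 : 0 < Real.log (Real.log L) := by linarith
  have q4 : 0 < Real.log (Real.log (Real.log L)) := by linarith
  have hffX : ff X₁ = L * (Real.log L) ^ 2 * Real.log (Real.log (Real.log L)) /
      (Real.log (Real.log L)) ^ 2 := by
    unfold ff
    rw [hlogX]
  have hffX1 : A * h / 8 ≤ ff X₁ := by
    have h1 : A * h = L * R := by rw [hL]; field_simp
    rw [h1, hffX, hR]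
    have hl22 : 0 ≤ l2 / 2 := by linarith
    have hl42 : 0 ≤ l4 / 2 := by linarith
    calc L * (l2 ^ 2 * l4 / l3 ^ 2) / 8 = L * (l2 / 2) ^ 2 * (l4 / 2) / l3 ^ 2 := by ring
      _ ≤ L * (Real.log L) ^ 2 * Real.log (Real.log (Real.log L)) /
          (Real.log (Real.log L)) ^ 2 := by
        gcongr
  have hh0 : 0 < h := by linarith
  have hffX2 : ff X₁ ≤ 4 * L ^ 2 := by
    rw [hffX, div_le_iff₀ (by positivity)]
    have h1 : Real.log (Real.log (Real.log L)) ≤ (Real.log (Real.log L)) ^ 2 := by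
      have := Real.log_le_sub_one_of_pos q3
      nlinarith
    have h2 := log_sq_le (t := L) (by linarith)
    calc L * (Real.log L) ^ 2 * Real.log (Real.log (Real.log L))
        ≤ L * (4 * L) * (Real.log (Real.log L)) ^ 2 := by gcongr
      _ = _ := by ring
  have hsqX : Real.sqrt X₁ = Real.exp (L / 2) := by
    rw [hX₁, Real.sqrt_eq_rpow, ← Real.exp_mul]
    congr 1
    ring
  refine ⟨hx100, by linarith, hff0, by linarith, by linarith, ?_, ?_, ?_, ?_, ?_⟩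
  · have h1 : h ≤ c₀ * (A * h / 8) := by
      rw [div_le_iff₀ hc₀] at hA
      nlinarith
    refine h1.trans ?_
    gcongr
  · rw [hsqX]
    have h7 : (L / 2) ^ 3 / 6 ≤ Real.exp (L / 2) := by
      have h7 := Real.pow_div_factorial_le_exp (L / 2) (by linarith) 3
      norm_num [Nat.factorial] at h7
      linarith
    have h8 : c₀ * ff X₁ + 2 ≤ c₀ * (4 * L ^ 2) + 2 := by gcongr
    have h9 : c₀ * (4 * L ^ 2) + 2 ≤ (4 * c₀ + 2) * L ^ 2 := by nlinarith
    have h10 : (4 * c₀ + 2) * L ^ 2 ≤ (L / 2) ^ 3 / 6 := by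
      have : 48 * (4 * c₀ + 2) ≤ L := M2.trans hLM
      have h11 : (L / 2) ^ 3 / 6 = L / 48 * L ^ 2 := by ring
      rw [h11]
      have : 4 * c₀ + 2 ≤ L / 48 := by linarith
      gcongr
    linarith
  · rw [Real.sqrt_le_left hX0.le]
    nlinarith
  · have h1 : X₁ ^ 2 = Real.exp (2 * L) := by
      rw [hX₁, ← Real.exp_nat_mul]
      push_cast
      ring_nf
    rw [h1, ← Real.exp_log hxpos]
    apply Real.exp_le_exp.2
    linarith
  · have h7 : L ^ 3 / 6 ≤ X₁ := by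
      have h7 := Real.pow_div_factorial_le_exp L (by linarith) 3
      norm_num [Nat.factorial] at h7
      rw [hX₁]
      linarith
    refine le_trans ?_ h7
    have h8 : (Real.sqrt l1) ^ 3 ≤ L ^ 3 := by gcongr
    have h9 : (Real.sqrt l1) ^ 3 = l1 * Real.sqrt l1 := by
      calc (Real.sqrt l1) ^ 3 = (Real.sqrt l1 * Real.sqrt l1) * Real.sqrt l1 := by ring
        _ = _ := by rw [hsq]
    have h10 : 288 ≤ Real.sqrt l1 := M1.trans hsM
    nlinarith

theorem freq : ∃ c C : ℝ, 0 < c ∧ 0 < C ∧ C * c ≤ 1 / 2 ∧ ∃ x₀ : ℝ, ∀ x : ℝ, x₀ ≤ x → ∀ h : ℝ,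
    Real.log x ≤ h → h ≤ c * ff x →
    x ^ (1 - C * h / ff x) ≤ ({m : ℕ | (Nat.nth Nat.Prime (m + 1) : ℝ) ≤ x ∧
      h ≤ (Nat.nth Nat.Prime (m + 1) : ℝ) - Nat.nth Nat.Prime m}.ncard : ℝ) := by
  obtain ⟨c₀, hc₀, X₀, hsim⟩ := simultaneous
  set A : ℝ := max 16 (8 / c₀) with hA
  have hA16 : 16 ≤ A := le_max_left _ _
  have hA8 : 8 / c₀ ≤ A := le_max_right _ _
  have hA0 : 0 < A := by linarith
  obtain ⟨x₀, hana⟩ := ana3 (X₀ := X₀) hc₀ hA16 hA8
  refine ⟨1 / (4 * A), 2 * A, by positivity, by positivity, le_of_eq (by field_simp; norm_num),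
    x₀, fun x hx h hh1 hh2 => ?_⟩
  obtain ⟨a1, a2, a3, a4, a5, a6, a7, a8, a9, a10⟩ := hana x hx h hh1 hh2 _ rfl
  set X₁ : ℝ := Real.exp (A * h / ff x * Real.log x) with hX₁
  have hX0 : 0 < X₁ := by linarith
  set K : ℕ := ⌊c₀ * ff X₁⌋₊ with hK
  have hff0 : 0 ≤ c₀ * ff X₁ := by linarith
  have hKle : (K : ℝ) ≤ c₀ * ff X₁ := Nat.floor_le hff0
  have hKlt : c₀ * ff X₁ < K + 1 := Nat.lt_floor_add_one _
  have hK1 : 1 ≤ K := by
    rw [hK, Nat.one_le_floor_iff]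
    linarith
  set M : ℕ := ⌈2 * X₁⌉₊ + 1 with hM
  have hM1 : 2 * X₁ ≤ ((⌈2 * X₁⌉₊ : ℕ) : ℝ) := Nat.le_ceil _
  have hM2 : ((⌈2 * X₁⌉₊ : ℕ) : ℝ) < 2 * X₁ + 1 := Nat.ceil_lt_add_one (by linarith)
  have hMr : (M : ℝ) = ((⌈2 * X₁⌉₊ : ℕ) : ℝ) + 1 := by rw [hM]; push_cast; ring
  have hrun : ∀ z : ℕ, ∃ n : ℕ, z + K < n ∧ n + K < z + M ∧
      ∀ p : ℕ, p.Prime → (K : ℤ) < |(n : ℤ) - p| := by
    intro z
    obtain ⟨n, h1, h2, h3⟩ := hsim X₁ a4 1 K le_rfl hK1 (by simpa using hKle) z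
    refine ⟨n, ?_, ?_, fun p hp => by simpa using h3 1 le_rfl le_rfl p hp⟩
    · have : (z : ℝ) + K < n := by linarith
      exact_mod_cast this
    · have : (n : ℝ) + K < z + M := by rw [hMr]; linarith
      exact_mod_cast this
  have hcount := count_gaps M K ⌊x⌋₊ (by omega) hrun
  -- comparison of the two sets
  have hfin : {m : ℕ | (Nat.nth Nat.Prime (m + 1) : ℝ) ≤ x ∧
      h ≤ (Nat.nth Nat.Prime (m + 1) : ℝ) - Nat.nth Nat.Prime m}.Finite := by
    refine (Set.finite_Iic ⌊x⌋₊).subset ?_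
    intro m hm
    have h1 : m + 1 ≤ Nat.nth Nat.Prime (m + 1) :=
      (Nat.nth_strictMono Nat.infinite_setOfPred_prime).id_le _
    have h2 : Nat.nth Nat.Prime (m + 1) ≤ ⌊x⌋₊ := Nat.le_floor hm.1
    exact Set.mem_Iic.2 (by omega)
  have hsub : gapSet K ⌊x⌋₊ ⊆ {m : ℕ | (Nat.nth Nat.Prime (m + 1) : ℝ) ≤ x ∧
      h ≤ (Nat.nth Nat.Prime (m + 1) : ℝ) - Nat.nth Nat.Prime m} := by
    rintro m ⟨h1, h2⟩
    refine ⟨?_, ?_⟩
    · have h3 : ((⌊x⌋₊ : ℕ) : ℝ) ≤ x := Nat.floor_le (by linarith)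
      have h4 : (Nat.nth Nat.Prime (m + 1) : ℝ) ≤ ((⌊x⌋₊ : ℕ) : ℝ) := by exact_mod_cast h1
      linarith
    · have h5 : (Nat.nth Nat.Prime m : ℝ) + (2 * K + 2) ≤ Nat.nth Nat.Prime (m + 1) := by
        exact_mod_cast h2
      linarith
  have hG := Set.ncard_le_ncard hsub hfin
  have hG' : ((gapSet K ⌊x⌋₊).ncard : ℝ) ≤ ({m : ℕ | (Nat.nth Nat.Prime (m + 1) : ℝ) ≤ x ∧
      h ≤ (Nat.nth Nat.Prime (m + 1) : ℝ) - Nat.nth Nat.Prime m}.ncard : ℝ) := by
    exact_mod_cast hG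
  refine le_trans ?_ hG'
  set G : ℕ := (gapSet K ⌊x⌋₊).ncard with hGdef
  -- Chebyshev
  set N : ℕ := ⌊x⌋₊ with hN
  have hN1 : x - 1 < N := Nat.sub_one_lt_floor x
  have hN2 : (N : ℝ) ≤ x := Nat.floor_le (by linarith)
  have hlN : 0 < Real.log N := Real.log_pos (by linarith)
  have hlNx : Real.log N ≤ Real.log x := Real.log_le_log (by linarith) hN2
  have hpi := Chebyshev.pi_ge N
  have hlog2 := Real.log_two_gt_d9
  have hnum : x / 4 ≤ N * Real.log 2 - Real.log (N + 1) := by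
    have h1 : Real.log ((N : ℝ) + 1) ≤ 2 * Real.sqrt x := by
      have h2 : Real.log ((N : ℝ) + 1) ≤ Real.log (4 * x) :=
        Real.log_le_log (by linarith) (by linarith)
      have h3 : Real.log (4 * x) = 2 * Real.log (2 * Real.sqrt x) := by
        have : (4 * x) = (2 * Real.sqrt x) ^ 2 := by
          rw [mul_pow, Real.sq_sqrt (by linarith)]
          norm_num
        rw [this, Real.log_pow]
        norm_num
      have h4 := Real.log_le_sub_one_of_pos (show 0 < Real.sqrt x by positivity)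
      have h5 : Real.log (2 * Real.sqrt x) = Real.log 2 + Real.log (Real.sqrt x) :=
        Real.log_mul (by norm_num) (by positivity)
      have := Real.log_two_lt_d9
      linarith
    have h5 : Real.sqrt x ≤ x / 10 := by
      rw [Real.sqrt_le_left (by positivity)]
      nlinarith
    nlinarith
  have hpi2 : x / 4 / Real.log x ≤ (Nat.primeCounting N : ℝ) := by
    refine le_trans ?_ hpi
    calc x / 4 / Real.log x ≤ x / 4 / Real.log N := by gcongr
      _ ≤ _ := by gcongr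
  have hcount' : (Nat.primeCounting N : ℝ) ≤ M * (2 * G + 2) := by exact_mod_cast hcount
  have hM3 : (M : ℝ) ≤ 3 * X₁ := by rw [hMr]; linarith
  have hlx : 0 < Real.log x := by linarith
  have h1 : x / 4 / Real.log x ≤ 3 * X₁ * (2 * G + 2) := by
    refine (hpi2.trans hcount').trans ?_
    gcongr
  -- `x / X₁ ^ 2`
  have h2 : x ^ (1 - 2 * A * h / ff x) = x / X₁ ^ 2 := by
    have hxpos : 0 < x := by linarith
    have e1 : x / X₁ ^ 2 = Real.exp (Real.log x) / X₁ ^ 2 := by rw [Real.exp_log hxpos]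
    rw [e1, Real.rpow_def_of_pos hxpos, hX₁, ← Real.exp_nat_mul, ← Real.exp_sub]
    congr 1
    push_cast
    ring
  rw [h2]
  have h3 : 1 ≤ x / X₁ ^ 2 := by
    rw [le_div_iff₀ (by positivity)]
    linarith
  have h4 : 2 * (x / X₁ ^ 2) ≤ G + 1 := by
    rw [div_le_iff₀ hlx] at h1
    have h5 : x / 4 ≤ 3 * X₁ * (2 * G + 2) * (X₁ / 48) := by
      refine h1.trans ?_
      have : Real.log x ≤ X₁ / 48 := by linarith
      gcongr
    have h6 : x ≤ (G + 1) / 2 * X₁ ^ 2 := by nlinarith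
    rw [mul_div_assoc', div_le_iff₀ (by positivity)]
    linarith
  linarith

end Pool.Agent.H341R2.DG
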