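import Pool.Agent.H341R2.SupNorm

set_option autoImplicit false

namespace Pool.Agent.H341R2

open Complex Filter Topology ComplexConjugate

theorem prime_cpow_eq (p : Nat.Primes) (τ : ℝ) :
    ((p : ℕ) : ℂ) ^ (τ * I) = Complex.exp (((τ * Real.log p : ℝ) : ℂ) * I) := by
  have h0 : ((p : ℕ) : ℂ) ≠ 0 := by exact_mod_cast p.2.ne_zero
  rw [Complex.cpow_def_of_ne_zero h0, ← Complex.natCast_log]
  congr 1
  push_cast
  ring

theorem evx_log_single (p : Nat.Primes) (ν r : ℝ) :
    evx (Real.log p) (AddMonoidAlgebra.single ν r) = r * ((p : ℕ) : ℂ) ^ (ν * I) := by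
  rw [evx_single, prime_cpow_eq]

theorem evx_bounded (P : TrigA) : ∃ B : ℝ, 0 ≤ B ∧ ∀ x, ‖evx x P‖ ≤ B := by
  refine ⟨∑ ν ∈ P.coeff.support, |P.coeff ν|, Finset.sum_nonneg fun _ _ => abs_nonneg _,
    fun x => ?_⟩
  rw [evx_eq_sum, Finsupp.sum]
  refine (norm_sum_le _ _).trans (Finset.sum_le_sum fun ν _ => ?_)
  rw [norm_mul, norm_exp_aux, mul_one, Complex.norm_real, Real.norm_eq_abs]

theorem E_cos_bounded {ν : ℝ} (hν : ν ≠ 0) : ∃ C : ℝ, ∀ᶠ ε : ℝ in 𝓝[>] 0,
    |E ε fun p => (((p : ℕ) : ℂ) ^ (ν * I)).re| ≤ C := by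
  obtain ⟨C, hC⟩ := primeSum_bounded (1 : DirichletCharacter ℂ 1) (-ν) (Or.inr (neg_ne_zero.2 hν))
  refine ⟨C, ?_⟩
  filter_upwards [hC, self_mem_nhdsWithin] with ε h1 h2
  have hε : (0 : ℝ) < ε := h2
  convert h1 using 2
  rw [E, Complex.re_tsum]
  · refine tsum_congr fun p => ?_
    have h0 : ((p : ℕ) : ℂ) ≠ 0 := by exact_mod_cast p.2.ne_zero
    have h4 : ((p : ℕ) : ℂ) ^ (-(1 + ε + ((-ν : ℝ) : ℂ) * I) : ℂ) =
        ((p : ℕ) : ℂ) ^ (ν * I) * (((p : ℝ) ^ (-(1 + ε)) : ℝ) : ℂ) := by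
      rw [Complex.ofReal_cpow (by positivity)]
      push_cast
      rw [← Complex.cpow_add _ _ h0]
      congr 1
      ring
    rw [MulChar.one_apply (isUnit_of_subsingleton _), one_mul, h4, Complex.re_mul_ofReal]
  · refine Summable.of_norm_bounded (summable_prime_rpow (r := -(1 + ε)) (by linarith)) fun p => ?_
    rw [MulChar.one_apply (isUnit_of_subsingleton _), one_mul, norm_prime_cpow]
    refine le_of_eq ?_
    congr 1
    simp

theorem claim1 (P : TrigA) : ∃ C : ℝ, ∀ᶠ ε : ℝ in 𝓝[>] 0,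
    |(E ε fun p => (evx (Real.log p) P).re) - P.coeff 0 * lam ε| ≤ C := by
  induction P using AddMonoidAlgebra.induction_linear with
  | zero => exact ⟨0, Filter.Eventually.of_forall fun ε => by simp [E]⟩
  | add a b ha hb =>
    obtain ⟨C₁, h1⟩ := ha
    obtain ⟨C₂, h2⟩ := hb
    obtain ⟨A₁, hA0, hA⟩ := evx_bounded a
    obtain ⟨A₂, hB0, hB⟩ := evx_bounded b
    refine ⟨C₁ + C₂, ?_⟩
    filter_upwards [h1, h2, self_mem_nhdsWithin] with ε h3 h4 h5
    have hε : (0 : ℝ) < ε := h5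
    have h6 : (E ε fun p => (evx (Real.log p) (a + b)).re) =
        (E ε fun p => (evx (Real.log p) a).re) + E ε fun p => (evx (Real.log p) b).re := by
      rw [← E_add hε (B := A₁) (B' := A₂) (fun p => (Complex.abs_re_le_norm _).trans (hA _))
        (fun p => (Complex.abs_re_le_norm _).trans (hB _))]
      congr 1
      funext p
      rw [map_add, Complex.add_re]
    rw [h6, AddMonoidAlgebra.coeff_add, Finsupp.add_apply]
    have h7 : (E ε fun p => (evx (Real.log p) a).re) + (E ε fun p => (evx (Real.log p) b).re) -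
        (a.coeff 0 + b.coeff 0) * lam ε =
        ((E ε fun p => (evx (Real.log p) a).re) - a.coeff 0 * lam ε) +
        ((E ε fun p => (evx (Real.log p) b).re) - b.coeff 0 * lam ε) := by ring
    rw [h7]
    exact (abs_add_le _ _).trans (add_le_add h3 h4)
  | single ν r =>
    have h1 : ∀ ε : ℝ, (E ε fun p => (evx (Real.log p) (AddMonoidAlgebra.single ν r)).re) =
        r * E ε fun p => (((p : ℕ) : ℂ) ^ (ν * I)).re := by
      intro ε
      rw [← E_const_mul]
      congr 1
      funext p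
      rw [evx_log_single, Complex.re_ofReal_mul]
    simp only [h1, AddMonoidAlgebra.coeff_single, Finsupp.single_apply]
    by_cases hν : ν = 0
    · refine ⟨0, Filter.Eventually.of_forall fun ε => ?_⟩
      have h2 : (E ε fun p => (((p : ℕ) : ℂ) ^ (ν * I)).re) = lam ε := by
        rw [E, lam]
        refine tsum_congr fun p => ?_
        rw [hν]
        simp
      rw [h2, if_pos hν, sub_self, abs_zero]
    · obtain ⟨C, hC⟩ := E_cos_bounded hν
      refine ⟨|r| * C, ?_⟩
      filter_upwards [hC] with ε hε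
      rw [if_neg hν, zero_mul, sub_zero, abs_mul]
      exact mul_le_mul_of_nonneg_left hε (abs_nonneg _)

theorem claim2 (t : Nat.Primes → ℂ) (b : ℝ) (ht : ∀ p, ‖t p‖ ≤ b) (m : ℝ → ℤ)
    (h : ∀ τ : ℝ, ∃ C : ℝ, ∀ᶠ ε : ℝ in 𝓝[>] 0,
      |(E ε fun p => (t p * ((p : ℕ) : ℂ) ^ (-(τ * I))).re) + m τ * lam ε| ≤ C) (P : TrigA) :
    ∃ C : ℝ, ∀ᶠ ε : ℝ in 𝓝[>] 0,
      |(E ε fun p => (t p * conj (evx (Real.log p) P)).re) +
        (P.coeff.sum fun ν r => r * m ν) * lam ε| ≤ C := by
  have hb : 0 ≤ b := (norm_nonneg _).trans (ht ⟨2, Nat.prime_two⟩)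
  induction P using AddMonoidAlgebra.induction_linear with
  | zero => exact ⟨0, Filter.Eventually.of_forall fun ε => by simp [E]⟩
  | add P Q hP hQ =>
    obtain ⟨C₁, h1⟩ := hP
    obtain ⟨C₂, h2⟩ := hQ
    obtain ⟨A₁, hA0, hA⟩ := evx_bounded P
    obtain ⟨A₂, hB0, hB⟩ := evx_bounded Q
    refine ⟨C₁ + C₂, ?_⟩
    filter_upwards [h1, h2, self_mem_nhdsWithin] with ε h3 h4 h5
    have hε : (0 : ℝ) < ε := h5
    have hn : ∀ (R : TrigA) (A : ℝ), (∀ x, ‖evx x R‖ ≤ A) → ∀ p : Nat.Primes,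
        |(t p * conj (evx (Real.log p) R)).re| ≤ b * A := by
      intro R A hR p
      refine (Complex.abs_re_le_norm _).trans ?_
      rw [norm_mul, Complex.norm_conj]
      exact mul_le_mul (ht p) (hR _) (norm_nonneg _) hb
    have h6 : (E ε fun p => (t p * conj (evx (Real.log p) (P + Q))).re) =
        (E ε fun p => (t p * conj (evx (Real.log p) P)).re) +
          E ε fun p => (t p * conj (evx (Real.log p) Q)).re := by
      rw [← E_add hε (hn P A₁ hA) (hn Q A₂ hB)]
      congr 1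
      funext p
      rw [map_add, map_add, mul_add, Complex.add_re]
    rw [h6, AddMonoidAlgebra.coeff_add, Finsupp.sum_add_index' (by simp) (by intros; ring)]
    have h7 : (E ε fun p => (t p * conj (evx (Real.log p) P)).re) +
          (E ε fun p => (t p * conj (evx (Real.log p) Q)).re) +
        ((P.coeff.sum fun ν r => r * m ν) + Q.coeff.sum fun ν r => r * m ν) * lam ε =
        ((E ε fun p => (t p * conj (evx (Real.log p) P)).re) +
          (P.coeff.sum fun ν r => r * m ν) * lam ε) +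
        ((E ε fun p => (t p * conj (evx (Real.log p) Q)).re) +
          (Q.coeff.sum fun ν r => r * m ν) * lam ε) := by ring
    rw [h7]
    exact (abs_add_le _ _).trans (add_le_add h3 h4)
  | single ν r =>
    obtain ⟨C, hC⟩ := h ν
    refine ⟨|r| * C, ?_⟩
    filter_upwards [hC] with ε hε
    have h1 : (E ε fun p => (t p * conj (evx (Real.log p) (AddMonoidAlgebra.single ν r))).re) =
        r * E ε fun p => (t p * ((p : ℕ) : ℂ) ^ (-(ν * I))).re := by
      rw [← E_const_mul]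
      congr 1
      funext p
      rw [evx_log_single, map_mul, Complex.conj_ofReal, conj_prime_cpow_I, mul_left_comm,
        Complex.re_ofReal_mul]
    rw [h1, AddMonoidAlgebra.coeff_single, Finsupp.sum_single_index (by simp), mul_assoc,
      ← mul_add, abs_mul]
    exact mul_le_mul_of_nonneg_left hε (abs_nonneg _)

theorem young_aux (b y : ℝ) (hb : 0 ≤ b) (hy : 0 ≤ y) (n : ℕ) :
    ((n : ℝ) + 1) * (b * y ^ n) ≤ b ^ (n + 1) + n * y ^ (n + 1) := by
  induction n with
  | zero => simp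
  | succ n ih =>
    have h1 : b ^ (n + 1 + 1) + ((n + 1 : ℕ) : ℝ) * y ^ (n + 1 + 1) -
        (((n + 1 : ℕ) : ℝ) + 1) * (b * y ^ (n + 1)) =
        b * (b ^ (n + 1) + n * y ^ (n + 1) - ((n : ℝ) + 1) * (b * y ^ n)) +
          ((n : ℝ) + 1) * (y ^ n * (b - y) ^ 2) := by
      push_cast; ring
    have h2 : 0 ≤ b * (b ^ (n + 1) + n * y ^ (n + 1) - ((n : ℝ) + 1) * (b * y ^ n)) :=
      mul_nonneg hb (by linarith)
    have h3 : 0 ≤ ((n : ℝ) + 1) * (y ^ n * (b - y) ^ 2) := by positivity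
    linarith

/-- the vertical orthogonality relations on the edge -/
theorem vert_orth {k l : ℝ} (hkl : k ≠ l) : ∃ C : ℝ, ∀ᶠ ε : ℝ in 𝓝[>] 0,
    |E ε fun p => (((p : ℕ) : ℂ) ^ (k * I) * conj (((p : ℕ) : ℂ) ^ (l * I))).re| ≤ C := by
  obtain ⟨C, hC⟩ := E_cos_bounded (sub_ne_zero.2 hkl)
  refine ⟨C, ?_⟩
  filter_upwards [hC] with ε hε
  convert hε using 2
  congr 1
  funext p
  have h0 : ((p : ℕ) : ℂ) ≠ 0 := by exact_mod_cast p.2.ne_zero
  rw [conj_prime_cpow_I, ← Complex.cpow_add _ _ h0]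
  congr 2
  push_cast
  ring

/-- The edge divisor is finite and its Fourier transform is bounded by `b`. -/
theorem edge_divisor (t : Nat.Primes → ℂ) (b : ℝ) (ht : ∀ p, ‖t p‖ ≤ b) (m : ℝ → ℤ)
    (h : ∀ τ : ℝ, ∃ C : ℝ, ∀ᶠ ε : ℝ in 𝓝[>] 0,
      |(E ε fun p => (t p * ((p : ℕ) : ℂ) ^ (-(τ * I))).re) + m τ * lam ε| ≤ C) :
    ∃ T : Finset ℝ, (∀ τ, τ ∈ T ↔ m τ ≠ 0) ∧
      ∀ x : ℝ, ‖∑ τ ∈ T, (m τ : ℂ) * Complex.exp (((τ * x : ℝ) : ℂ) * I)‖ ≤ b := by
  classical
  have hb : 0 ≤ b := (norm_nonneg _).trans (ht ⟨2, Nat.prime_two⟩)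
  -- finiteness by Bessel
  have hbessel : ∀ K : Finset ℝ, ∑ τ ∈ K, (m τ : ℝ) ^ 2 ≤ b ^ 2 := by
    intro K
    refine bessel K t (fun τ p => ((p : ℕ) : ℂ) ^ ((τ : ℂ) * I)) (fun τ => (m τ : ℝ)) b ht
      (fun τ p => (norm_prime_cpow_I p τ).le) (fun k _ l _ hkl => vert_orth hkl) ?_
    intro τ _
    obtain ⟨C, hC⟩ := h τ
    refine ⟨|(m τ : ℝ)| * C, ?_⟩
    filter_upwards [hC] with ε hε
    simp only [conj_prime_cpow_I]
    have h1 : (m τ : ℝ) * (E ε fun p => (t p * ((p : ℕ) : ℂ) ^ (-(τ * I))).re) +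
        (m τ : ℝ) ^ 2 * lam ε =
        m τ * ((E ε fun p => (t p * ((p : ℕ) : ℂ) ^ (-(τ * I))).re) + m τ * lam ε) := by ring
    have h2 := le_abs_self ((m τ : ℝ) *
      ((E ε fun p => (t p * ((p : ℕ) : ℂ) ^ (-(τ * I))).re) + m τ * lam ε))
    rw [abs_mul] at h2
    have h3 := mul_le_mul_of_nonneg_left hε (abs_nonneg (m τ : ℝ))
    linarith
  have hfin : {τ : ℝ | m τ ≠ 0}.Finite := by
    by_contra hinf
    obtain ⟨K, hK1, hK2⟩ := Set.Infinite.exists_subset_card_eq hinf (⌊b ^ 2⌋₊ + 1)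
    have h1 : (K.card : ℝ) ≤ ∑ τ ∈ K, (m τ : ℝ) ^ 2 := by
      rw [← nsmul_one, ← Finset.sum_const]
      refine Finset.sum_le_sum fun τ hτ => ?_
      have h2 : m τ ≠ 0 := hK1 hτ
      have h3 : (1 : ℤ) ≤ m τ ^ 2 := by
        have := sq_pos_of_ne_zero h2
        omega
      exact_mod_cast h3
    have h2 := hbessel K
    rw [hK2] at h1
    push_cast at h1
    have h3 := Nat.lt_floor_add_one (b ^ 2)
    linarith
  refine ⟨hfin.toFinset, fun τ => by simp, ?_⟩
  set T := hfin.toFinset with hT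
  set M : TrigA := AddMonoidAlgebra.ofCoeff (Finsupp.onFinset T (fun τ => (m τ : ℝ))
    (fun τ hτ => by
      rw [hT, Set.Finite.mem_toFinset]
      intro h0
      exact hτ (by rw [h0]; simp))) with hM
  have hMc : ∀ τ, M.coeff τ = m τ := fun τ => rfl
  have hmom : ∀ N : ℕ, 1 ≤ N → ((M * st M) ^ N).coeff 0 ≤ b ^ (2 * N) := by
    intro N hN
    obtain ⟨N, rfl⟩ := Nat.exists_eq_add_of_le' hN
    set Q : TrigA := M * (M * st M) ^ N with hQ
    set c : ℝ := ((M * st M) ^ (N + 1)).coeff 0 with hc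
    have h1 : (Q.coeff.sum fun ν r => r * (m ν : ℝ)) = c := by
      have h2 := pairing Q M
      simp only [hMc] at h2
      rw [← h2, hc, hQ]
      congr 2
      rw [pow_succ]
      ring
    obtain ⟨C₂, hC₂⟩ := claim2 t b ht m h Q
    rw [h1] at hC₂
    obtain ⟨C₁, hC₁⟩ := claim1 ((M * st M) ^ (N + 1))
    rw [← hc] at hC₁
    obtain ⟨A₁, hA0, hA⟩ := evx_bounded M
    have key : ∀ᶠ ε : ℝ in 𝓝[>] 0,
        0 ≤ (b ^ (2 * (N + 1)) - c) * lam ε + ((2 * N + 1) * C₁ + (2 * N + 2) * C₂) := by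
      filter_upwards [hC₁, hC₂, self_mem_nhdsWithin] with ε h3 h4 h5
      have hε : (0 : ℝ) < ε := h5
      have hpt : ∀ p : Nat.Primes, -(2 * N + 2) * (t p * conj (evx (Real.log p) Q)).re ≤
          b ^ (2 * (N + 1)) + (2 * N + 1) * (evx (Real.log p) ((M * st M) ^ (N + 1))).re := by
        intro p
        set y := ‖evx (Real.log p) M‖ with hy
        have hy0 : 0 ≤ y := norm_nonneg _
        have e1 : evx (Real.log p) (M * st M) = ((y ^ 2 : ℝ) : ℂ) := by
          rw [map_mul, evx_st, Complex.mul_conj, Complex.normSq_eq_norm_sq]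
        have e2 : (evx (Real.log p) ((M * st M) ^ (N + 1))).re = y ^ (2 * N + 2) := by
          rw [map_pow, e1, ← Complex.ofReal_pow, Complex.ofReal_re, ← pow_mul]
          congr 1
        have e3 : ‖evx (Real.log p) Q‖ = y ^ (2 * N + 1) := by
          rw [hQ, map_mul, map_pow, e1, norm_mul, norm_pow, Complex.norm_real, Real.norm_eq_abs,
            abs_of_nonneg (sq_nonneg _), ← hy, ← pow_mul, pow_succ, mul_comm]
        have e4 : -(t p * conj (evx (Real.log p) Q)).re ≤ b * y ^ (2 * N + 1) := by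
          refine (neg_le_abs _).trans ((Complex.abs_re_le_norm _).trans ?_)
          rw [norm_mul, Complex.norm_conj, e3]
          exact mul_le_mul_of_nonneg_right (ht p) (by positivity)
        have e5 := young_aux b y hb hy0 (2 * N + 1)
        push_cast at e5
        have e6 : (2 * N + 1 + 1 : ℕ) = 2 * (N + 1) := by ring
        rw [e6] at e5
        rw [e2]
        have e7 : 2 * N + 2 = 2 * (N + 1) := by ring
        rw [e7]
        have e8 : (0 : ℝ) ≤ 2 * N + 2 := by positivity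
        have e9 := mul_le_mul_of_nonneg_left e4 e8
        linarith
      have hB1 : ∀ p : Nat.Primes, |-(2 * N + 2) * (t p * conj (evx (Real.log p) Q)).re| ≤
          (2 * N + 2) * (b * A₁ ^ (2 * N + 1)) := by
        intro p
        have e3 : ‖evx (Real.log p) Q‖ ≤ A₁ ^ (2 * N + 1) := by
          have e1 : evx (Real.log p) (M * st M) = ((‖evx (Real.log p) M‖ ^ 2 : ℝ) : ℂ) := by
            rw [map_mul, evx_st, Complex.mul_conj, Complex.normSq_eq_norm_sq]
          rw [hQ, map_mul, map_pow, e1, norm_mul, norm_pow, Complex.norm_real, Real.norm_eq_abs,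
            abs_of_nonneg (sq_nonneg _), ← pow_mul, mul_comm, ← pow_succ]
          exact pow_le_pow_left₀ (norm_nonneg _) (hA _) _
        rw [abs_mul, abs_neg, abs_of_nonneg (by positivity : (0 : ℝ) ≤ 2 * N + 2)]
        refine mul_le_mul_of_nonneg_left ?_ (by positivity)
        refine (Complex.abs_re_le_norm _).trans ?_
        rw [norm_mul, Complex.norm_conj]
        exact mul_le_mul (ht p) e3 (norm_nonneg _) hb
      obtain ⟨A₂, hA20, hA2⟩ := evx_bounded ((M * st M) ^ (N + 1))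
      have hle : E ε (fun p => -(2 * N + 2) * (t p * conj (evx (Real.log p) Q)).re) ≤
          E ε (fun p => b ^ (2 * (N + 1)) +
            (2 * N + 1) * (evx (Real.log p) ((M * st M) ^ (N + 1))).re) := by
        have s1 := summable_E hε hB1
        have s2 : Summable fun p : Nat.Primes => (b ^ (2 * (N + 1)) +
            (2 * N + 1) * (evx (Real.log p) ((M * st M) ^ (N + 1))).re) *
              (p : ℝ) ^ (-(1 + ε)) := by
          refine summable_E hε (B := b ^ (2 * (N + 1)) + (2 * N + 1) * A₂) fun p => ?_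
          refine (abs_add_le _ _).trans (add_le_add ?_ ?_)
          · rw [abs_of_nonneg (by positivity)]
          · rw [abs_mul, abs_of_nonneg (by positivity : (0 : ℝ) ≤ 2 * N + 1)]
            exact mul_le_mul_of_nonneg_left ((Complex.abs_re_le_norm _).trans (hA2 _))
              (by positivity)
        exact Summable.tsum_le_tsum
          (fun p => mul_le_mul_of_nonneg_right (hpt p) (w_nonneg ε p)) s1 s2
      have hE1 : E ε (fun p => -(2 * N + 2) * (t p * conj (evx (Real.log p) Q)).re) =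
          -(2 * N + 2) * E ε (fun p => (t p * conj (evx (Real.log p) Q)).re) := E_const_mul _ _
      have hE2 : E ε (fun p => b ^ (2 * (N + 1)) +
            (2 * N + 1) * (evx (Real.log p) ((M * st M) ^ (N + 1))).re) =
          b ^ (2 * (N + 1)) * lam ε +
            (2 * N + 1) * E ε (fun p => (evx (Real.log p) ((M * st M) ^ (N + 1))).re) := by
        rw [E_add hε (B := b ^ (2 * (N + 1))) (B' := (2 * N + 1) * A₂)]
        · rw [E_const_mul]
          congr 1
          rw [E, lam, ← tsum_mul_left]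
        · intro p
          rw [abs_of_nonneg (by positivity)]
        · intro p
          rw [abs_mul, abs_of_nonneg (by positivity : (0 : ℝ) ≤ 2 * N + 1)]
          exact mul_le_mul_of_nonneg_left ((Complex.abs_re_le_norm _).trans (hA2 _))
            (by positivity)
      rw [hE1, hE2] at hle
      have h6 := (abs_le.1 h3).2
      have h7 := (abs_le.1 h4).2
      have hN0 : (0 : ℝ) ≤ 2 * N + 1 := by positivity
      have hN2 : (0 : ℝ) ≤ 2 * N + 2 := by positivity
      have h8 := mul_le_mul_of_nonneg_left h6 hN0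
      have h9 := mul_le_mul_of_nonneg_left h7 hN2
      linarith
    by_contra hcon
    push Not at hcon
    have hneg : b ^ (2 * (N + 1)) - c < 0 := by linarith
    have h5 : Tendsto (fun ε => (b ^ (2 * (N + 1)) - c) * lam ε +
        ((2 * N + 1) * C₁ + (2 * N + 2) * C₂)) (𝓝[>] 0) atBot :=
      tendsto_atBot_add_const_right _ _ (lam_tendsto.const_mul_atTop_of_neg hneg)
    obtain ⟨ε, h6, h7⟩ := (key.and (h5.eventually_lt_atBot 0)).exists
    linarith
  intro x
  have hx := norm_le_of_moments M b hb hmom x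
  have h1 : evx x M = ∑ τ ∈ T, (m τ : ℂ) * Complex.exp (((τ * x : ℝ) : ℂ) * I) := by
    rw [evx_eq_sum, hM, AddMonoidAlgebra.coeff_ofCoeff, Finsupp.onFinset_sum]
    · push_cast
      rfl
    · intro τ; simp
  rwa [h1] at hx

end Pool.Agent.H341R2
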