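import Pool.Agent.H341R2.Bessel

set_option autoImplicit false

namespace Pool.Agent.H341R2

open Complex Filter Topology

theorem tprod_split {Good : Nat.Primes → Prop} [DecidablePred Good]
    (hfin : {p | ¬ Good p}.Finite) (G b : Nat.Primes → ℂ)
    (hsum : Summable fun p => if Good p then G p else 0) :
    ∏' p, (if Good p then exp (G p) else b p) =
      (∏ p ∈ hfin.toFinset, b p) * exp (∑' p, if Good p then G p else 0) := by
  have h1 := hsum.hasSum.cexp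
  have h2 : HasProd (fun p => if Good p then (1 : ℂ) else b p)
      (∏ p ∈ hfin.toFinset, if Good p then (1 : ℂ) else b p) := by
    apply hasProd_prod_of_ne_finset_one
    intro p hp
    have : Good p := by
      by_contra h
      exact hp (hfin.mem_toFinset.2 h)
    rw [if_pos this]
  have h3 := h2.mul h1
  have h4 : (fun p => (if Good p then (1 : ℂ) else b p) *
      (exp ∘ fun p => if Good p then G p else 0) p) =
      fun p => if Good p then exp (G p) else b p := by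
    funext p
    by_cases hg : Good p <;> simp [hg]
  rw [h4] at h3
  rw [h3.tprod_eq]
  congr 1
  refine Finset.prod_congr rfl fun p hp => ?_
  rw [if_neg (hfin.mem_toFinset.1 hp)]

theorem summable_and_bound {Good : Nat.Primes → Prop} [DecidablePred Good] {ε : ℝ} (hε : 0 < ε)
    (G a : Nat.Primes → ℂ) {C K : ℝ}
    (ha : ∀ p, ‖a p‖ ≤ K) (ha0 : ∀ p, ¬ Good p → a p = 0)
    (hG : ∀ p, Good p → ‖G p - a p * ((p : ℝ) ^ (-(1 + ε)) : ℝ)‖ ≤ C * (p : ℝ) ^ (-2 : ℝ)) :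
    (Summable fun p => if Good p then G p else 0) ∧
      |(∑' p, if Good p then G p else 0).re - E ε fun p => (a p).re| ≤ |C| * K2 := by
  have hsa : Summable fun p : Nat.Primes => a p * ((p : ℝ) ^ (-(1 + ε)) : ℝ) := by
    refine Summable.of_norm_bounded
      ((summable_prime_rpow (r := -(1 + ε)) (by linarith)).mul_left K) fun p => ?_
    rw [norm_mul, Complex.norm_real, Real.norm_eq_abs, abs_of_nonneg (w_nonneg ε p)]
    exact mul_le_mul_of_nonneg_right (ha p) (w_nonneg ε p)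
  have hbd : ∀ p, ‖(if Good p then G p else 0) - a p * ((p : ℝ) ^ (-(1 + ε)) : ℝ)‖ ≤
      |C| * (p : ℝ) ^ (-2 : ℝ) := by
    intro p
    split_ifs with hg
    · exact (hG p hg).trans (mul_le_mul_of_nonneg_right (le_abs_self C) (by positivity))
    · rw [ha0 p hg]
      simp
      positivity
  have hsd : Summable fun p : Nat.Primes =>
      (if Good p then G p else 0) - a p * ((p : ℝ) ^ (-(1 + ε)) : ℝ) :=
    Summable.of_norm_bounded ((summable_prime_rpow (by norm_num)).mul_left |C|) hbd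
  have hs : Summable fun p => if Good p then G p else 0 := by
    have := hsd.add hsa
    simpa using this
  refine ⟨hs, ?_⟩
  have h1 : E ε (fun p => (a p).re) =
      (∑' p : Nat.Primes, a p * ((p : ℝ) ^ (-(1 + ε)) : ℝ)).re := by
    rw [E, Complex.re_tsum hsa]
    exact tsum_congr fun p => by rw [Complex.re_mul_ofReal]
  rw [h1, ← Complex.sub_re, ← hs.tsum_sub hsa]
  refine (Complex.abs_re_le_norm _).trans ?_
  rw [K2, ← tsum_mul_left]
  exact tsum_of_norm_bounded ((summable_prime_rpow (by norm_num)).mul_left |C|).hasSum hbd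

/-- the logarithm of a local factor is its first term up to `O(p⁻²)` -/
theorem goodLog_bound (c : ℕ → ℂ) (K w : ℝ) (hK : 0 ≤ K) (p : Nat.Primes)
    (hc : ∀ m : ℕ, ‖c (m + 1)‖ ≤ K * ((p : ℝ) ^ w) ^ (m + 1)) (s : ℂ) (hs : w + 1 ≤ s.re) :
    ‖(∑' m : ℕ, c (m + 1) * ((p : ℕ) : ℂ) ^ (-((m + 1 : ℂ) * s)) / (m + 1 : ℂ)) -
      c 1 * ((p : ℕ) : ℂ) ^ (-s)‖ ≤ 2 * K * (p : ℝ) ^ (-2 : ℝ) := by
  have hp0 : (0 : ℝ) < p := by exact_mod_cast p.2.pos
  have hp1 : (1 : ℝ) ≤ p := by exact_mod_cast p.2.one_lt.le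
  have hp2 : (2 : ℝ) ≤ p := by exact_mod_cast p.2.two_le
  set r : ℝ := (p : ℝ)⁻¹ with hr
  have hr0 : 0 ≤ r := by positivity
  have hr2 : r ≤ 1 / 2 := by
    rw [hr, one_div]
    exact inv_anti₀ (by norm_num) hp2
  have hterm : ∀ m : ℕ, ‖c (m + 1) * ((p : ℕ) : ℂ) ^ (-((m + 1 : ℂ) * s)) / (m + 1 : ℂ)‖ ≤
      K * r ^ (m + 1) := by
    intro m
    rw [norm_div, norm_mul]
    have h1 : ‖((p : ℕ) : ℂ) ^ (-((m + 1 : ℂ) * s))‖ = ((p : ℝ) ^ (-s.re)) ^ (m + 1) := by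
      rw [norm_prime_cpow, ← Real.rpow_natCast, ← Real.rpow_mul hp0.le]
      congr 1
      simp
      ring
    have h2 : (1 : ℝ) ≤ ‖(m + 1 : ℂ)‖ := by
      have : (m + 1 : ℂ) = ((m + 1 : ℕ) : ℂ) := by push_cast; rfl
      rw [this, Complex.norm_natCast]
      push_cast
      linarith [(Nat.cast_nonneg m : (0 : ℝ) ≤ m)]
    rw [h1]
    refine (div_le_self (by positivity) h2).trans ?_
    calc ‖c (m + 1)‖ * ((p : ℝ) ^ (-s.re)) ^ (m + 1)
        ≤ K * ((p : ℝ) ^ w) ^ (m + 1) * ((p : ℝ) ^ (-s.re)) ^ (m + 1) :=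
          mul_le_mul_of_nonneg_right (hc m) (by positivity)
      _ = K * ((p : ℝ) ^ (w + -s.re)) ^ (m + 1) := by
          rw [Real.rpow_add hp0, mul_pow]; ring
      _ ≤ K * r ^ (m + 1) := by
          refine mul_le_mul_of_nonneg_left (pow_le_pow_left₀ (by positivity) ?_ _) hK
          rw [hr, ← Real.rpow_neg_one]
          exact Real.rpow_le_rpow_of_exponent_le hp1 (by linarith)
  have hgeo : Summable fun m : ℕ => K * r ^ (m + 1) := by
    have := (summable_geometric_of_lt_one hr0 (by linarith)).mul_left (K * r)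
    refine this.congr fun m => ?_
    rw [pow_succ]; ring
  have hsum : Summable fun m : ℕ =>
      c (m + 1) * ((p : ℕ) : ℂ) ^ (-((m + 1 : ℂ) * s)) / (m + 1 : ℂ) :=
    Summable.of_norm_bounded hgeo hterm
  rw [hsum.tsum_eq_zero_add]
  have h0 : c (0 + 1) * ((p : ℕ) : ℂ) ^ (-(((0 : ℕ) + 1 : ℂ) * s)) / ((0 : ℕ) + 1 : ℂ) =
      c 1 * ((p : ℕ) : ℂ) ^ (-s) := by
    simp
  rw [h0, add_sub_cancel_left]
  have hgeo2 : HasSum (fun m : ℕ => K * r ^ (m + 1 + 1)) (K * r ^ 2 * (1 - r)⁻¹) := by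
    have := (hasSum_geometric_of_lt_one hr0 (by linarith)).mul_left (K * r ^ 2)
    refine this.congr_fun ?_ |> fun h => h
    intro m
    ring
  have h3 := tsum_of_norm_bounded hgeo2 fun m => hterm (m + 1)
  refine h3.trans ?_
  have h4 : (1 - r)⁻¹ ≤ 2 := by
    rw [inv_le_comm₀ (by linarith) (by norm_num)]
    linarith
  have h5 : (p : ℝ) ^ (-2 : ℝ) = r ^ 2 := by
    rw [hr, Real.rpow_neg hp0.le, inv_pow]
    norm_num
  rw [h5]
  nlinarith [mul_le_mul_of_nonneg_left h4 (by positivity : 0 ≤ K * r ^ 2)]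

/-- `log |Λ(ρ + ε)| = ord · log ε + O(1)` -/
theorem log_norm_meromorphic {Λ : ℂ → ℂ} {ρ : ℂ} (hΛ : MeromorphicAt Λ ρ) {m : ℤ}
    (hm : meromorphicOrderAt Λ ρ = m) :
    ∃ C : ℝ, ∀ᶠ ε : ℝ in 𝓝[>] 0, Λ (ρ + ε) ≠ 0 ∧
      |Real.log ‖Λ (ρ + ε)‖ - m * Real.log ε| ≤ C := by
  obtain ⟨g, hg, hg0, hgΛ⟩ := (meromorphicOrderAt_eq_int_iff hΛ).1 hm
  have hpath0 : Tendsto (fun ε : ℝ => ρ + ε) (𝓝[>] 0) (𝓝 ρ) := by
    have : ContinuousAt (fun ε : ℝ => ρ + (ε : ℂ)) 0 := by fun_prop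
    have h2 := this.tendsto
    simp only [ofReal_zero, add_zero] at h2
    exact h2.mono_left nhdsWithin_le_nhds
  have hpath : Tendsto (fun ε : ℝ => ρ + ε) (𝓝[>] 0) (𝓝[≠] ρ) := by
    rw [tendsto_nhdsWithin_iff]
    refine ⟨hpath0, ?_⟩
    filter_upwards [self_mem_nhdsWithin] with ε hε
    have hε' : (0 : ℝ) < ε := hε
    simp only [Set.mem_compl_iff, Set.mem_singleton_iff, add_eq_left]
    exact_mod_cast hε'.ne'
  have hlog : Tendsto (fun ε : ℝ => Real.log ‖g (ρ + ε)‖) (𝓝[>] 0) (𝓝 (Real.log ‖g ρ‖)) :=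
    ((hg.continuousAt.tendsto.comp hpath0).norm).log (norm_ne_zero_iff.2 hg0)
  obtain ⟨C, hC⟩ := (hlog.abs).isBoundedUnder_le
  have hne : ∀ᶠ ε : ℝ in 𝓝[>] 0, g (ρ + ε) ≠ 0 :=
    (hg.continuousAt.tendsto.comp hpath0).eventually_ne hg0
  refine ⟨C, ?_⟩
  filter_upwards [Filter.eventually_map.1 hC, hpath.eventually hgΛ, hne, self_mem_nhdsWithin]
    with ε h1 h2 h3 h4
  have hε : (0 : ℝ) < ε := h4
  have hz : (ρ + ε - ρ : ℂ) = ε := by ring
  have h5 : Λ (ρ + ε) = (ε : ℂ) ^ m * g (ρ + ε) := by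
    rw [h2, hz, smul_eq_mul]
  have hεm : ((ε : ℂ)) ^ m ≠ 0 := zpow_ne_zero _ (by exact_mod_cast hε.ne')
  refine ⟨by rw [h5]; exact mul_ne_zero hεm h3, ?_⟩
  have h6 : Real.log ‖Λ (ρ + ε)‖ = m * Real.log ε + Real.log ‖g (ρ + ε)‖ := by
    rw [h5, norm_mul, Real.log_mul (norm_ne_zero_iff.2 hεm) (norm_ne_zero_iff.2 h3), norm_zpow,
      Real.log_zpow, Complex.norm_real, Real.norm_eq_abs, abs_of_pos hε]
  rw [h6, add_sub_cancel_left]
  exact h1

end Pool.Agent.H341R2
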