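import Pool.Agent.H341R2.Bessel
import Pool.Agent.Helper919.Char

set_option autoImplicit false

namespace Pool.Agent.H341R2

open Complex Filter Topology ComplexConjugate
open Pool.Agent.Helper919 (XX XX_apply psi psi_apply psi_ne_one XX_abs_le)

theorem XX_mul_left (D D' : ℤ) (n : ℕ) : XX D n * XX D' n = XX (D * D') n := by
  rw [XX_apply, XX_apply, XX_apply]
  split_ifs with h
  · rw [jacobiSym.mul_left]; push_cast; rfl
  · simp

theorem eq_of_isSquare_mul {D D' : ℤ} (hD : Squarefree D) (hD' : Squarefree D')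
    (h : IsSquare (D * D')) : D = D' := by
  obtain ⟨k, hk⟩ := h
  have hD0 : D ≠ 0 := hD.ne_zero
  have hD0' : D' ≠ 0 := hD'.ne_zero
  have h1 : D ∣ k := by
    have h2 : D ∣ k ^ 2 := by
      rw [sq, ← hk]
      exact dvd_mul_right _ _
    exact (hD.dvd_pow_iff_dvd two_ne_zero).1 h2
  obtain ⟨c, hc⟩ := h1
  have h3 : D' = D * (c * c) := by
    have : D * D' = D * (D * (c * c)) := by
      rw [hk, hc]; ring
    exact mul_left_cancel₀ hD0 this
  have h4 : IsUnit c := by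
    apply hD' c
    rw [h3]
    exact dvd_mul_left _ _
  have h5 : c * c = 1 := by
    rcases Int.isUnit_iff.1 h4 with h | h <;> rw [h] <;> norm_num
  rw [h3, h5, mul_one]

/-- the function `p ↦ (D/p) p^{iτ}` -/
noncomputable def vv (k : ℤ × ℝ) (p : Nat.Primes) : ℂ :=
  ((XX k.1 p : ℝ) : ℂ) * ((p : ℕ) : ℂ) ^ (k.2 * I)

theorem norm_prime_cpow_I (p : Nat.Primes) (τ : ℝ) : ‖((p : ℕ) : ℂ) ^ (τ * I)‖ = 1 := by
  rw [Complex.norm_natCast_cpow_of_pos p.2.pos]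
  simp

theorem conj_prime_cpow_I (p : Nat.Primes) (τ : ℝ) :
    conj (((p : ℕ) : ℂ) ^ (τ * I)) = ((p : ℕ) : ℂ) ^ (-(τ * I)) := by
  have h0 : ((p : ℕ) : ℂ) ≠ 0 := by exact_mod_cast p.2.ne_zero
  rw [Complex.cpow_def_of_ne_zero h0, Complex.cpow_def_of_ne_zero h0, ← Complex.exp_conj]
  congr 1
  rw [map_mul, map_mul, Complex.conj_I, Complex.conj_ofReal, ← Complex.natCast_log,
    Complex.conj_ofReal]
  ring

theorem norm_vv_le (k : ℤ × ℝ) (p : Nat.Primes) : ‖vv k p‖ ≤ 1 := by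
  rw [vv, norm_mul, norm_prime_cpow_I, mul_one, Complex.norm_real]
  exact XX_abs_le _ _

theorem vv_orth {k l : ℤ × ℝ} (hk : Squarefree k.1) (hl : Squarefree l.1) (hkl : k ≠ l) :
    ∃ C : ℝ, ∀ᶠ ε : ℝ in 𝓝[>] 0, |E ε fun p => (vv k p * conj (vv l p)).re| ≤ C := by
  have hne : k.1 * l.1 ≠ 0 := mul_ne_zero hk.ne_zero hl.ne_zero
  have : NeZero (4 * (k.1 * l.1).natAbs) := ⟨by have := Int.natAbs_pos.2 hne; omega⟩
  have h : psi (k.1 * l.1) hne ≠ 1 ∨ (l.2 - k.2) ≠ 0 := by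
    by_cases h1 : k.1 = l.1
    · right
      intro h2
      exact hkl (Prod.ext h1 (by linarith))
    · left
      exact psi_ne_one _ hne fun h2 => h1 (eq_of_isSquare_mul hk hl h2)
  obtain ⟨C, hC⟩ := primeSum_bounded (psi (k.1 * l.1) hne) (l.2 - k.2) h
  refine ⟨C, ?_⟩
  filter_upwards [hC, self_mem_nhdsWithin] with ε h1 h2
  have hε : (0 : ℝ) < ε := h2
  convert h1 using 2
  rw [E, Complex.re_tsum]
  · refine tsum_congr fun p => ?_
    have h0 : ((p : ℕ) : ℂ) ≠ 0 := by exact_mod_cast p.2.ne_zero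
    have h3 : vv k p * conj (vv l p) = ((XX (k.1 * l.1) p : ℝ) : ℂ) *
        ((p : ℕ) : ℂ) ^ (-(((l.2 - k.2 : ℝ) : ℂ) * I)) := by
      rw [vv, vv, map_mul, Complex.conj_ofReal, conj_prime_cpow_I, ← XX_mul_left]
      push_cast
      have : -(((l.2 : ℂ) - k.2) * I) = k.2 * I + -(l.2 * I) := by ring
      rw [this, Complex.cpow_add _ _ h0]
      ring
    rw [h3, psi_apply]
    have h4 : ((p : ℕ) : ℂ) ^ (-(1 + ε + ((l.2 - k.2 : ℝ) : ℂ) * I) : ℂ) =
        ((p : ℕ) : ℂ) ^ (-(((l.2 - k.2 : ℝ) : ℂ) * I)) * (((p : ℝ) ^ (-(1 + ε)) : ℝ) : ℂ) := by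
      rw [Complex.ofReal_cpow (by positivity)]
      push_cast
      rw [← Complex.cpow_add _ _ h0]
      congr 1
      ring
    rw [h4, ← mul_assoc, Complex.re_mul_ofReal]
  · refine Summable.of_norm_bounded (summable_prime_rpow (r := -(1 + ε)) (by linarith)) fun p => ?_
    rw [norm_mul, norm_prime_cpow]
    refine mul_le_of_le_one_left (by positivity) ?_ |>.trans (le_of_eq ?_)
    · exact (psi (k.1 * l.1) hne).norm_le_one _
    · congr 1
      simp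

/-- Bessel's inequality for quadratic twists -/
theorem twist_bessel (t : Nat.Primes → ℂ) (b : ℝ) (ht : ∀ p, ‖t p‖ ≤ b) (K : Finset (ℤ × ℝ))
    (hsf : ∀ k ∈ K, Squarefree k.1) (m : ℤ × ℝ → ℝ)
    (hcorr : ∀ k ∈ K, ∃ C : ℝ, ∀ᶠ ε : ℝ in 𝓝[>] 0,
      m k * (E ε fun p => (t p * conj (vv k p)).re) ≤ -(m k) ^ 2 * lam ε + C) :
    ∑ k ∈ K, (m k) ^ 2 ≤ b ^ 2 := by
  classical
  exact bessel K t vv m b ht norm_vv_le (fun k hk l hl hkl => vv_orth (hsf k hk) (hsf l hl) hkl)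
    hcorr

end Pool.Agent.H341R2
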