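import Pool.Agent.H341R2.CurveFacts
import Pool.Agent.H341R2.EulerProd
import Pool.Agent.H341R2.TwistBessel

set_option autoImplicit false

namespace Pool.Agent.H341R2

open Complex Filter Topology ComplexConjugate Polynomial
open Pool.Agent.Helper919 (XX XX_apply psi psi_apply psi_ne_one XX_abs_le)

theorem finite_primes_dvd {N : ℤ} (hN : N ≠ 0) : {p : Nat.Primes | ((p : ℕ) : ℤ) ∣ N}.Finite := by
  have h1 : (N.natAbs.primeFactors : Set ℕ).Finite := Finset.finite_toSet _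
  refine (h1.preimage (f := fun p : Nat.Primes => (p : ℕ)) ?_).subset ?_
  · exact fun a _ b _ h => Subtype.ext h
  · intro p hp
    simp only [Set.mem_preimage, Finset.mem_coe, Nat.mem_primeFactors]
    refine ⟨p.2, ?_, Int.natAbs_ne_zero.2 hN⟩
    exact Int.natCast_dvd.1 hp

theorem exists_int_mul (u : ℚ[X]) : ∃ N : ℤ, N ≠ 0 ∧ ∃ U : ℤ[X],
    U.map (Int.castRingHom ℚ) = C (N : ℚ) * u := by
  obtain ⟨b, hb, h⟩ := IsLocalization.integerNormalization_spec (nonZeroDivisors ℤ) u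
  refine ⟨b, nonZeroDivisors.ne_zero hb, IsLocalization.integerNormalization (nonZeroDivisors ℤ) u, ?_⟩
  have h2 : (algebraMap ℤ ℚ) = Int.castRingHom ℚ := rfl
  rw [h2] at h
  rw [h]
  ext i
  simp

theorem finite_not_separable {f : ℤ[X]} (hf : (f.map (Int.castRingHom ℚ)).Separable) :
    {p : Nat.Primes | ¬ (f.map (Int.castRingHom (ZMod p))).Separable}.Finite := by
  obtain ⟨u, v, huv⟩ := hf
  obtain ⟨N, hN, U, hU⟩ := exists_int_mul u
  obtain ⟨M, hM, V, hV⟩ := exists_int_mul v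
  have key : C M * U * f + C N * V * derivative f = C (M * N) := by
    apply Polynomial.map_injective (Int.castRingHom ℚ) Int.cast_injective
    rw [Polynomial.map_add, Polynomial.map_mul, Polynomial.map_mul, Polynomial.map_mul,
      Polynomial.map_mul, hU, hV, map_C, map_C, map_C, ← derivative_map]
    simp only [eq_intCast, Int.cast_mul, C_mul]
    linear_combination (C (M : ℚ) * C (N : ℚ)) * huv
  refine (finite_primes_dvd (mul_ne_zero hM hN)).subset ?_
  intro p hp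
  by_contra hdvd
  apply hp
  have : Fact (p : ℕ).Prime := ⟨p.2⟩
  have hne : ((M * N : ℤ) : ZMod p) ≠ 0 := by
    rw [Ne, ZMod.intCast_zmod_eq_zero_iff_dvd]
    exact hdvd
  have h1 := congrArg (Polynomial.map (Int.castRingHom (ZMod p))) key
  rw [Polynomial.map_add, Polynomial.map_mul, Polynomial.map_mul, Polynomial.map_mul,
      Polynomial.map_mul, map_C, map_C, map_C, ← derivative_map] at h1
  simp only [eq_intCast] at h1
  refine ⟨C (((M * N : ℤ) : ZMod p)⁻¹) * (C ((M : ℤ) : ZMod p) * U.map (Int.castRingHom (ZMod p))),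
    C (((M * N : ℤ) : ZMod p)⁻¹) * (C ((N : ℤ) : ZMod p) * V.map (Int.castRingHom (ZMod p))), ?_⟩
  have h2 : C (((M * N : ℤ) : ZMod p)⁻¹) * C ((M * N : ℤ) : ZMod p) = 1 := by
    rw [← C_mul, inv_mul_cancel₀ hne, C_1]
  rw [← h2]
  linear_combination (C (((M * N : ℤ) : ZMod p)⁻¹)) * h1

theorem finite_bad {f : ℤ[X]} (hf : (f.map (Int.castRingHom ℚ)).Separable) {D : ℤ} (hD : D ≠ 0) :
    {p : Nat.Primes | ¬ GoodPrime f D p}.Finite := by
  have hf0 : f ≠ 0 := by
    rintro rfl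
    rw [Polynomial.map_zero] at hf
    exact not_separable_zero hf
  have h1 : (2 * D * f.leadingCoeff) ≠ 0 :=
    mul_ne_zero (mul_ne_zero two_ne_zero hD) (leadingCoeff_ne_zero.2 hf0)
  refine ((finite_primes_dvd h1).union (finite_not_separable hf)).subset ?_
  intro p hp
  rw [Set.mem_ofPred_eq, GoodPrime, not_and_or, not_not] at hp
  exact hp

/-- the constant bounding the normalized traces on `Hⁱ` of the `n`-th power -/
noncomputable def KK (f : ℤ[X]) (n : ℕ) : ℝ := (5 * f.natDegree + 3) ^ n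

theorem traceH_bound {f : ℤ[X]} (hd : 1 ≤ f.natDegree) {D : ℤ} {p : Nat.Primes}
    (h : GoodPrime f D p) (n i m : ℕ) (hm : m ≠ 0) :
    |(traceH n i f D p m : ℝ)| ≤ KK f n * ((p : ℝ) ^ ((i : ℝ) / 2)) ^ m := by
  have hp0 : (0 : ℝ) < p := by exact_mod_cast p.2.pos
  have h1 := coeff_bound (traceH1 f D p m) ((p : ℤ) ^ m) (Real.sqrt ((p : ℝ) ^ m))
    (5 * f.natDegree + 1) (Real.sqrt_nonneg _) (by positivity)
    (by rw [Real.sq_sqrt (by positivity)]; push_cast; rfl)
    (traceH1_bound h hd m hm) n i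
  rw [traceH]
  refine h1.trans (le_of_eq ?_)
  rw [KK]
  congr 1
  · ring
  · rw [Real.sqrt_eq_rpow, ← Real.rpow_natCast, ← Real.rpow_natCast, ← Real.rpow_natCast,
      ← Real.rpow_mul (by positivity), ← Real.rpow_mul hp0.le, ← Real.rpow_mul hp0.le]
    congr 1
    ring

open Classical in
/-- the coefficients `a_p`: normalized trace of Frobenius times `p^{-iτ}` -/
noncomputable def aa (n i : ℕ) (f : ℤ[X]) (D : ℤ) (τ : ℝ) (p : Nat.Primes) : ℂ :=
  if GoodPrime f D p then (((traceH n i f D p 1 : ℝ) * (p : ℝ) ^ (-((i : ℝ) / 2)) : ℝ) : ℂ) *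
    ((p : ℕ) : ℂ) ^ (-(τ * I)) else 0

theorem norm_aa_le {f : ℤ[X]} (hd : 1 ≤ f.natDegree) (n i : ℕ) (D : ℤ) (τ : ℝ) (p : Nat.Primes) :
    ‖aa n i f D τ p‖ ≤ KK f n := by
  have hp0 : (0 : ℝ) < p := by exact_mod_cast p.2.pos
  have hK : 0 ≤ KK f n := by unfold KK; positivity
  rw [aa]
  split_ifs with h
  · have h1 : ‖((p : ℕ) : ℂ) ^ (-(τ * I))‖ = 1 := by
      have := norm_prime_cpow_I p (-τ)
      rwa [Complex.ofReal_neg, neg_mul] at this
    rw [norm_mul, h1, mul_one, Complex.norm_real, Real.norm_eq_abs, abs_mul,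
      abs_of_pos (Real.rpow_pos_of_pos hp0 _)]
    have h2 := traceH_bound hd h n i 1 one_ne_zero
    rw [pow_one] at h2
    calc |(traceH n i f D p 1 : ℝ)| * (p : ℝ) ^ (-((i : ℝ) / 2))
        ≤ KK f n * (p : ℝ) ^ ((i : ℝ) / 2) * (p : ℝ) ^ (-((i : ℝ) / 2)) :=
          mul_le_mul_of_nonneg_right h2 (by positivity)
      _ = KK f n := by
          rw [mul_assoc, ← Real.rpow_add hp0, add_neg_cancel, Real.rpow_zero, mul_one]
  · simpa using hK

/-- formula for `LFun` to the right of the edge -/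
theorem LFun_eq {f : ℤ[X]} (hf : (f.map (Int.castRingHom ℚ)).Separable) (hd : 1 ≤ f.natDegree)
    (n i : ℕ) {D : ℤ} (hD : D ≠ 0) (B : Nat.Primes → ℂ[X]) (τ : ℝ) {ε : ℝ} (hε : 0 < ε) :
    ∃ G : ℝ, |G - E ε fun p => (aa n i f D τ p).re| ≤ 2 * KK f n * K2 ∧
      ‖LFun n i f D B ((i / 2 + 1 : ℂ) + τ * I + ε)‖ =
        (∏ p ∈ (finite_bad hf hD).toFinset,
          ‖(B p).eval (((p : ℕ) : ℂ) ^ (-((i / 2 + 1 : ℂ) + τ * I + ε)))‖⁻¹) * Real.exp G := by
  classical
  set s : ℂ := (i / 2 + 1 : ℂ) + τ * I + ε with hs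
  have hK : 0 ≤ KK f n := by unfold KK; positivity
  have hsre : s.re = i / 2 + 1 + ε := by
    rw [hs]
    simp
  let G : Nat.Primes → ℂ := fun p => ∑' m : ℕ,
    (traceH n i f D p (m + 1) : ℂ) * ((p : ℕ) : ℂ) ^ (-((m + 1 : ℂ) * s)) / (m + 1 : ℂ)
  have hG : ∀ p, GoodPrime f D p →
      ‖G p - aa n i f D τ p * ((p : ℝ) ^ (-(1 + ε)) : ℝ)‖ ≤ 2 * KK f n * (p : ℝ) ^ (-2 : ℝ) := by
    intro p hp
    have hp0 : (0 : ℝ) < p := by exact_mod_cast p.2.pos
    have hpc : ((p : ℕ) : ℂ) ≠ 0 := by exact_mod_cast p.2.ne_zero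
    have h1 := goodLog_bound (fun m => (traceH n i f D p m : ℂ)) (KK f n) (i / 2) hK p
      (by
        intro m
        have h2 := traceH_bound hd hp n i (m + 1) (by omega)
        rwa [Complex.norm_intCast]) s (by rw [hsre]; linarith)
    have h3 : aa n i f D τ p * ((p : ℝ) ^ (-(1 + ε)) : ℝ) =
        (traceH n i f D p 1 : ℂ) * ((p : ℕ) : ℂ) ^ (-s) := by
      rw [aa, if_pos hp]
      push_cast
      rw [Complex.ofReal_cpow hp0.le, Complex.ofReal_cpow hp0.le]
      push_cast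
      rw [mul_assoc, mul_assoc, ← Complex.cpow_add _ _ hpc, ← Complex.cpow_add _ _ hpc]
      congr 2
      rw [hs]
      ring
    rw [h3]
    exact h1
  obtain ⟨hsum, hbd⟩ := summable_and_bound hε G (aa n i f D τ) (K := KK f n)
    (fun p => norm_aa_le hd n i D τ p) (fun p hp => by rw [aa, if_neg hp]) hG
  refine ⟨(∑' p, if GoodPrime f D p then G p else 0).re, ?_, ?_⟩
  · rwa [abs_of_nonneg (by positivity : 0 ≤ 2 * KK f n)] at hbd
  · have h1 := tprod_split (finite_bad hf hD) G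
      (fun p => ((B p).eval (((p : ℕ) : ℂ) ^ (-s)))⁻¹) hsum
    have h2 : LFun n i f D B s = ∏' p : Nat.Primes, if GoodPrime f D p then cexp (G p) else
        ((B p).eval (((p : ℕ) : ℂ) ^ (-s)))⁻¹ := by
      rw [LFun]
      rfl
    rw [h2, h1, norm_mul, Complex.norm_exp, norm_prod]
    simp only [norm_inv]

/-- twisting by `D` multiplies the odd-degree traces by `(D/p)` -/
theorem aa_twist {f : ℤ[X]} (n i : ℕ) (hi : Odd i) {D : ℤ} (τ : ℝ) (p : Nat.Primes) :
    aa n i f D τ p = aa n i f 1 0 p * conj (vv (D, τ) p) := by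
  have : Fact (p : ℕ).Prime := ⟨p.2⟩
  rw [vv, map_mul, Complex.conj_ofReal, conj_prime_cpow_I]
  by_cases h1 : GoodPrime f 1 p
  swap
  · have h2 : ¬ GoodPrime f D p := fun h => h1 h.one
    rw [aa, aa, if_neg h1, if_neg h2, zero_mul]
  have hodd : Odd (p : ℕ) := p.2.odd_of_ne_two h1.ne_two
  have hXX : XX D p = (legendreSym p D : ℝ) := by
    rw [XX_apply, if_pos hodd, jacobiSym.legendreSym.to_jacobiSym]
  by_cases hD : ((p : ℕ) : ℤ) ∣ D
  · have h2 : ¬ GoodPrime f D p := fun h => h.not_dvd hD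
    have h3 : legendreSym p D = 0 := by
      rw [legendreSym.eq_zero_iff, ZMod.intCast_zmod_eq_zero_iff_dvd]
      exact hD
    rw [aa, if_neg h2]
    simp only
    rw [hXX, h3]
    simp
  · have h2 : GoodPrime f D p := by
      refine ⟨fun h => ?_, h1.2⟩
      have h4 : Prime ((p : ℕ) : ℤ) := Nat.prime_iff_prime_int.1 p.2
      have h5 : (2 : ℤ) * D * f.leadingCoeff = D * (2 * 1 * f.leadingCoeff) := by ring
      rw [h5] at h
      rcases h4.dvd_or_dvd h with h6 | h6
      · exact hD h6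
      · exact h1.1 h6
    have hDp : ((D : ℤ) : ZMod p) ≠ 0 := by
      rwa [Ne, ZMod.intCast_zmod_eq_zero_iff_dvd]
    have hL := legendreSym.eq_one_or_neg_one p hDp
    have h3 : traceH n i f D p 1 = legendreSym p D * traceH n i f 1 p 1 := by
      rw [traceH, traceH, traceH1_twist h2 1 one_ne_zero, pow_one,
        coeff_twist _ _ _ (by rcases hL with h | h <;> rw [h] <;> norm_num)]
      congr 1
      obtain ⟨j, hj⟩ := hi
      rcases hL with h | h <;> rw [h, hj] <;> simp [pow_succ, pow_mul]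
    rw [aa, aa, if_pos h2, if_pos h1, h3]
    simp only
    rw [hXX]
    push_cast
    simp only [zero_mul, neg_zero, Complex.cpow_zero, mul_one]
    ring

end Pool.Agent.H341R2
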