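import Mathlib
import Pool.Agent.H341R2.Stepanov

/-! The `L`-polynomial attached to a quadratic character sum over a finite field: sums over monic
polynomials, vanishing in large degree, and the relation with irreducible polynomials. -/

set_option autoImplicit false

namespace Pool.Agent.H341R2.Sharp

open Polynomial Finset

section Mon

variable (F : Type*) [Field F] [Fintype F]

theorem finite_mon (n : ℕ) : {h : F[X] | h.Monic ∧ h.natDegree = n}.Finite := by
  classical
  apply Set.Finite.of_finite_image (f := fun h : F[X] => fun i : Fin (n + 1) => h.coeff i)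
  · exact Set.toFinite _
  · intro g hg h hh hgh
    ext i
    by_cases hi : i < n + 1
    · exact congrFun hgh ⟨i, hi⟩
    · rw [coeff_eq_zero_of_natDegree_lt (by rw [hg.2]; omega),
        coeff_eq_zero_of_natDegree_lt (by rw [hh.2]; omega)]

/-- the finite set of monic polynomials of degree `n` -/
noncomputable def Mon (n : ℕ) : Finset F[X] := (finite_mon F n).toFinset

variable {F}

theorem mem_Mon {n : ℕ} {h : F[X]} : h ∈ Mon F n ↔ h.Monic ∧ h.natDegree = n := by
  simp [Mon]

end Mon

section Lam

variable {F : Type*} [Field F] [Fintype F] [DecidableEq F]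

/-- the quadratic character of the resultant -/
noncomputable def lam (f h : F[X]) : ℤ :=
  quadraticChar F (resultant h f h.natDegree f.natDegree)

theorem lam_one (f : F[X]) : lam f 1 = 1 := by
  unfold lam
  rw [natDegree_one]
  have : resultant (1 : F[X]) f 0 f.natDegree = 1 := by
    rw [resultant_zero_left_deg]
    simp
  rw [this]
  simp

theorem lam_mul (f g h : F[X]) (hg : g.Monic) (hh : h.Monic) :
    lam f (g * h) = lam f g * lam f h := by
  unfold lam
  rw [hg.natDegree_mul hh, resultant_mul_left _ _ _ _ le_rfl, map_mul]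

theorem lam_pow (f g : F[X]) (hg : g.Monic) (k : ℕ) : lam f (g ^ k) = lam f g ^ k := by
  induction k with
  | zero => simp [lam_one]
  | succ k ih => rw [pow_succ, lam_mul f _ _ (hg.pow k) hg, ih, pow_succ]

/-- the coefficients of the `L`-polynomial -/
noncomputable def A (f : F[X]) (n : ℕ) : ℤ := ∑ h ∈ Mon F n, lam f h

theorem Mon_zero : Mon F 0 = {1} := by
  ext h
  rw [mem_Mon, mem_singleton]
  constructor
  · rintro ⟨h1, h2⟩
    exact eq_one_of_monic_natDegree_zero h1 h2
  · rintro rfl
    exact ⟨monic_one, natDegree_one⟩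

theorem A_zero (f : F[X]) : A f 0 = 1 := by
  unfold A
  rw [Mon_zero, sum_singleton, lam_one]

/-- vanishing in degree at least `deg f` -/
theorem A_eq_zero (f r : F[X]) (hf : f.Monic) (hr : r.Monic)
    (hlam : quadraticChar F ((-1) ^ (f.natDegree * r.natDegree)) * lam f r = -1)
    (n : ℕ) (hn : f.natDegree ≤ n) : A f n = 0 := by
  classical
  set d := f.natDegree with hd
  set m := r.natDegree with hm
  have hcop : IsCoprime f r := by
    by_contra hc
    have h1 : resultant r f = 0 := by
      rw [resultant_eq_zero_iff]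
      refine ⟨Or.inl hr.ne_zero, fun h => hc h.symm⟩
    unfold lam at hlam
    rw [h1] at hlam
    simp at hlam
  let Φ : F[X] → F[X] := fun h => f * (h /ₘ f) + (r * h) %ₘ f
  have hΦ : ∀ h ∈ Mon F n, Φ h ∈ Mon F n := by
    intro h hh
    rw [mem_Mon] at hh ⊢
    have hdeg1 : ((r * h) %ₘ f).degree < f.degree := degree_modByMonic_lt _ hf
    have hfdeg : f.degree ≤ h.degree := by
      rw [degree_eq_natDegree hf.ne_zero, degree_eq_natDegree hh.1.ne_zero, hh.2]
      exact_mod_cast hn
    have hmq : (h /ₘ f).Monic := by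
      rw [Monic, leadingCoeff_divByMonic_of_monic hf hfdeg]
      exact hh.1
    have hfq : (f * (h /ₘ f)).Monic := hf.mul hmq
    have hnd : (f * (h /ₘ f)).natDegree = n := by
      rw [hf.natDegree_mul hmq, natDegree_divByMonic _ hf, hh.2]
      omega
    have hdeg2 : ((r * h) %ₘ f).degree < (f * (h /ₘ f)).degree := by
      refine hdeg1.trans_le ?_
      rw [degree_eq_natDegree hf.ne_zero, degree_eq_natDegree hfq.ne_zero, hnd]
      exact_mod_cast hn
    refine ⟨hfq.add_of_left hdeg2, ?_⟩
    change (f * (h /ₘ f) + (r * h) %ₘ f).natDegree = n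
    rw [natDegree_add_eq_left_of_degree_lt hdeg2, hnd]
  have hinj : Set.InjOn Φ (Mon F n) := by
    intro g hg h hh hgh
    have hg' := mem_Mon.1 (mem_coe.1 hg)
    have hh' := mem_Mon.1 (mem_coe.1 hh)
    have e1 : g /ₘ f = h /ₘ f ∧ (r * g) %ₘ f = (r * h) %ₘ f := by
      have hu1 := div_modByMonic_unique (f := Φ g) (g := f) (g /ₘ f) ((r * g) %ₘ f) hf
        ⟨by change (r * g) %ₘ f + f * (g /ₘ f) = f * (g /ₘ f) + (r * g) %ₘ f; ring,
          degree_modByMonic_lt _ hf⟩
      have hu2 := div_modByMonic_unique (f := Φ h) (g := f) (h /ₘ f) ((r * h) %ₘ f) hf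
        ⟨by change (r * h) %ₘ f + f * (h /ₘ f) = f * (h /ₘ f) + (r * h) %ₘ f; ring,
          degree_modByMonic_lt _ hf⟩
      constructor
      · rw [← hu1.1, ← hu2.1, hgh]
      · rw [← hu1.2, ← hu2.2, hgh]
    have e2 : f ∣ r * (g - h) := by
      have : (r * (g - h)) %ₘ f = 0 := by
        rw [mul_sub, sub_modByMonic, e1.2, sub_self]
      exact (modByMonic_eq_zero_iff_dvd hf).1 this
    have e3 : f ∣ g - h := hcop.dvd_of_dvd_mul_left e2
    have e4 : g - h = g %ₘ f - h %ₘ f := by
      have h1 := modByMonic_add_div g f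
      have h2 := modByMonic_add_div h f
      calc g - h = (g %ₘ f + f * (g /ₘ f)) - (h %ₘ f + f * (h /ₘ f)) := by rw [h1, h2]
        _ = g %ₘ f - h %ₘ f := by rw [e1.1]; ring
    have e5 : (g - h).degree < f.degree := by
      rw [e4]
      exact (degree_sub_le _ _).trans_lt
        (max_lt (degree_modByMonic_lt _ hf) (degree_modByMonic_lt _ hf))
    have e6 : g - h = 0 := eq_zero_of_dvd_of_degree_lt e3 e5
    exact sub_eq_zero.1 e6
  have hlamΦ : ∀ h ∈ Mon F n, lam f (Φ h) = - lam f h := by
    intro h hh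
    have hΦh := mem_Mon.1 (hΦ h hh)
    rw [mem_Mon] at hh
    set t : F[X] := (r * h) /ₘ f - h /ₘ f with ht
    have e1 : r * h = Φ h + f * t := by
      have h1 := modByMonic_add_div (r * h) f
      calc r * h = (r * h) %ₘ f + f * ((r * h) /ₘ f) := h1.symm
        _ = Φ h + f * t := by
          change _ = f * (h /ₘ f) + (r * h) %ₘ f + f * ((r * h) /ₘ f - h /ₘ f)
          ring
    have e2 : t.natDegree + d ≤ n + m := by
      have h1 : ((r * h) /ₘ f).natDegree = m + n - d := by
        rw [natDegree_divByMonic _ hf, hr.natDegree_mul hh.1, hh.2]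
      have h2 : (h /ₘ f).natDegree = n - d := by
        rw [natDegree_divByMonic _ hf, hh.2]
      have h3 := natDegree_sub_le ((r * h) /ₘ f) (h /ₘ f)
      rw [h1, h2] at h3
      have h4 : max (m + n - d) (n - d) ≤ m + n - d := max_le le_rfl (by omega)
      have h5 : t.natDegree ≤ m + n - d := h3.trans h4
      omega
    have e3 : resultant (r * h) f (m + n) d = resultant r f m d * resultant h f n d := by
      have := resultant_mul_left r h f d le_rfl
      rw [← hm, hh.2] at this
      exact this
    have e4 : resultant (r * h) f (n + m) d = (-1) ^ (d * m) * resultant (Φ h) f n d := by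
      rw [e1, resultant_add_mul_left (hk := e2) (hg := le_rfl),
        resultant_add_left_deg (hf := hΦh.2.le)]
      have : f.coeff d = 1 := hf
      rw [this, one_pow, mul_one]
    have e5 : resultant (Φ h) f n d = (-1) ^ (d * m) * (resultant r f m d * resultant h f n d) := by
      rw [← e3, add_comm m n, e4, ← mul_assoc, ← pow_add, ← two_mul, pow_mul]
      simp
    unfold lam at hlam ⊢
    rw [hΦh.2, hh.2, ← hd, e5, map_mul, map_mul, ← mul_assoc]
    rw [← hd, ← hm] at hlam
    rw [hlam]
    ring
  have himg : (Mon F n).image Φ = Mon F n := by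
    apply eq_of_subset_of_card_le
    · intro g hg
      obtain ⟨h, hh, rfl⟩ := mem_image.1 hg
      exact hΦ h hh
    · rw [card_image_of_injOn hinj]
  have hsum : A f n = - A f n := by
    unfold A
    conv_lhs => rw [← himg, sum_image hinj]
    rw [sum_congr rfl hlamΦ, sum_neg_distrib]
  omega

end Lam

section Count

variable {F : Type*} [Field F] [Fintype F] [DecidableEq F]

/-- monic irreducible polynomials of degree at most `n` -/
noncomputable def Irr (F : Type*) [Field F] [Fintype F] [DecidableEq F] (n : ℕ) : Finset F[X] := by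
  classical
  exact ((range (n + 1)).biUnion (Mon F)).filter Irreducible

theorem mem_Irr {n : ℕ} {P : F[X]} :
    P ∈ Irr F n ↔ P.Monic ∧ Irreducible P ∧ P.natDegree ≤ n := by
  classical
  unfold Irr
  rw [mem_filter, mem_biUnion]
  constructor
  · rintro ⟨⟨j, hj, hP⟩, hi⟩
    rw [mem_Mon] at hP
    rw [mem_range] at hj
    exact ⟨hP.1, hi, by omega⟩
  · rintro ⟨h1, h2, h3⟩
    exact ⟨⟨P.natDegree, mem_range.2 (by omega), mem_Mon.2 ⟨h1, rfl⟩⟩, h2⟩

open scoped Classical in
/-- the degree of a monic polynomial, counted along prime powers dividing it -/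
theorem count_dvd {n : ℕ} {h : F[X]} (hh : h ∈ Mon F n) :
    ∑ P ∈ Irr F n, ∑ k ∈ Icc 1 n, (if P ^ k ∣ h then (P.natDegree : ℤ) else 0) = n := by
  rw [mem_Mon] at hh
  have h0 : h ≠ 0 := hh.1.ne_zero
  set nf := UniqueFactorizationMonoid.normalizedFactors h with hnf
  have hmon : ∀ P ∈ nf, P.Monic := by
    intro P hP
    exact ((Polynomial.mem_normalizedFactors_iff h0).1 hP).2.1
  have hirr : ∀ P ∈ nf, Irreducible P := fun P hP =>
    UniqueFactorizationMonoid.irreducible_of_normalized_factor P hP
  have hprod : nf.prod = h := by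
    have := UniqueFactorizationMonoid.prod_normalizedFactors_eq h0
    rw [this, hh.1.normalize_eq_self]
  have hdeg : (nf.map natDegree).sum = n := by
    rw [← hh.2, ← hprod, natDegree_multiset_prod_of_monic _ hmon]
  have hdvd : ∀ P ∈ nf, P ∣ h := fun P hP => UniqueFactorizationMonoid.dvd_of_mem_normalizedFactors hP
  have hsub : nf.toFinset ⊆ Irr F n := by
    intro P hP
    rw [Multiset.mem_toFinset] at hP
    rw [mem_Irr]
    refine ⟨hmon P hP, hirr P hP, ?_⟩
    rw [← hh.2]
    exact natDegree_le_of_dvd (hdvd P hP) h0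
  have hcount : ∀ P ∈ Irr F n, ∑ k ∈ Icc 1 n, (if P ^ k ∣ h then (P.natDegree : ℤ) else 0) =
      nf.count P * P.natDegree := by
    intro P hP
    rw [mem_Irr] at hP
    have hk : ∀ k : ℕ, P ^ k ∣ h ↔ k ≤ nf.count P := by
      intro k
      have h1 := UniqueFactorizationMonoid.emultiplicity_eq_count_normalizedFactors hP.2.1 h0
      rw [hP.1.normalize_eq_self] at h1
      rw [pow_dvd_iff_le_emultiplicity, h1]
      exact Nat.cast_le
    have hle : nf.count P ≤ n := by
      have h1 : P ^ (nf.count P) ∣ h := (hk _).2 le_rfl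
      have h2 := natDegree_le_of_dvd h1 h0
      rw [natDegree_pow, hh.2] at h2
      have h3 : 1 ≤ P.natDegree := hP.2.1.natDegree_pos
      nlinarith
    rw [← sum_filter, sum_const, nsmul_eq_mul]
    congr 2
    have : (Icc 1 n).filter (fun k => P ^ k ∣ h) = Icc 1 (nf.count P) := by
      ext k
      rw [mem_filter, mem_Icc, mem_Icc, hk]
      omega
    rw [this]
    simp
  rw [sum_congr rfl hcount]
  have h2 : (n : ℤ) = ∑ P ∈ nf.toFinset, (nf.count P * P.natDegree : ℤ) := by
    rw [← hdeg, Finset.sum_multiset_map_count]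
    push_cast
    simp
  rw [h2]
  symm
  apply sum_subset hsub
  intro P _ hP
  rw [Multiset.mem_toFinset] at hP
  rw [Multiset.count_eq_zero_of_notMem hP]
  simp

/-- the sum over irreducible polynomials of degree dividing `m` -/
noncomputable def T (f : F[X]) (m : ℕ) : ℤ :=
  ∑ P ∈ (Irr F m).filter (fun P => P.natDegree ∣ m), P.natDegree * lam f P ^ (m / P.natDegree)

open scoped Classical in
theorem sum_pow_dvd (f P : F[X]) (hP : P.Monic) (n k : ℕ) :
    ∑ h ∈ Mon F n, (if P ^ k ∣ h then lam f h else 0) =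
      if k * P.natDegree ≤ n then lam f P ^ k * A f (n - k * P.natDegree) else 0 := by
  rw [← sum_filter]
  split_ifs with hkn
  · unfold A
    rw [mul_sum]
    symm
    refine sum_bij' (fun g _ => P ^ k * g) (fun h _ => h /ₘ (P ^ k)) ?_ ?_ ?_ ?_ ?_
    · intro g hg
      rw [mem_Mon] at hg
      rw [mem_filter, mem_Mon]
      refine ⟨⟨(hP.pow k).mul hg.1, ?_⟩, dvd_mul_right _ _⟩
      rw [(hP.pow k).natDegree_mul hg.1, hP.natDegree_pow, hg.2]
      omega
    · intro h hh
      rw [mem_filter, mem_Mon] at hh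
      obtain ⟨g, rfl⟩ := hh.2
      have hg : g.Monic := (hP.pow k).of_mul_monic_left hh.1.1
      have h1 := hh.1.2
      rw [(hP.pow k).natDegree_mul hg, hP.natDegree_pow] at h1
      rw [mul_divByMonic_cancel_left _ (hP.pow k), mem_Mon]
      exact ⟨hg, by omega⟩
    · intro g hg
      exact mul_divByMonic_cancel_left _ (hP.pow k)
    · intro h hh
      rw [mem_filter] at hh
      obtain ⟨g, rfl⟩ := hh.2
      rw [mul_divByMonic_cancel_left _ (hP.pow k)]
    · intro g hg
      rw [mem_Mon] at hg
      rw [lam_mul _ _ _ (hP.pow k) hg.1, lam_pow _ _ hP]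
  · apply sum_eq_zero
    intro h hh
    rw [mem_filter, mem_Mon] at hh
    exfalso
    have := natDegree_le_of_dvd hh.2 hh.1.1.ne_zero
    rw [hP.natDegree_pow, hh.1.2] at this
    exact hkn this

theorem T_eq (f : F[X]) (n m : ℕ) (hm : 1 ≤ m) (hmn : m ≤ n) :
    T f m = ∑ P ∈ Irr F n, ∑ k ∈ Icc 1 n,
      (if k * P.natDegree = m then (P.natDegree : ℤ) * lam f P ^ k else 0) := by
  have h1 : ∀ P ∈ Irr F n, ∑ k ∈ Icc 1 n,
      (if k * P.natDegree = m then (P.natDegree : ℤ) * lam f P ^ k else 0) =
      if P.natDegree ∣ m then (P.natDegree : ℤ) * lam f P ^ (m / P.natDegree) else 0 := by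
    intro P hP
    rw [mem_Irr] at hP
    have h3 : 1 ≤ P.natDegree := hP.2.1.natDegree_pos
    split_ifs with hdvd
    · obtain ⟨k, hk⟩ := hdvd
      have hkm : k * P.natDegree = m := by rw [hk]; ring
      have hk1 : 1 ≤ k := by
        rcases Nat.eq_zero_or_pos k with h0 | h0
        · rw [h0] at hkm; omega
        · exact h0
      have hkn : k ≤ n := by nlinarith
      rw [sum_eq_single k]
      · rw [if_pos hkm]
        have : m / P.natDegree = k := by
          rw [hk]
          exact Nat.mul_div_cancel_left _ (by omega)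
        rw [this]
      · intro j _ hj
        rw [if_neg]
        intro hjm
        exact hj (Nat.eq_of_mul_eq_mul_right (by omega) (hjm.trans hkm.symm))
      · intro hk'
        exact absurd (mem_Icc.2 ⟨hk1, hkn⟩) hk'
    · apply sum_eq_zero
      intro k _
      rw [if_neg]
      intro hk
      exact hdvd ⟨k, by rw [← hk]; ring⟩
  rw [sum_congr rfl h1, ← sum_filter]
  unfold T
  apply sum_congr _ fun _ _ => rfl
  ext P
  rw [mem_filter, mem_filter, mem_Irr, mem_Irr]
  constructor
  · rintro ⟨⟨h1, h2, h3⟩, h4⟩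
    exact ⟨⟨h1, h2, by omega⟩, h4⟩
  · rintro ⟨⟨h1, h2, h3⟩, h4⟩
    exact ⟨⟨h1, h2, Nat.le_of_dvd (by omega) h4⟩, h4⟩

/-- the logarithmic derivative identity -/
theorem n_mul_A (f : F[X]) (n : ℕ) :
    (n : ℤ) * A f n = ∑ m ∈ Icc 1 n, A f (n - m) * T f m := by
  classical
  have h1 : (n : ℤ) * A f n = ∑ P ∈ Irr F n, ∑ k ∈ Icc 1 n, (P.natDegree : ℤ) *
      ∑ h ∈ Mon F n, (if P ^ k ∣ h then lam f h else 0) := by
    have h2 : (n : ℤ) * A f n = ∑ h ∈ Mon F n, ∑ P ∈ Irr F n, ∑ k ∈ Icc 1 n,
        (P.natDegree : ℤ) * (if P ^ k ∣ h then lam f h else 0) := by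
      unfold A
      rw [mul_sum]
      apply sum_congr rfl
      intro h hh
      rw [← count_dvd hh, sum_mul]
      apply sum_congr rfl
      intro P _
      rw [sum_mul]
      apply sum_congr rfl
      intro k _
      split_ifs <;> simp
    rw [h2, sum_comm]
    apply sum_congr rfl
    intro P _
    rw [sum_comm]
    apply sum_congr rfl
    intro k _
    rw [mul_sum]
  rw [h1]
  have h3 : ∀ P ∈ Irr F n, ∑ k ∈ Icc 1 n, (P.natDegree : ℤ) *
      ∑ h ∈ Mon F n, (if P ^ k ∣ h then lam f h else 0) =
      ∑ k ∈ Icc 1 n, ∑ m ∈ Icc 1 n, A f (n - m) *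
        (if k * P.natDegree = m then (P.natDegree : ℤ) * lam f P ^ k else 0) := by
    intro P hP
    rw [mem_Irr] at hP
    have hd : 1 ≤ P.natDegree := hP.2.1.natDegree_pos
    apply sum_congr rfl
    intro k hk
    rw [mem_Icc] at hk
    rw [sum_pow_dvd f P hP.1]
    split_ifs with hkn
    · rw [sum_eq_single (k * P.natDegree)]
      · rw [if_pos rfl]; ring
      · intro m _ hm
        rw [if_neg (Ne.symm hm), mul_zero]
      · intro hk'
        exact absurd (mem_Icc.2 ⟨Nat.mul_pos (by omega) hd, hkn⟩) hk'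
    · rw [mul_zero]
      symm
      apply sum_eq_zero
      intro m hm
      rw [mem_Icc] at hm
      rw [if_neg (by omega), mul_zero]
  rw [sum_congr rfl h3]
  have h4 : ∑ m ∈ Icc 1 n, A f (n - m) * T f m = ∑ m ∈ Icc 1 n, ∑ P ∈ Irr F n, ∑ k ∈ Icc 1 n,
      A f (n - m) * (if k * P.natDegree = m then (P.natDegree : ℤ) * lam f P ^ k else 0) := by
    apply sum_congr rfl
    intro m hm
    rw [mem_Icc] at hm
    rw [T_eq f n m hm.1 hm.2, mul_sum]
    apply sum_congr rfl
    intro P _
    rw [mul_sum]
  rw [h4]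
  symm
  rw [sum_comm]
  apply sum_congr rfl
  intro P _
  rw [sum_comm]

end Count

end Pool.Agent.H341R2.Sharp
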