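import Pool.Agent.H341R2.Vanish

set_option autoImplicit false

namespace Pool.Agent.H341R2

open Complex Filter Topology ComplexConjugate Polynomial

/-- with arbitrary Euler factors at the bad primes, the order `m` of an extension at the edge
satisfies `E ≤ -m λ + O(1)` -/
theorem E_le_of_order {f : ℤ[X]} (hf : (f.map (Int.castRingHom ℚ)).Separable)
    (hd : 1 ≤ f.natDegree) (n i : ℕ) {D : ℤ} (hD : D ≠ 0) (B : Nat.Primes → ℂ[X])
    (hB : ∀ p, (B p).coeff 0 = 1) (τ : ℝ) (Λ : ℂ → ℂ)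
    (hΛ : MeromorphicAt Λ ((i / 2 + 1 : ℂ) + τ * I))
    (hΛL : ∀ᶠ s in 𝓝 ((i / 2 + 1 : ℂ) + τ * I), (i / 2 + 1 : ℝ) < s.re →
      Λ s = LFun n i f D B s) :
    ∃ m : ℤ, meromorphicOrderAt Λ ((i / 2 + 1 : ℂ) + τ * I) = m ∧
    ∃ C : ℝ, ∀ᶠ ε : ℝ in 𝓝[>] 0, (E ε fun p => (aa n i f D τ p).re) ≤ -m * lam ε + C := by
  set ρ : ℂ := (i / 2 + 1 : ℂ) + τ * I with hρ
  have hρre : ρ.re = i / 2 + 1 := by rw [hρ]; simp
  set S := (finite_bad hf hD).toFinset with hS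
  have hne : ∀ᶠ ε : ℝ in 𝓝[>] 0, ∀ p ∈ S, (B p).eval (((p : ℕ) : ℂ) ^ (-(ρ + ε))) ≠ 0 := by
    rw [Filter.eventually_all_finset]
    exact fun p _ => bad_ne_zero (B p) (hB p) p ρ
  choose Cb hCb using fun p => bad_bounded (B p) p ρ
  have hbd : ∀ᶠ ε : ℝ in 𝓝[>] 0, ∀ p ∈ S,
      ‖(B p).eval (((p : ℕ) : ℂ) ^ (-(ρ + ε)))‖ ≤ Cb p := by
    rw [Filter.eventually_all_finset]
    exact fun p _ => hCb p
  have heq : ∀ᶠ ε : ℝ in 𝓝[>] 0, Λ (ρ + ε) = LFun n i f D B (ρ + ε) := by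
    filter_upwards [(path_tendsto ρ).eventually hΛL, self_mem_nhdsWithin] with ε h1 h2
    have hε : (0 : ℝ) < ε := h2
    apply h1
    rw [Complex.add_re, hρre, Complex.ofReal_re]
    linarith
  set C₁ : ℝ := ∑ p ∈ S, Real.log (|Cb p| + 1) with hC₁
  have hlow : ∀ᶠ ε : ℝ in 𝓝[>] 0, Λ (ρ + ε) ≠ 0 ∧
      (E ε fun p => (aa n i f D τ p).re) ≤ Real.log ‖Λ (ρ + ε)‖ + C₁ + 2 * KK f n * K2 := by
    filter_upwards [hne, hbd, heq, self_mem_nhdsWithin] with ε h1 h2 h3 h4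
    have hε : (0 : ℝ) < ε := h4
    obtain ⟨G, hG1, hG2⟩ := LFun_eq hf hd n i hD B τ hε
    rw [← hρ] at hG2
    rw [← h3] at hG2
    have hprod : 0 < ∏ p ∈ S, ‖(B p).eval (((p : ℕ) : ℂ) ^ (-(ρ + ε)))‖⁻¹ :=
      Finset.prod_pos fun p hp => inv_pos.2 (norm_pos_iff.2 (h1 p hp))
    have hpos : 0 < ‖Λ (ρ + ε)‖ := by
      rw [hG2]
      exact mul_pos hprod (Real.exp_pos _)
    refine ⟨norm_pos_iff.1 hpos, ?_⟩
    have hlog : Real.log ‖Λ (ρ + ε)‖ = (∑ p ∈ S,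
        -Real.log ‖(B p).eval (((p : ℕ) : ℂ) ^ (-(ρ + ε)))‖) + G := by
      rw [hG2, Real.log_mul hprod.ne' (Real.exp_pos _).ne', Real.log_exp, Real.log_prod]
      · congr 1
        exact Finset.sum_congr rfl fun p _ => Real.log_inv _
      · intro p hp
        exact inv_ne_zero (norm_ne_zero_iff.2 (h1 p hp))
    have hC : -C₁ ≤ ∑ p ∈ S, -Real.log ‖(B p).eval (((p : ℕ) : ℂ) ^ (-(ρ + ε)))‖ := by
      rw [hC₁, ← Finset.sum_neg_distrib]
      refine Finset.sum_le_sum fun p hp => neg_le_neg ?_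
      refine Real.log_le_log (norm_pos_iff.2 (h1 p hp)) ((h2 p hp).trans ?_)
      linarith [le_abs_self (Cb p)]
    have := (abs_le.1 hG1).1
    linarith
  have hfreq : ∃ᶠ z in 𝓝[≠] ρ, Λ z ≠ 0 := by
    have hpath : Tendsto (fun ε : ℝ => ρ + ε) (𝓝[>] 0) (𝓝[≠] ρ) := by
      rw [tendsto_nhdsWithin_iff]
      refine ⟨path_tendsto ρ, ?_⟩
      filter_upwards [self_mem_nhdsWithin] with ε hε
      have hε' : (0 : ℝ) < ε := hε
      simp only [Set.mem_compl_iff, Set.mem_singleton_iff, add_eq_left]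
      exact_mod_cast hε'.ne'
    exact hpath.frequently (hlow.mono fun _ h => h.1).frequently
  have hnt : meromorphicOrderAt Λ ρ ≠ ⊤ := by
    rw [Ne, meromorphicOrderAt_eq_top_iff]
    intro h
    exact hfreq (h.mono fun z hz => not_not.2 hz)
  obtain ⟨m, hm⟩ := WithTop.ne_top_iff_exists.1 hnt
  refine ⟨m, hm.symm, ?_⟩
  obtain ⟨C₂, hC₂⟩ := log_norm_meromorphic hΛ hm.symm
  obtain ⟨C₃, hC₃⟩ := lam_bounded
  refine ⟨C₁ + 2 * KK f n * K2 + C₂ + |(m : ℝ)| * C₃, ?_⟩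
  filter_upwards [hlow, hC₂, hC₃] with ε h1 h2 h3
  have h7 := (abs_le.1 h2.2).2
  have h8 : (m : ℝ) * (lam ε + Real.log ε) ≤ |(m : ℝ)| * C₃ := by
    refine (le_abs_self _).trans ?_
    rw [abs_mul]
    exact mul_le_mul_of_nonneg_left h3 (abs_nonneg _)
  have h9 := h1.2
  nlinarith

theorem coeff_one_add_sq (q : ℤ) (m j : ℕ) : ((1 + C q * X ^ 2 : ℤ[X]) ^ m).coeff j =
    if Even j then (m.choose (j / 2) : ℤ) * q ^ (j / 2) else 0 := by
  have h1 : (1 + C q * X ^ 2 : ℤ[X]) = expand ℤ 2 (1 + C q * X) := by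
    simp
  rw [h1, ← map_pow, coeff_expand (by norm_num)]
  simp only [← even_iff_two_dvd]
  congr 1
  have h2 : (1 + C q * X : ℤ[X]) ^ m = ((1 + X : ℤ[X]) ^ m).comp (C q * X) := by
    simp
  rw [h2, comp_C_mul_X_coeff, coeff_one_add_X_pow]

/-- the trace on `Hⁱ` of the `n`-th power, `i` even, is at least `C(n, i/2) q^{i/2}` -/
theorem coeff_even_lower (A q : ℤ) (hq : 0 ≤ q) (n i : ℕ) (hi : Even i) :
    (n.choose (i / 2) : ℤ) * q ^ (i / 2) ≤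
      ((1 + C A * X + C q * X ^ 2 : ℤ[X]) ^ n).coeff i := by
  have h1 : (1 + C A * X + C q * X ^ 2 : ℤ[X]) = C A * X + (1 + C q * X ^ 2) := by ring
  rw [h1, add_pow, finsetSum_coeff]
  have h2 : ∀ k ∈ Finset.range (n + 1), 0 ≤ ((C A * X) ^ k * (1 + C q * X ^ 2) ^ (n - k) *
      ((n.choose k : ℕ) : ℤ[X])).coeff i := by
    intro k _
    have h3 : ((C A * X) ^ k * (1 + C q * X ^ 2) ^ (n - k) * ((n.choose k : ℕ) : ℤ[X])) =
        C (A ^ k * (n.choose k : ℤ)) * ((1 + C q * X ^ 2) ^ (n - k) * X ^ k) := by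
      rw [mul_pow, ← C_pow, C_mul]
      simp only [eq_intCast, Int.cast_natCast]
      ring
    rw [h3, coeff_C_mul, coeff_mul_X_pow', coeff_one_add_sq]
    split_ifs with h4 h5
    · have hk : Even k := by
        obtain ⟨a, ha⟩ := h5
        obtain ⟨b, hb⟩ := hi
        exact ⟨b - a, by omega⟩
      have := hk.pow_nonneg A
      positivity
    · simp
    · simp
  refine le_trans ?_ (Finset.single_le_sum h2 (Finset.mem_range.2 (Nat.succ_pos n)))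
  simp only [pow_zero, one_mul, Nat.sub_zero, Nat.choose_zero_right, Nat.cast_one, mul_one]
  rw [coeff_one_add_sq, if_pos hi]

end Pool.Agent.H341R2
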