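import Mathlib

set_option autoImplicit false

namespace Pool.Agent.H341R2

open Complex Filter Topology

/-- `-log (1 - z)` is `z` up to `‖z‖ ^ 2`, for `‖z‖ ≤ 1/2`. -/
theorem norm_neg_log_sub_le {z : ℂ} (hz : ‖z‖ ≤ 1 / 2) :
    ‖-Complex.log (1 - z) - z‖ ≤ ‖z‖ ^ 2 := by
  have h1 : ‖-z‖ < 1 := by rw [norm_neg]; linarith
  have h2 := Complex.norm_log_one_add_sub_self_le h1
  rw [norm_neg] at h2
  have h3 : -Complex.log (1 - z) - z = -(Complex.log (1 + -z) - -z) := by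
    rw [← sub_eq_add_neg]; ring
  rw [h3, norm_neg]
  refine h2.trans ?_
  have h4 : (1 - ‖z‖)⁻¹ ≤ 2 := by
    rw [inv_le_comm₀ (by linarith) (by norm_num)]
    linarith
  nlinarith [sq_nonneg ‖z‖, norm_nonneg z, mul_le_mul_of_nonneg_left h4 (sq_nonneg ‖z‖)]

theorem norm_prime_cpow (p : Nat.Primes) (s : ℂ) : ‖((p : ℕ) : ℂ) ^ (-s)‖ = (p : ℝ) ^ (-s.re) := by
  rw [Complex.norm_natCast_cpow_of_pos p.2.pos]
  simp

theorem summable_prime_rpow {r : ℝ} (hr : r < -1) :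
    Summable fun p : Nat.Primes => (p : ℝ) ^ r :=
  Nat.Primes.summable_rpow.2 hr

/-- the constant `∑ p⁻²` -/
noncomputable def K2 : ℝ := ∑' p : Nat.Primes, (p : ℝ) ^ (-2 : ℝ)

theorem prime_rpow_le_two {p : Nat.Primes} {r : ℝ} (hr : 1 ≤ r) : (p : ℝ) ^ (-r) ≤ 1 / 2 := by
  have h2 : (2 : ℝ) ≤ p := by exact_mod_cast p.2.two_le
  calc (p : ℝ) ^ (-r) ≤ (p : ℝ) ^ (-1 : ℝ) :=
        Real.rpow_le_rpow_of_exponent_le (by linarith) (by linarith)
    _ = (p : ℝ)⁻¹ := Real.rpow_neg_one _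
    _ ≤ 1 / 2 := by
        rw [one_div]
        exact inv_anti₀ (by norm_num) h2

theorem re_primeSum_sub_log {N : ℕ} (χ : DirichletCharacter ℂ N) {s : ℂ} (hs : 1 < s.re) :
    |(∑' p : Nat.Primes, χ p * ((p : ℕ) : ℂ) ^ (-s)).re -
      Real.log ‖LSeries (fun n => χ n) s‖| ≤ K2 := by
  have hn : ∀ p : Nat.Primes, ‖χ p * ((p : ℕ) : ℂ) ^ (-s)‖ ≤ (p : ℝ) ^ (-s.re) := by
    intro p
    rw [norm_mul, norm_prime_cpow]
    exact mul_le_of_le_one_left (by positivity) (χ.norm_le_one _)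
  have hhalf : ∀ p : Nat.Primes, ‖χ p * ((p : ℕ) : ℂ) ^ (-s)‖ ≤ 1 / 2 := fun p =>
    (hn p).trans (prime_rpow_le_two hs.le)
  have hsum : Summable fun p : Nat.Primes => χ p * ((p : ℕ) : ℂ) ^ (-s) :=
    Summable.of_norm_bounded (summable_prime_rpow (by linarith)) hn
  have herr : ∀ p : Nat.Primes, ‖-Complex.log (1 - χ p * ((p : ℕ) : ℂ) ^ (-s)) -
      χ p * ((p : ℕ) : ℂ) ^ (-s)‖ ≤ (p : ℝ) ^ (-2 : ℝ) := by
    intro p
    refine (norm_neg_log_sub_le (hhalf p)).trans ?_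
    have h1 : (1 : ℝ) ≤ p := by exact_mod_cast p.2.one_lt.le
    have h2 : ‖χ p * ((p : ℕ) : ℂ) ^ (-s)‖ ≤ (p : ℝ) ^ (-1 : ℝ) :=
      (hn p).trans (Real.rpow_le_rpow_of_exponent_le h1 (by linarith))
    calc ‖χ p * ((p : ℕ) : ℂ) ^ (-s)‖ ^ 2 ≤ ((p : ℝ) ^ (-1 : ℝ)) ^ 2 := by gcongr
      _ = (p : ℝ) ^ (-2 : ℝ) := by
          rw [← Real.rpow_natCast, ← Real.rpow_mul (by linarith)]
          norm_num
  have hsummE : Summable fun p : Nat.Primes => (-Complex.log (1 - χ p * ((p : ℕ) : ℂ) ^ (-s)) -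
      χ p * ((p : ℕ) : ℂ) ^ (-s)) :=
    Summable.of_norm_bounded (summable_prime_rpow (by norm_num)) herr
  have hsumlog : Summable fun p : Nat.Primes => -Complex.log (1 - χ p * ((p : ℕ) : ℂ) ^ (-s)) := by
    have := hsummE.add hsum
    simpa using this
  have hE := DirichletCharacter.LSeries_eulerProduct_exp_log χ hs
  have h1 : Real.log ‖LSeries (fun n => χ n) s‖ =
      (∑' p : Nat.Primes, -Complex.log (1 - χ p * ((p : ℕ) : ℂ) ^ (-s))).re := by
    rw [← hE, Complex.norm_exp, Real.log_exp]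
  rw [h1, ← Complex.sub_re, ← hsum.tsum_sub hsumlog]
  refine (Complex.abs_re_le_norm _).trans ?_
  refine tsum_of_norm_bounded (summable_prime_rpow (by norm_num)).hasSum fun p => ?_
  rw [norm_sub_rev]
  exact herr p

/-- the twisted prime sums stay bounded at the edge, unless `χ = 1` and `τ = 0` -/
theorem primeSum_bounded {N : ℕ} [NeZero N] (χ : DirichletCharacter ℂ N) (τ : ℝ)
    (h : χ ≠ 1 ∨ τ ≠ 0) :
    ∃ C : ℝ, ∀ᶠ ε : ℝ in 𝓝[>] 0,
      |(∑' p : Nat.Primes, χ p * ((p : ℕ) : ℂ) ^ (-(1 + ε + τ * I))).re| ≤ C := by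
  have hne : χ ≠ 1 ∨ (1 + τ * I : ℂ) ≠ 1 := by
    refine h.imp id fun h' h'' => h' ?_
    have := congrArg Complex.im h''
    simpa using this
  have hL0 : DirichletCharacter.LFunction χ (1 + τ * I) ≠ 0 :=
    DirichletCharacter.LFunction_ne_zero_of_one_le_re χ hne (by simp)
  have hcont : ContinuousAt (DirichletCharacter.LFunction χ) (1 + τ * I) :=
    (DirichletCharacter.differentiableAt_LFunction χ _ hne.symm).continuousAt
  have hpath : Tendsto (fun ε : ℝ => (1 + ε + τ * I : ℂ)) (𝓝[>] 0) (𝓝 (1 + τ * I)) := by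
    have : ContinuousAt (fun ε : ℝ => (1 + ε + τ * I : ℂ)) 0 := by fun_prop
    have h2 := this.tendsto
    simp only [ofReal_zero, add_zero] at h2
    exact h2.mono_left nhdsWithin_le_nhds
  have hlog : Tendsto (fun ε : ℝ => Real.log ‖DirichletCharacter.LFunction χ (1 + ε + τ * I)‖)
      (𝓝[>] 0) (𝓝 (Real.log ‖DirichletCharacter.LFunction χ (1 + τ * I)‖)) :=
    ((hcont.tendsto.comp hpath).norm).log (norm_ne_zero_iff.2 hL0)
  obtain ⟨C, hC⟩ := (hlog.abs).isBoundedUnder_le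
  refine ⟨C + K2, ?_⟩
  filter_upwards [Filter.eventually_map.1 hC, self_mem_nhdsWithin] with ε h1 h2
  have hε : (0 : ℝ) < ε := h2
  have hre : 1 < (1 + ε + τ * I : ℂ).re := by simp [hε]
  have h3 := re_primeSum_sub_log χ hre
  rw [← DirichletCharacter.LFunction_eq_LSeries χ hre] at h3
  have h4 := abs_sub_abs_le_abs_sub
    (∑' p : Nat.Primes, χ p * ((p : ℕ) : ℂ) ^ (-(1 + ε + τ * I))).re
    (Real.log ‖DirichletCharacter.LFunction χ (1 + ε + τ * I)‖)
  linarith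

/-- `λ(ε) = ∑_p p^(-1-ε)` -/
noncomputable def lam (ε : ℝ) : ℝ := ∑' p : Nat.Primes, (p : ℝ) ^ (-(1 + ε))

theorem lam_bounded : ∃ C : ℝ, ∀ᶠ ε : ℝ in 𝓝[>] 0, |lam ε + Real.log ε| ≤ C := by
  have hpath : Tendsto (fun ε : ℝ => (1 + ε : ℂ)) (𝓝[>] 0) (𝓝[≠] 1) := by
    rw [tendsto_nhdsWithin_iff]
    constructor
    · have : ContinuousAt (fun ε : ℝ => (1 + ε : ℂ)) 0 := by fun_prop
      have h2 := this.tendsto
      simp only [ofReal_zero, add_zero] at h2
      exact h2.mono_left nhdsWithin_le_nhds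
    · filter_upwards [self_mem_nhdsWithin] with ε hε
      have hε' : (0 : ℝ) < ε := hε
      simp only [Set.mem_compl_iff, Set.mem_singleton_iff, add_eq_left]
      exact_mod_cast hε'.ne'
  have h1 := (riemannZeta_residue_one.comp hpath).norm.log (by simp)
  obtain ⟨C, hC⟩ := (h1.abs).isBoundedUnder_le
  refine ⟨C + K2, ?_⟩
  filter_upwards [Filter.eventually_map.1 hC, self_mem_nhdsWithin] with ε h2 h3
  have hε : (0 : ℝ) < ε := h3
  have hre : 1 < (1 + ε : ℂ).re := by simp [hε]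
  have h4 := re_primeSum_sub_log (1 : DirichletCharacter ℂ 1) hre
  have h5 : LSeries (fun n => (1 : DirichletCharacter ℂ 1) n) (1 + ε) = riemannZeta (1 + ε) := by
    rw [← DirichletCharacter.LFunction_eq_LSeries _ hre, DirichletCharacter.LFunction_modOne_eq]
  have h6 : (∑' p : Nat.Primes, (1 : DirichletCharacter ℂ 1) p *
      ((p : ℕ) : ℂ) ^ (-(1 + ε : ℂ))).re = lam ε := by
    rw [lam, ← Complex.ofReal_re (∑' p : Nat.Primes, (p : ℝ) ^ (-(1 + ε))), Complex.ofReal_tsum]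
    congr 1
    refine tsum_congr fun p => ?_
    rw [MulChar.one_apply (isUnit_of_subsingleton _), one_mul,
      Complex.ofReal_cpow (by positivity)]
    push_cast
    rfl
  rw [h5, h6] at h4
  have hz : riemannZeta (1 + ε) ≠ 0 := riemannZeta_ne_zero_of_one_le_re hre.le
  have h7 : Real.log ‖(((fun s => (s - 1) * riemannZeta s) ∘ fun ε : ℝ => (1 + ε : ℂ)) ε : ℂ)‖ =
      Real.log ε + Real.log ‖riemannZeta (1 + ε)‖ := by
    simp only [Function.comp_apply, add_sub_cancel_left, norm_mul]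
    rw [Real.log_mul (by simp [hε.ne']) (by simpa using hz)]
    simp [abs_of_pos hε]
  rw [h7] at h2
  have h8 : lam ε + Real.log ε = (lam ε - Real.log ‖riemannZeta (1 + ε)‖) +
      (Real.log ε + Real.log ‖riemannZeta (1 + ε)‖) := by ring
  rw [h8]
  refine (abs_add_le _ _).trans ?_
  linarith

theorem lam_tendsto : Tendsto lam (𝓝[>] 0) atTop := by
  obtain ⟨C, hC⟩ := lam_bounded
  have h1 : Tendsto (fun ε : ℝ => -Real.log ε - C) (𝓝[>] 0) atTop := by
    have := Real.tendsto_log_nhdsGT_zero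
    exact tendsto_atTop_add_const_right _ (-C) (tendsto_neg_atBot_atTop.comp this)
  refine tendsto_atTop_mono' _ ?_ h1
  filter_upwards [hC] with ε hε
  have := (abs_le.1 hε).1
  linarith

end Pool.Agent.H341R2
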