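import Mathlib

/-! `L(Hⁱ(X), s)` for a scheme `X` over `ℤ`, through its numbers of points over finite fields. -/

set_option autoImplicit false

namespace Pool.Agent.H341R2

open AlgebraicGeometry CategoryTheory Polynomial

/-- number of points of `X` with values in the field with `p^m` elements -/
noncomputable def pointCount (X : Scheme.{0}) (p : Nat.Primes) (m : ℕ) : ℕ :=
  haveI : Fact (p : ℕ).Prime := ⟨p.2⟩
  Nat.card (Spec (CommRingCat.of (GaloisField p m)) ⟶ X)

/-- `μ` is the divisor of Frobenius eigenvalues of `X` at `p` :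
`#X(𝔽_{p^m}) = ∑_β μ(β) β^m` for all `m ≥ 1`. There is exactly one such `μ` when `X` is of finite
type (Dwork's theorem: rationality of the zeta function of the fibre at `p`). -/
def IsFrobeniusDivisor (X : Scheme.{0}) (p : Nat.Primes) (μ : ℂ →₀ ℤ) : Prop :=
  μ 0 = 0 ∧ ∀ m : ℕ, 1 ≤ m → (pointCount X p m : ℂ) = μ.sum fun β k => (k : ℂ) * β ^ m

open Classical in
/-- the divisor of Frobenius eigenvalues of `X` at `p` -/
noncomputable def frobeniusDivisor (X : Scheme.{0}) (p : Nat.Primes) : ℂ →₀ ℤ :=
  if h : ∃ μ, IsFrobeniusDivisor X p μ then h.choose else 0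

open Classical in
/-- the Frobenius eigenvalues of weight `i`, i.e. of absolute value `p^{i/2}` -/
noncomputable def weightEigenvalues (X : Scheme.{0}) (p : Nat.Primes) (i : ℕ) : Finset ℂ :=
  (frobeniusDivisor X p).support.filter fun β => ‖β‖ = (p : ℝ) ^ ((i : ℝ) / 2)

/-- number of Frobenius eigenvalues of weight `i`, with multiplicity. At a prime of good reduction
of a smooth projective variety it is the Betti number `bᵢ` (Deligne). -/
noncomputable def weightNumber (X : Scheme.{0}) (p : Nat.Primes) (i : ℕ) : ℕ :=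
  ∑ β ∈ weightEigenvalues X p i, (frobeniusDivisor X p β).natAbs

/-- the Euler factor `det(1 - Frob p^{-s} | Hⁱ)⁻¹ = ∏ (1 - β p^{-s})^{-mult(β)}`, the product over
the eigenvalues of weight `i`; the multiplicity of `β` on `Hⁱ` is `(-1)ⁱ μ(β)` -/
noncomputable def eulerFactor (X : Scheme.{0}) (i : ℕ) (p : Nat.Primes) (s : ℂ) : ℂ :=
  ∏ β ∈ weightEigenvalues X p i,
    (1 - β * ((p : ℕ) : ℂ) ^ (-s)) ^ (-((-1) ^ i * frobeniusDivisor X p β))

open Classical in
/-- the `i`-th L-function of `X`; `S` is the finite set of bad primes and `B p` is the inverse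
Euler factor, a polynomial in `p^{-s}`, at `p ∈ S` -/
noncomputable def schemeL (X : Scheme.{0}) (i : ℕ) (S : Finset Nat.Primes)
    (B : Nat.Primes → ℂ[X]) (s : ℂ) : ℂ :=
  ∏' p : Nat.Primes, if p ∈ S then ((B p).eval (((p : ℕ) : ℂ) ^ (-s)))⁻¹ else eulerFactor X i p s

end Pool.Agent.H341R2
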