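import Pool.Agent.H341R2.SchemeDefs
import Pool.Agent.H341R2.TwoSided
import Pool.Agent.H341R2.TwistBessel

set_option autoImplicit false

namespace Pool.Agent.H341R2

open Complex Filter Topology Polynomial ComplexConjugate AlgebraicGeometry

variable (X : Scheme.{0}) (i : ℕ) (S : Finset Nat.Primes)

open Classical in
/-- normalized trace of Frobenius on `Hⁱ`, zero at the bad primes -/
noncomputable def tS (p : Nat.Primes) : ℂ :=
  if p ∈ S then 0 else
    (∑ β ∈ weightEigenvalues X p i, (((-1) ^ i * frobeniusDivisor X p β : ℤ) : ℂ) * β) *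
      (((p : ℝ) ^ (-((i : ℝ) / 2)) : ℝ) : ℂ)

variable {X i S}

theorem norm_of_mem {p : Nat.Primes} {β : ℂ} (h : β ∈ weightEigenvalues X p i) :
    ‖β‖ = (p : ℝ) ^ ((i : ℝ) / 2) := by
  classical
  rw [weightEigenvalues, Finset.mem_filter] at h
  exact h.2

theorem sum_norm_le {b : ℕ} {p : Nat.Primes} (hb : weightNumber X p i ≤ b) :
    ∑ β ∈ weightEigenvalues X p i, ‖(((-1) ^ i * frobeniusDivisor X p β : ℤ) : ℂ)‖ ≤ b := by
  have h1 : ∀ β, ‖(((-1) ^ i * frobeniusDivisor X p β : ℤ) : ℂ)‖ =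
      ((frobeniusDivisor X p β).natAbs : ℝ) := by
    intro β
    push_cast
    rw [norm_mul, norm_pow, norm_neg, norm_one, one_pow, one_mul, Complex.norm_intCast,
      ← Int.cast_abs, Int.abs_eq_natAbs]
    simp
  rw [Finset.sum_congr rfl fun β _ => h1 β]
  exact_mod_cast hb

theorem norm_tS_le {b : ℕ} (hb : ∀ p ∉ S, weightNumber X p i ≤ b) (p : Nat.Primes) :
    ‖tS X i S p‖ ≤ b := by
  classical
  have hp0 : (0 : ℝ) < p := by exact_mod_cast p.2.pos
  rw [tS]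
  split_ifs with h
  · simp
  · rw [norm_mul, Complex.norm_real, Real.norm_eq_abs, abs_of_pos (Real.rpow_pos_of_pos hp0 _)]
    calc ‖∑ β ∈ weightEigenvalues X p i, (((-1) ^ i * frobeniusDivisor X p β : ℤ) : ℂ) * β‖ *
          (p : ℝ) ^ (-((i : ℝ) / 2))
        ≤ (b * (p : ℝ) ^ ((i : ℝ) / 2)) * (p : ℝ) ^ (-((i : ℝ) / 2)) := by
          refine mul_le_mul_of_nonneg_right ?_ (by positivity)
          refine (norm_sum_le _ _).trans ?_
          calc ∑ β ∈ weightEigenvalues X p i,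
                ‖(((-1) ^ i * frobeniusDivisor X p β : ℤ) : ℂ) * β‖
              = ∑ β ∈ weightEigenvalues X p i,
                ‖(((-1) ^ i * frobeniusDivisor X p β : ℤ) : ℂ)‖ * (p : ℝ) ^ ((i : ℝ) / 2) := by
                refine Finset.sum_congr rfl fun β hβ => ?_
                rw [norm_mul, norm_of_mem hβ]
            _ ≤ b * (p : ℝ) ^ ((i : ℝ) / 2) := by
                rw [← Finset.sum_mul]
                exact mul_le_mul_of_nonneg_right (sum_norm_le (hb p h)) (by positivity)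
      _ = b := by
          rw [mul_assoc, ← Real.rpow_add hp0, add_neg_cancel, Real.rpow_zero, mul_one]

/-- logarithm of the Euler factor -/
noncomputable def logFactor (X : Scheme.{0}) (i : ℕ) (p : Nat.Primes) (s : ℂ) : ℂ :=
  ∑ β ∈ weightEigenvalues X p i, (((-1) ^ i * frobeniusDivisor X p β : ℤ) : ℂ) *
    (-Complex.log (1 - β * ((p : ℕ) : ℂ) ^ (-s)))

theorem norm_term_le {p : Nat.Primes} {β : ℂ} (h : β ∈ weightEigenvalues X p i) {s : ℂ}
    (hs : (i : ℝ) / 2 + 1 ≤ s.re) : ‖β * ((p : ℕ) : ℂ) ^ (-s)‖ ≤ (p : ℝ) ^ (-1 : ℝ) := by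
  have hp0 : (0 : ℝ) < p := by exact_mod_cast p.2.pos
  have hp1 : (1 : ℝ) ≤ p := by exact_mod_cast p.2.one_lt.le
  rw [norm_mul, norm_of_mem h, norm_prime_cpow, ← Real.rpow_add hp0]
  exact Real.rpow_le_rpow_of_exponent_le hp1 (by linarith)

theorem exp_logFactor {p : Nat.Primes} {s : ℂ} (hs : (i : ℝ) / 2 + 1 ≤ s.re) :
    Complex.exp (logFactor X i p s) = eulerFactor X i p s := by
  rw [logFactor, Complex.exp_sum, eulerFactor]
  refine Finset.prod_congr rfl fun β hβ => ?_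
  have h1 := norm_term_le hβ hs
  have h2 : (p : ℝ) ^ (-1 : ℝ) ≤ 1 / 2 := prime_rpow_le_two le_rfl
  have h3 : (1 - β * ((p : ℕ) : ℂ) ^ (-s)) ≠ 0 := by
    intro h
    have h4 : β * ((p : ℕ) : ℂ) ^ (-s) = 1 := by linear_combination -h
    rw [h4, norm_one] at h1
    linarith
  rw [mul_neg, ← neg_mul, ← Int.cast_neg, Complex.exp_int_mul, Complex.exp_log h3]

theorem logFactor_sub_le {b : ℕ} (p : Nat.Primes) (hp : p ∉ S)
    (hb : ∀ p ∉ S, weightNumber X p i ≤ b) (τ : ℝ) {ε : ℝ} (hε : 0 < ε) :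
    ‖logFactor X i p (((i : ℂ) / 2 + 1) + τ * I + ε) -
      (tS X i S p * ((p : ℕ) : ℂ) ^ (-(τ * I))) * ((p : ℝ) ^ (-(1 + ε)) : ℝ)‖ ≤
      b * (p : ℝ) ^ (-2 : ℝ) := by
  classical
  set s : ℂ := ((i : ℂ) / 2 + 1) + τ * I + ε with hs
  have hp0 : (0 : ℝ) < p := by exact_mod_cast p.2.pos
  have hpc : ((p : ℕ) : ℂ) ≠ 0 := by exact_mod_cast p.2.ne_zero
  have hsre : (i : ℝ) / 2 + 1 ≤ s.re := by
    rw [hs]
    simp
    linarith
  have h1 : (tS X i S p * ((p : ℕ) : ℂ) ^ (-(τ * I))) * ((p : ℝ) ^ (-(1 + ε)) : ℝ) =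
      ∑ β ∈ weightEigenvalues X p i, (((-1) ^ i * frobeniusDivisor X p β : ℤ) : ℂ) *
        (β * ((p : ℕ) : ℂ) ^ (-s)) := by
    rw [tS, if_neg hp]
    have h2 : ((p : ℕ) : ℂ) ^ (-s) = (((p : ℝ) ^ (-((i : ℝ) / 2)) : ℝ) : ℂ) *
        (((p : ℕ) : ℂ) ^ (-(τ * I))) * ((p : ℝ) ^ (-(1 + ε)) : ℝ) := by
      rw [Complex.ofReal_cpow hp0.le, Complex.ofReal_cpow hp0.le]
      push_cast
      rw [← Complex.cpow_add _ _ hpc, ← Complex.cpow_add _ _ hpc]
      congr 1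
      rw [hs]
      ring
    rw [h2, Finset.sum_mul, Finset.sum_mul, Finset.sum_mul]
    refine Finset.sum_congr rfl fun β _ => ?_
    ring
  rw [h1, logFactor, ← Finset.sum_sub_distrib]
  refine (norm_sum_le _ _).trans ?_
  calc ∑ β ∈ weightEigenvalues X p i, ‖(((-1) ^ i * frobeniusDivisor X p β : ℤ) : ℂ) *
        (-Complex.log (1 - β * ((p : ℕ) : ℂ) ^ (-s))) -
        (((-1) ^ i * frobeniusDivisor X p β : ℤ) : ℂ) * (β * ((p : ℕ) : ℂ) ^ (-s))‖
      ≤ ∑ β ∈ weightEigenvalues X p i, ‖(((-1) ^ i * frobeniusDivisor X p β : ℤ) : ℂ)‖ *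
        (p : ℝ) ^ (-2 : ℝ) := by
        refine Finset.sum_le_sum fun β hβ => ?_
        rw [← mul_sub, norm_mul]
        refine mul_le_mul_of_nonneg_left ?_ (norm_nonneg _)
        have h3 := norm_term_le hβ hsre
        have h4 : (p : ℝ) ^ (-1 : ℝ) ≤ 1 / 2 := prime_rpow_le_two le_rfl
        refine (norm_neg_log_sub_le (h3.trans h4)).trans ?_
        calc ‖β * ((p : ℕ) : ℂ) ^ (-s)‖ ^ 2 ≤ ((p : ℝ) ^ (-1 : ℝ)) ^ 2 := by gcongr
          _ = (p : ℝ) ^ (-2 : ℝ) := by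
              rw [← Real.rpow_natCast, ← Real.rpow_mul hp0.le]
              norm_num
    _ ≤ b * (p : ℝ) ^ (-2 : ℝ) := by
        rw [← Finset.sum_mul]
        exact mul_le_mul_of_nonneg_right (sum_norm_le (hb p hp)) (by positivity)

/-- The order of a local meromorphic extension of `L(Hⁱ(X), s)` at an edge point. -/
theorem scheme_order {b : ℕ} (hb : ∀ p ∉ S, weightNumber X p i ≤ b)
    (B : Nat.Primes → ℂ[X]) (τ : ℝ)
    (hB : ∀ p ∈ S, (B p).eval (((p : ℕ) : ℂ) ^ (-(((i : ℂ) / 2 + 1) + τ * I))) ≠ 0)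
    {Λ : ℂ → ℂ} (hΛ : MeromorphicAt Λ (((i : ℂ) / 2 + 1) + τ * I))
    (hΛL : ∀ᶠ s in 𝓝 (((i : ℂ) / 2 + 1) + τ * I), (i : ℝ) / 2 + 1 < s.re →
      Λ s = schemeL X i S B s) :
    ∃ m : ℤ, meromorphicOrderAt Λ (((i : ℂ) / 2 + 1) + τ * I) = m ∧
      ∃ C' : ℝ, ∀ᶠ ε : ℝ in 𝓝[>] 0,
        |(E ε fun p => (tS X i S p * ((p : ℕ) : ℂ) ^ (-(τ * I))).re) + m * lam ε| ≤ C' := by
  classical
  have hfin : {p : Nat.Primes | ¬ (p ∉ S)}.Finite := by
    refine S.finite_toSet.subset fun p hp => ?_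
    simpa using hp
  have hIone : ∀ p : Nat.Primes, ‖((p : ℕ) : ℂ) ^ (-(τ * I))‖ = 1 := by
    intro p
    have := norm_prime_cpow_I p (-τ)
    rwa [Complex.ofReal_neg, neg_mul] at this
  refine two_sided (Good := fun p => p ∉ S) hfin B _ (fun p hp => hB p (not_not.1 hp))
    (fun p => tS X i S p * ((p : ℕ) : ℂ) ^ (-(τ * I))) (K := b)
    (fun p => by rw [norm_mul, hIone, mul_one]; exact norm_tS_le hb p)
    (fun p hp => by
      have : tS X i S p = 0 := by rw [tS, if_pos (not_not.1 hp)]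
      simp only [this, zero_mul])
    (fun ε p => logFactor X i p (((i : ℂ) / 2 + 1) + τ * I + ε)) (C := b)
    (fun ε hε p hp => logFactor_sub_le p hp hb τ hε) hΛ ?_
  filter_upwards [(path_tendsto' _).eventually hΛL, self_mem_nhdsWithin] with ε h1 h2
  have hε : (0 : ℝ) < ε := h2
  rw [h1 (by simp [hε]), schemeL]
  refine tprod_congr fun p => ?_
  by_cases hp : p ∈ S
  · simp [hp]
  · rw [if_neg hp, if_pos hp, exp_logFactor]
    simp [hε.le]

end Pool.Agent.H341R2
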