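import Pool.Agent.H341R2.CurveDefs

/-! The `L`-function of `H²` of a product `C × C'_D` of two hyperelliptic curves,
`C : y² = f(x)`, `C'_D : D y² = g(x)`. -/

set_option autoImplicit false

namespace Pool.Agent.H341R2

open Polynomial

/-- trace of the `m`-th power of Frobenius at `p` on `H²(C × C'_D)`, by the Künneth formula:
`H²(C × C') = H²(C) ⊕ H²(C') ⊕ H¹(C) ⊗ H¹(C')` -/
noncomputable def traceH2 (f g : ℤ[X]) (D : ℤ) (p : Nat.Primes) (m : ℕ) : ℤ :=
  2 * (p : ℤ) ^ m + traceH1 f 1 p m * traceH1 g D p m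

open Classical in
/-- the Euler product `L(H²(C × C'_D), s)`; `B p` is the inverse of the Euler factor at the primes
`p` where one of the curves has bad reduction, a polynomial in `p^{-s}` -/
noncomputable def surfaceL (f g : ℤ[X]) (D : ℤ) (B : Nat.Primes → ℂ[X]) (s : ℂ) : ℂ :=
  ∏' p : Nat.Primes, if GoodPrime f 1 p ∧ GoodPrime g D p then
    Complex.exp (∑' m : ℕ, (traceH2 f g D p (m + 1) : ℂ) * ((p : ℕ) : ℂ) ^ (-((m + 1 : ℂ) * s)) /
      (m + 1 : ℂ))
    else ((B p).eval (((p : ℕ) : ℂ) ^ (-s)))⁻¹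

end Pool.Agent.H341R2
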