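import Pool.Agent.H341R2.SurfaceDefs
import Pool.Agent.H341R2.CurveOrder

set_option autoImplicit false

namespace Pool.Agent.H341R2

open Complex Filter Topology ComplexConjugate Polynomial
open Pool.Agent.Helper919 (XX XX_apply psi psi_apply psi_ne_one XX_abs_le)

/-- bound for `|a_p b_p| / p` -/
noncomputable def KT (f g : ℤ[X]) : ℝ := (5 * f.natDegree + 1) * (5 * g.natDegree + 1)

theorem KT_nonneg (f g : ℤ[X]) : 0 ≤ KT f g := by unfold KT; positivity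

theorem traceT_bound {f g : ℤ[X]} (hdf : 1 ≤ f.natDegree) (hdg : 1 ≤ g.natDegree) {D : ℤ}
    {p : Nat.Primes} (h1 : GoodPrime f 1 p) (h2 : GoodPrime g D p) (m : ℕ) (hm : m ≠ 0) :
    |((traceH1 f 1 p m * traceH1 g D p m : ℤ) : ℝ)| ≤ KT f g * (p : ℝ) ^ m := by
  have e1 := traceH1_bound h1 hdf m hm
  have e2 := traceH1_bound h2 hdg m hm
  have e3 : Real.sqrt ((p : ℝ) ^ m) * Real.sqrt ((p : ℝ) ^ m) = (p : ℝ) ^ m :=
    Real.mul_self_sqrt (by positivity)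
  push_cast
  rw [abs_mul]
  refine (mul_le_mul e1 e2 (abs_nonneg _) (by positivity)).trans (le_of_eq ?_)
  rw [KT]
  linear_combination ((5 * (f.natDegree : ℝ) + 1) * (5 * (g.natDegree : ℝ) + 1)) * e3

open Classical in
/-- the coefficients for the twisted part -/
noncomputable def tt (f g : ℤ[X]) (p : Nat.Primes) : ℂ :=
  if GoodPrime f 1 p ∧ GoodPrime g 1 p then
    (((traceH1 f 1 p 1 * traceH1 g 1 p 1 : ℤ) : ℝ) * ((p : ℕ) : ℝ)⁻¹ : ℝ) else 0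

theorem norm_tt_le {f g : ℤ[X]} (hdf : 1 ≤ f.natDegree) (hdg : 1 ≤ g.natDegree)
    (p : Nat.Primes) : ‖tt f g p‖ ≤ KT f g := by
  have hp0 : (0 : ℝ) < p := by exact_mod_cast p.2.pos
  rw [tt]
  split_ifs with h
  · have := traceT_bound hdf hdg h.1 h.2 1 one_ne_zero
    rw [pow_one] at this
    rw [Complex.norm_real, Real.norm_eq_abs, abs_mul, abs_of_pos (inv_pos.2 hp0)]
    rwa [← div_eq_mul_inv, div_le_iff₀ hp0]
  · simpa using KT_nonneg f g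

open Classical in
/-- the normalized coefficients of `L(H²(C × C'_D), s)` -/
noncomputable def ss (f g : ℤ[X]) (D : ℤ) (τ : ℝ) (p : Nat.Primes) : ℂ :=
  if GoodPrime f 1 p ∧ GoodPrime g D p then
    (((traceH2 f g D p 1 : ℝ) * ((p : ℕ) : ℝ)⁻¹ : ℝ) : ℂ) * ((p : ℕ) : ℂ) ^ (-(τ * I)) else 0

theorem traceH2_bound {f g : ℤ[X]} (hdf : 1 ≤ f.natDegree) (hdg : 1 ≤ g.natDegree) {D : ℤ}
    {p : Nat.Primes} (h1 : GoodPrime f 1 p) (h2 : GoodPrime g D p) (m : ℕ) (hm : m ≠ 0) :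
    |(traceH2 f g D p m : ℝ)| ≤ (2 + KT f g) * (p : ℝ) ^ m := by
  have h := traceT_bound hdf hdg h1 h2 m hm
  rw [traceH2]
  push_cast at h ⊢
  have hp : (0 : ℝ) ≤ 2 * (p : ℝ) ^ m := by positivity
  refine (abs_add_le _ _).trans ?_
  rw [abs_of_nonneg hp]
  linarith

theorem norm_ss_le {f g : ℤ[X]} (hdf : 1 ≤ f.natDegree) (hdg : 1 ≤ g.natDegree) (D : ℤ) (τ : ℝ)
    (p : Nat.Primes) : ‖ss f g D τ p‖ ≤ 2 + KT f g := by
  have hp0 : (0 : ℝ) < p := by exact_mod_cast p.2.pos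
  have hK := KT_nonneg f g
  rw [ss]
  split_ifs with h
  · have h1 : ‖((p : ℕ) : ℂ) ^ (-(τ * I))‖ = 1 := by
      have := norm_prime_cpow_I p (-τ)
      rwa [Complex.ofReal_neg, neg_mul] at this
    have := traceH2_bound hdf hdg h.1 h.2 1 one_ne_zero
    rw [pow_one] at this
    rw [norm_mul, h1, mul_one, Complex.norm_real, Real.norm_eq_abs, abs_mul,
      abs_of_pos (inv_pos.2 hp0)]
    rwa [← div_eq_mul_inv, div_le_iff₀ hp0]
  · simp only [norm_zero]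
    linarith

theorem surface_order {f g : ℤ[X]} (hf : (f.map (Int.castRingHom ℚ)).Separable)
    (hg : (g.map (Int.castRingHom ℚ)).Separable)
    (hdf : 1 ≤ f.natDegree) (hdg : 1 ≤ g.natDegree) {D : ℤ} (hD : D ≠ 0) (B : Nat.Primes → ℂ[X])
    (hB : ∀ p, ¬ (GoodPrime f 1 p ∧ GoodPrime g D p) → ∀ s : ℂ, s.re = 2 →
      (B p).eval (((p : ℕ) : ℂ) ^ (-s)) ≠ 0)
    (τ : ℝ) (Λ : ℂ → ℂ) (hΛ : MeromorphicAt Λ ((2 : ℂ) + τ * I))
    (hΛL : ∀ᶠ s in 𝓝 ((2 : ℂ) + τ * I), (2 : ℝ) < s.re →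
      Λ s = surfaceL f g D B s) :
    ∃ m : ℤ, meromorphicOrderAt Λ ((2 : ℂ) + τ * I) = m ∧
      ∃ C' : ℝ, ∀ᶠ ε : ℝ in 𝓝[>] 0,
        |(E ε fun p => (ss f g D τ p).re) + m * lam ε| ≤ C' := by
  classical
  set ρ : ℂ := (2 : ℂ) + τ * I with hρ
  have hρre : ρ.re = 2 := by rw [hρ]; simp
  have hK : 0 ≤ 2 + KT f g := by have := KT_nonneg f g; linarith
  have hfin : {p : Nat.Primes | ¬ (GoodPrime f 1 p ∧ GoodPrime g D p)}.Finite := by
    refine ((finite_bad hf one_ne_zero).union (finite_bad hg hD)).subset fun p hp => ?_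
    rw [Set.mem_ofPred_eq, not_and_or] at hp
    exact hp
  refine two_sided hfin B ρ (fun p hp => hB p hp ρ hρre) (ss f g D τ)
    (K := 2 + KT f g) (fun p => norm_ss_le hdf hdg D τ p) (fun p hp => by rw [ss, if_neg hp])
    (fun ε p => ∑' m : ℕ, (traceH2 f g D p (m + 1) : ℂ) *
      ((p : ℕ) : ℂ) ^ (-((m + 1 : ℂ) * (ρ + ε))) / (m + 1 : ℂ)) (C := 2 * (2 + KT f g)) ?_ hΛ ?_
  · intro ε hε p hp
    have hp0 : (0 : ℝ) < p := by exact_mod_cast p.2.pos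
    have hpc : ((p : ℕ) : ℂ) ≠ 0 := by exact_mod_cast p.2.ne_zero
    have hsre : (ρ + ε : ℂ).re = 2 + ε := by
      rw [Complex.add_re, hρre, Complex.ofReal_re]
    have h1 := goodLog_bound (fun m => (traceH2 f g D p m : ℂ)) (2 + KT f g) 1 hK p
      (by
        intro m
        have h2 := traceH2_bound hdf hdg hp.1 hp.2 (m + 1) (by omega)
        rw [Complex.norm_intCast, Real.rpow_one]
        exact h2) (ρ + ε) (by rw [hsre]; linarith)
    have h3 : ss f g D τ p * ((p : ℝ) ^ (-(1 + ε)) : ℝ) =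
        (traceH2 f g D p 1 : ℂ) * ((p : ℕ) : ℂ) ^ (-(ρ + ε)) := by
      rw [ss, if_pos hp]
      push_cast
      rw [Complex.ofReal_cpow hp0.le]
      push_cast
      rw [mul_assoc, mul_assoc, ← Complex.cpow_neg_one, ← Complex.cpow_add _ _ hpc,
        ← Complex.cpow_add _ _ hpc]
      congr 2
      rw [hρ]
      ring
    rw [h3]
    exact h1
  · filter_upwards [(path_tendsto' ρ).eventually hΛL, self_mem_nhdsWithin] with ε h1 h2
    have hε : (0 : ℝ) < ε := h2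
    rw [h1 (by rw [Complex.add_re, hρre, Complex.ofReal_re]; linarith), surfaceL]

theorem tt_twist {f g : ℤ[X]} {D : ℤ} (τ : ℝ) {p : Nat.Primes} (h1 : GoodPrime f 1 p)
    (h2 : GoodPrime g D p) :
    ((((traceH1 f 1 p 1 * traceH1 g D p 1 : ℤ) : ℝ) * ((p : ℕ) : ℝ)⁻¹ : ℝ) : ℂ) *
      ((p : ℕ) : ℂ) ^ (-(τ * I)) = tt f g p * conj (vv (D, τ) p) := by
  have : Fact (p : ℕ).Prime := ⟨p.2⟩
  rw [vv, map_mul, Complex.conj_ofReal, conj_prime_cpow_I]
  have hodd : Odd (p : ℕ) := p.2.odd_of_ne_two h1.ne_two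
  have hXX : XX D p = (legendreSym p D : ℝ) := by
    rw [XX_apply, if_pos hodd, jacobiSym.legendreSym.to_jacobiSym]
  rw [tt, if_pos ⟨h1, h2.one⟩, traceH1_twist h2 1 one_ne_zero, pow_one]
  simp only
  rw [hXX]
  push_cast
  ring

theorem vv_one_zero {p : Nat.Primes} (hp : (p : ℕ) ≠ 2) : vv (1, 0) p = 1 := by
  have hodd : Odd (p : ℕ) := p.2.odd_of_ne_two hp
  rw [vv, XX_apply, if_pos hodd]
  simp

theorem ss_eq {f g : ℤ[X]} {D : ℤ} (τ : ℝ) {p : Nat.Primes} (h1 : GoodPrime f 1 p)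
    (h2 : GoodPrime g D p) :
    ss f g D τ p = tt f g p * conj (vv (D, τ) p) + 2 * (vv (1, 0) p * conj (vv (1, τ) p)) := by
  have hpc : ((p : ℕ) : ℂ) ≠ 0 := by exact_mod_cast p.2.ne_zero
  have hodd : Odd (p : ℕ) := p.2.odd_of_ne_two h1.ne_two
  rw [← tt_twist τ h1 h2, ss, if_pos ⟨h1, h2⟩, traceH2, vv_one_zero h1.ne_two, vv, map_mul,
    Complex.conj_ofReal, conj_prime_cpow_I, XX_apply, if_pos hodd]
  push_cast
  simp only [jacobiSym.one_left, Int.cast_one]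
  field_simp
  ring

end Pool.Agent.H341R2
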