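import Pool.Agent.H341R2.LFunLog

set_option autoImplicit false

namespace Pool.Agent.H341R2

open Complex Filter Topology ComplexConjugate Polynomial

theorem path_tendsto (ρ : ℂ) : Tendsto (fun ε : ℝ => ρ + ε) (𝓝[>] 0) (𝓝 ρ) := by
  have : ContinuousAt (fun ε : ℝ => ρ + (ε : ℂ)) 0 := by fun_prop
  have h2 := this.tendsto
  simp only [ofReal_zero, add_zero] at h2
  exact h2.mono_left nhdsWithin_le_nhds

theorem bad_ne_zero (B : ℂ[X]) (hB : B.coeff 0 = 1) (p : Nat.Primes) (ρ : ℂ) :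
    ∀ᶠ ε : ℝ in 𝓝[>] 0, B.eval (((p : ℕ) : ℂ) ^ (-(ρ + ε))) ≠ 0 := by
  have hB0 : B ≠ 0 := by
    rintro rfl
    simp at hB
  have hfin : {z : ℂ | B.eval z = 0}.Finite := by
    refine (B.roots.toFinset.finite_toSet).subset fun z hz => ?_
    simpa [hB0] using hz
  have hinj : Function.Injective fun ε : ℝ => ((p : ℕ) : ℂ) ^ (-(ρ + ε)) := by
    intro a b hab
    have h1 := congrArg norm hab
    simp only at h1
    rw [norm_prime_cpow, norm_prime_cpow] at h1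
    have hp1 : (1 : ℝ) < p := by exact_mod_cast p.2.one_lt
    have h2 : -(ρ + a : ℂ).re = -(ρ + b : ℂ).re :=
      le_antisymm ((Real.rpow_le_rpow_left_iff hp1).1 h1.le)
        ((Real.rpow_le_rpow_left_iff hp1).1 h1.ge)
    simpa using h2
  have hfin2 : ((fun ε : ℝ => ((p : ℕ) : ℂ) ^ (-(ρ + ε))) ⁻¹' {z : ℂ | B.eval z = 0}).Finite :=
    hfin.preimage hinj.injOn
  have h3 := (hfin2.subset (Set.sdiff_subset (t := {(0 : ℝ)}))).isClosed.isOpen_compl.mem_nhds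
    (x := 0) (by simp)
  filter_upwards [nhdsWithin_le_nhds h3, self_mem_nhdsWithin] with ε h4 h5 h6
  apply h4
  refine ⟨h6, ?_⟩
  have : (0 : ℝ) < ε := h5
  simp [this.ne']

theorem bad_bounded (B : ℂ[X]) (p : Nat.Primes) (ρ : ℂ) :
    ∃ C : ℝ, ∀ᶠ ε : ℝ in 𝓝[>] 0, ‖B.eval (((p : ℕ) : ℂ) ^ (-(ρ + ε)))‖ ≤ C := by
  have hpc : ((p : ℕ) : ℂ) ≠ 0 := by exact_mod_cast p.2.ne_zero
  have h1 : ContinuousAt (fun s : ℂ => ‖B.eval (((p : ℕ) : ℂ) ^ (-s))‖) ρ := by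
    have h2 : ContinuousAt (fun s : ℂ => ((p : ℕ) : ℂ) ^ (-s)) ρ :=
      (continuousAt_const_cpow hpc).comp continuousAt_neg
    exact (B.continuous.continuousAt.comp h2).norm
  exact (h1.tendsto.comp (path_tendsto ρ)).isBoundedUnder_le.imp fun C hC =>
    Filter.eventually_map.1 hC

/-- if the continuation vanishes at the edge point, the prime sum tends to `-∞` at least as fast
as `-λ(ε)` -/
theorem E_le_of_vanish {f : ℤ[X]} (hf : (f.map (Int.castRingHom ℚ)).Separable)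
    (hd : 1 ≤ f.natDegree) (n i : ℕ) {D : ℤ} (hD : D ≠ 0) (B : Nat.Primes → ℂ[X])
    (hB : ∀ p, (B p).coeff 0 = 1) (τ : ℝ) (Λ : ℂ → ℂ)
    (hΛ : MeromorphicAt Λ ((i / 2 + 1 : ℂ) + τ * I))
    (hΛL : ∀ᶠ s in 𝓝 ((i / 2 + 1 : ℂ) + τ * I), (i / 2 + 1 : ℝ) < s.re →
      Λ s = LFun n i f D B s)
    (hord : 0 < meromorphicOrderAt Λ ((i / 2 + 1 : ℂ) + τ * I)) :
    ∃ C : ℝ, ∀ᶠ ε : ℝ in 𝓝[>] 0, (E ε fun p => (aa n i f D τ p).re) ≤ -lam ε + C := by
  set ρ : ℂ := (i / 2 + 1 : ℂ) + τ * I with hρ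
  have hρre : ρ.re = i / 2 + 1 := by rw [hρ]; simp
  set S := (finite_bad hf hD).toFinset with hS
  have hne : ∀ᶠ ε : ℝ in 𝓝[>] 0, ∀ p ∈ S, (B p).eval (((p : ℕ) : ℂ) ^ (-(ρ + ε))) ≠ 0 := by
    rw [Filter.eventually_all_finset]
    exact fun p _ => bad_ne_zero (B p) (hB p) p ρ
  choose Cb hCb using fun p => bad_bounded (B p) p ρ
  have hbd : ∀ᶠ ε : ℝ in 𝓝[>] 0, ∀ p ∈ S,
      ‖(B p).eval (((p : ℕ) : ℂ) ^ (-(ρ + ε)))‖ ≤ Cb p := by
    rw [Filter.eventually_all_finset]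
    exact fun p _ => hCb p
  have heq : ∀ᶠ ε : ℝ in 𝓝[>] 0, Λ (ρ + ε) = LFun n i f D B (ρ + ε) := by
    filter_upwards [(path_tendsto ρ).eventually hΛL, self_mem_nhdsWithin] with ε h1 h2
    have hε : (0 : ℝ) < ε := h2
    apply h1
    rw [Complex.add_re, hρre, Complex.ofReal_re]
    linarith
  -- lower bound for the log of the Euler product
  set C₁ : ℝ := ∑ p ∈ S, Real.log (|Cb p| + 1) with hC₁
  have hlow : ∀ᶠ ε : ℝ in 𝓝[>] 0, Λ (ρ + ε) ≠ 0 ∧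
      (E ε fun p => (aa n i f D τ p).re) ≤ Real.log ‖Λ (ρ + ε)‖ + C₁ + 2 * KK f n * K2 := by
    filter_upwards [hne, hbd, heq, self_mem_nhdsWithin] with ε h1 h2 h3 h4
    have hε : (0 : ℝ) < ε := h4
    obtain ⟨G, hG1, hG2⟩ := LFun_eq hf hd n i hD B τ hε
    rw [← hρ] at hG2
    rw [← h3] at hG2
    have hprod : 0 < ∏ p ∈ S, ‖(B p).eval (((p : ℕ) : ℂ) ^ (-(ρ + ε)))‖⁻¹ :=
      Finset.prod_pos fun p hp => inv_pos.2 (norm_pos_iff.2 (h1 p hp))
    have hpos : 0 < ‖Λ (ρ + ε)‖ := by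
      rw [hG2]
      exact mul_pos hprod (Real.exp_pos _)
    refine ⟨norm_pos_iff.1 hpos, ?_⟩
    have hlog : Real.log ‖Λ (ρ + ε)‖ = (∑ p ∈ S,
        -Real.log ‖(B p).eval (((p : ℕ) : ℂ) ^ (-(ρ + ε)))‖) + G := by
      rw [hG2, Real.log_mul hprod.ne' (Real.exp_pos _).ne', Real.log_exp, Real.log_prod]
      · congr 1
        exact Finset.sum_congr rfl fun p _ => Real.log_inv _
      · intro p hp
        exact inv_ne_zero (norm_ne_zero_iff.2 (h1 p hp))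
    have hC : -C₁ ≤ ∑ p ∈ S, -Real.log ‖(B p).eval (((p : ℕ) : ℂ) ^ (-(ρ + ε)))‖ := by
      rw [hC₁, ← Finset.sum_neg_distrib]
      refine Finset.sum_le_sum fun p hp => neg_le_neg ?_
      refine Real.log_le_log (norm_pos_iff.2 (h1 p hp)) ((h2 p hp).trans ?_)
      linarith [le_abs_self (Cb p)]
    have := (abs_le.1 hG1).1
    linarith
  -- the order is a positive integer
  have hfreq : ∃ᶠ z in 𝓝[≠] ρ, Λ z ≠ 0 := by
    have hpath : Tendsto (fun ε : ℝ => ρ + ε) (𝓝[>] 0) (𝓝[≠] ρ) := by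
      rw [tendsto_nhdsWithin_iff]
      refine ⟨path_tendsto ρ, ?_⟩
      filter_upwards [self_mem_nhdsWithin] with ε hε
      have hε' : (0 : ℝ) < ε := hε
      simp only [Set.mem_compl_iff, Set.mem_singleton_iff, add_eq_left]
      exact_mod_cast hε'.ne'
    exact hpath.frequently (hlow.mono fun _ h => h.1).frequently
  have hnt : meromorphicOrderAt Λ ρ ≠ ⊤ := by
    rw [Ne, meromorphicOrderAt_eq_top_iff]
    intro h
    exact hfreq (h.mono fun z hz => not_not.2 hz)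
  obtain ⟨m, hm⟩ := WithTop.ne_top_iff_exists.1 hnt
  rw [← hm] at hord
  have hm1 : 1 ≤ m := by
    have : (0 : ℤ) < m := by exact_mod_cast hord
    omega
  obtain ⟨C₂, hC₂⟩ := log_norm_meromorphic hΛ hm.symm
  obtain ⟨C₃, hC₃⟩ := lam_bounded
  have hlt1 : ∀ᶠ ε : ℝ in 𝓝[>] 0, ε < 1 := by
    have : ∀ᶠ ε : ℝ in 𝓝 0, ε < 1 := eventually_lt_nhds (by norm_num)
    exact nhdsWithin_le_nhds this
  refine ⟨C₁ + 2 * KK f n * K2 + C₂ + C₃, ?_⟩
  filter_upwards [hlow, hC₂, hC₃, hlt1, self_mem_nhdsWithin] with ε h1 h2 h3 h4 h5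
  have hε : (0 : ℝ) < ε := h5
  have hlogneg : Real.log ε ≤ 0 := Real.log_nonpos hε.le h4.le
  have h6 : (m : ℝ) * Real.log ε ≤ Real.log ε := by
    have : (1 : ℝ) ≤ m := by exact_mod_cast hm1
    nlinarith
  have h7 := (abs_le.1 h2.2).2
  have h8 := (abs_le.1 h3).2
  linarith [h1.2]

theorem aa_re_nonneg {f : ℤ[X]} (n i : ℕ) (hi : Even i) {D : ℤ} (p : Nat.Primes) :
    0 ≤ (aa n i f D 0 p).re := by
  rw [aa]
  split_ifs with h
  · simp only [Complex.ofReal_zero, zero_mul, neg_zero, Complex.cpow_zero, mul_one,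
      Complex.ofReal_re]
    have h1 := (coeff_even_nonneg (traceH1 f D p 1) ((p : ℤ) ^ 1) (by positivity) n i).1 hi
    rw [← traceH] at h1
    have : (0 : ℝ) ≤ (traceH n i f D p 1 : ℝ) := by exact_mod_cast h1
    positivity
  · simp

end Pool.Agent.H341R2
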