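import Pool.Agent.H341R2.FieldSum
import Pool.Agent.H341R2.RootBound

/-! The sharp Weil bound `|∑ χ(f(x))| ≤ (deg f - 1) √q` for the quadratic character. -/

set_option autoImplicit false

namespace Pool.Agent.H341R2.Sharp

open Polynomial Finset

section Descent

variable {F E : Type*} [Field F] [Fintype F] [Field E] [Fintype E] [Algebra F E]

theorem mem_range_of_pow_card {x : E} (hx : x ^ Fintype.card F = x) :
    x ∈ Set.range (algebraMap F E) := by
  classical
  have h1 : (X ^ Fintype.card F - X : F[X]).Splits := by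
    rw [splits_iff_card_roots, FiniteField.roots_X_pow_card_sub_X,
      FiniteField.X_pow_card_sub_X_natDegree_eq _ Fintype.one_lt_card]
    rfl
  have h2 : (X ^ Fintype.card F - X : F[X]) ≠ 0 :=
    FiniteField.X_pow_card_sub_X_ne_zero _ Fintype.one_lt_card
  have h3 : ((X ^ Fintype.card F - X : F[X]).map (algebraMap F E)).IsRoot x := by
    simp [hx]
  have := h1.mem_range_of_isRoot h2 h3
  exact this

theorem map_ne_sq (hF : ringChar F ≠ 2) {f : F[X]} (hf : f.Monic)
    (hns : ∀ (c : F) (h : F[X]), f ≠ C c * h ^ 2) :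
    ∀ (c : E) (h : E[X]), f.map (algebraMap F E) ≠ C c * h ^ 2 := by
  intro c h heq
  have hE : ringChar E ≠ 2 := by
    rwa [← Algebra.ringChar_eq F E]
  have hmon : (f.map (algebraMap F E)).Monic := hf.map _
  have hh0 : h ≠ 0 := by
    rintro rfl
    rw [heq] at hmon
    simp at hmon
  set a := h.leadingCoeff with ha
  have ha0 : a ≠ 0 := leadingCoeff_ne_zero.2 hh0
  set g := C a⁻¹ * h with hg
  have hgm : g.Monic := by
    rw [Monic, hg, leadingCoeff_mul, leadingCoeff_C, ← ha, inv_mul_cancel₀ ha0]
  have hlead : c * a ^ 2 = 1 := by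
    have h1 : (f.map (algebraMap F E)).leadingCoeff = 1 := hmon
    rw [heq, leadingCoeff_mul, leadingCoeff_C, leadingCoeff_pow, ← ha] at h1
    exact h1
  have hg2 : f.map (algebraMap F E) = g ^ 2 := by
    have h1 : h = C a * g := by
      rw [hg, ← mul_assoc, ← C_mul, mul_inv_cancel₀ ha0, C_1, one_mul]
    rw [heq, h1, mul_pow, ← C_pow, ← mul_assoc, ← C_mul, hlead, C_1, one_mul]
  let φ : E →ₐ[F] E := FiniteField.frobeniusAlgHom F E
  have hφ : ∀ x, φ x = x ^ Fintype.card F := fun x => rfl
  have hmapf : (f.map (algebraMap F E)).map (φ : E →+* E) = f.map (algebraMap F E) := by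
    rw [Polynomial.map_map]
    congr 1
    ext x
    simp
  have hsq : (g.map (φ : E →+* E)) ^ 2 = g ^ 2 := by
    rw [← Polynomial.map_pow, ← hg2, hmapf]
  have hgφ : g.map (φ : E →+* E) = g := by
    rcases sq_eq_sq_iff_eq_or_eq_neg.1 hsq with h1 | h1
    · exact h1
    · exfalso
      have h2 : (g.map (φ : E →+* E)).leadingCoeff = (-g).leadingCoeff := by rw [h1]
      rw [(hgm.map _).leadingCoeff, leadingCoeff_neg, hgm.leadingCoeff] at h2
      have h3 : (2 : E) = 0 := by
        have : (1 : E) + 1 = -1 + 1 := by rw [← h2]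
        rw [neg_add_cancel] at this
        rw [← this]
        norm_num
      exact Ring.two_ne_zero hE h3
  have hlift : g ∈ lifts (algebraMap F E) := by
    rw [lifts_iff_coeff_lifts]
    intro n
    apply mem_range_of_pow_card
    have h1 : (g.map (φ : E →+* E)).coeff n = g.coeff n := by rw [hgφ]
    rw [coeff_map] at h1
    exact h1
  obtain ⟨g0, hg0⟩ := (mem_lifts _).1 hlift
  have h1 : f = g0 ^ 2 := by
    apply map_injective (algebraMap F E) (algebraMap F E).injective
    rw [hg2, ← hg0, Polynomial.map_pow]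
  exact hns 1 g0 (by rw [C_1, one_mul, h1])

end Descent

section Main

variable {F : Type*} [Field F] [Fintype F] [DecidableEq F]

theorem T_bound (hF : ringChar F ≠ 2) {f : F[X]} (hf : f.Monic) (hd : 1 ≤ f.natDegree)
    (hns : ∀ (c : F) (h : F[X]), f ≠ C c * h ^ 2) (m : ℕ) (hm : 1 ≤ m) :
    |(T f m : ℝ)| ≤ 5 * f.natDegree * (Real.sqrt (Fintype.card F)) ^ m ∧
    ∃ (E : Type) (_ : Field E) (_ : Fintype E) (_ : DecidableEq E) (_ : Algebra F E),
      Module.finrank F E = m ∧ Fintype.card E = Fintype.card F ^ m ∧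
      |∑ x : E, (quadraticChar E (aeval x f) : ℝ)| ≤
        5 * f.natDegree * (Real.sqrt (Fintype.card F)) ^ m := by
  classical
  obtain ⟨p, hp⟩ := CharP.exists F
  have : Fact (Nat.Prime p) := ⟨CharP.char_is_prime F p⟩
  have : NeZero m := ⟨by omega⟩
  let E := FiniteField.Extension F p m
  let _ : Fintype E := Fintype.ofFinite E
  have hfr : Module.finrank F E = m := FiniteField.finrank_extension F p m
  have hcard : Fintype.card E = Fintype.card F ^ m := by
    rw [Module.card_eq_pow_finrank (K := F) (V := E), hfr]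
  have hE : ringChar E ≠ 2 := by
    rwa [← Algebra.ringChar_eq F E]
  have hdeg : (f.map (algebraMap F E)).natDegree = f.natDegree := natDegree_map _
  have h1 := weil_bound hE (f.map (algebraMap F E)) (by rw [hdeg]; exact hd)
    (map_ne_sq hF hf hns)
  have h2 : Real.sqrt (Fintype.card E) = (Real.sqrt (Fintype.card F)) ^ m := by
    rw [hcard]
    push_cast
    rw [Real.sqrt_eq_iff_mul_self_eq (by positivity) (by positivity), ← mul_pow,
      Real.mul_self_sqrt (by positivity)]
  rw [hdeg, h2] at h1
  have h3 : ∀ x : E, (f.map (algebraMap F E)).eval x = aeval x f := fun x => eval_map_algebraMap _ _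
  simp_rw [h3] at h1
  refine ⟨?_, E, inferInstance, inferInstance, inferInstance, inferInstance, hfr, hcard, h1⟩
  have h4 := T_eq_sum (E := E) hF f
  rw [hfr] at h4
  rw [h4]
  push_cast
  exact h1

theorem exists_r (hF : ringChar F ≠ 2) {f : F[X]} (hf : f.Monic) (hd : 1 ≤ f.natDegree)
    (hns : ∀ (c : F) (h : F[X]), f ≠ C c * h ^ 2) :
    ∃ r : F[X], r.Monic ∧
      quadraticChar F ((-1) ^ (f.natDegree * r.natDegree)) * lam f r = -1 := by
  set d := f.natDegree with hdd
  obtain ⟨_, E, i1, i2, i3, i4, hfr, hcard, hb⟩ := T_bound hF hf hd hns (2 * (6 * d)) (by omega)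
  set q := Fintype.card F with hq
  have hq2 : 2 ≤ q := Fintype.one_lt_card
  have hsq : (Real.sqrt q) ^ (2 * (6 * d)) = (q : ℝ) ^ (6 * d) := by
    rw [pow_mul, Real.sq_sqrt (by positivity)]
  rw [hsq] at hb
  have hlt : 6 * d < q ^ (6 * d) := Nat.lt_pow_self (by omega)
  -- existence of a point with character value -1
  have hex : ∃ x : E, quadraticChar E (aeval x f) = -1 := by
    by_contra hno
    push Not at hno
    have h1 : ∀ x : E, (1 : ℝ) - (if aeval x f = 0 then 1 else 0) ≤ quadraticChar E (aeval x f) := by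
      intro x
      by_cases h0 : aeval x f = 0
      · simp [h0]
      · rw [if_neg h0]
        rcases quadraticChar_dichotomy h0 with h | h
        · simp [h]
        · exact absurd h (hno x)
    have h2 := Finset.sum_le_sum (s := univ) (fun x _ => h1 x)
    rw [sum_sub_distrib] at h2
    have h3 : ∑ x : E, (if aeval x f = 0 then (1 : ℝ) else 0) ≤ d := by
      rw [sum_boole]
      have h4 : (univ.filter fun x : E => aeval x f = 0) ⊆ (f.aroots E).toFinset := by
        intro x hx
        rw [mem_filter] at hx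
        rw [Multiset.mem_toFinset, mem_aroots]
        exact ⟨hf.ne_zero, hx.2⟩
      have h5 := card_le_card h4
      have h6 := (Multiset.toFinset_card_le (f.aroots E)).trans
        ((card_roots' _).trans (natDegree_map_le (p := f) (f := algebraMap F E)))
      exact_mod_cast h5.trans h6
    have h4 : ∑ x : E, (1 : ℝ) = (q : ℝ) ^ (6 * d) * (q : ℝ) ^ (6 * d) := by
      rw [sum_const, card_univ, hcard, nsmul_eq_mul, mul_one]
      push_cast
      rw [← pow_add, two_mul]
    rw [h4] at h2
    have h5 := (le_abs_self _).trans hb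
    have h6 : (6 * d : ℝ) < (q : ℝ) ^ (6 * d) := by exact_mod_cast hlt
    have h7 : (1 : ℝ) ≤ d := by exact_mod_cast hd
    have h8 : (q : ℝ) ^ (6 * d) * (q : ℝ) ^ (6 * d) - d ≤ 5 * d * (q : ℝ) ^ (6 * d) := by
      linarith
    nlinarith
  obtain ⟨x, hx⟩ := hex
  have hxi : IsIntegral F x := Algebra.IsIntegral.isIntegral x
  have h1 := qc_aeval (E := E) hF f x
  rw [hx] at h1
  set P := minpoly F x with hP
  have hPm : P.Monic := minpoly.monic hxi
  have hdvd : P.natDegree ∣ Module.finrank F E := (finrank_div x).2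
  refine ⟨P ^ (Module.finrank F E / P.natDegree), hPm.pow _, ?_⟩
  rw [lam_pow f P hPm, ← h1, hPm.natDegree_pow, Nat.div_mul_cancel hdvd, hfr]
  have h2 : ((-1 : F)) ^ (d * (2 * (6 * d))) = 1 := by
    have : d * (2 * (6 * d)) = 2 * (d * (6 * d)) := by ring
    rw [this, pow_mul]
    simp
  rw [h2]
  simp

theorem weil_sharp_monic (hF : ringChar F ≠ 2) {f : F[X]} (hf : f.Monic) (hd : 1 ≤ f.natDegree)
    (hns : ∀ (c : F) (h : F[X]), f ≠ C c * h ^ 2) :
    |∑ x : F, (quadraticChar F (f.eval x) : ℝ)| ≤
      (f.natDegree - 1) * Real.sqrt (Fintype.card F) := by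
  classical
  set d := f.natDegree with hdd
  obtain ⟨r, hr, hlam⟩ := exists_r hF hf hd hns
  have hA : ∀ n, d ≤ n → A f n = 0 := fun n hn => A_eq_zero f r hf hr hlam n hn
  set a : ℂ[X] := ∑ n ∈ range d, C (A f n : ℂ) * X ^ n with ha
  have hcoeff : ∀ n, a.coeff n = (A f n : ℂ) := by
    intro n
    rw [ha, finsetSum_coeff]
    simp_rw [coeff_C_mul_X_pow]
    by_cases hn : n < d
    · rw [sum_eq_single n]
      · simp
      · intro m _ hm
        rw [if_neg (Ne.symm hm)]
      · intro h
        exact absurd (mem_range.2 hn) h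
    · rw [hA n (by omega)]
      rw [sum_eq_zero]
      · simp
      · intro m hm
        rw [mem_range] at hm
        rw [if_neg (by omega)]
  have hdeg : a.natDegree ≤ d - 1 := by
    rw [natDegree_le_iff_coeff_eq_zero]
    intro n hn
    rw [hcoeff, hA n (by omega)]
    simp
  have hq0 : 0 < Real.sqrt (Fintype.card F) := Real.sqrt_pos.2 (by exact_mod_cast Fintype.card_pos)
  have hmain := coeff_one_bound a (by rw [hcoeff, A_zero]; simp) (fun m => (T f m : ℂ))
    (Real.sqrt (Fintype.card F)) (5 * d) hq0 (by positivity)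
    (by
      intro m hm
      have := (T_bound hF hf hd hns m hm).1
      rw [Complex.norm_intCast]
      exact this)
    (by
      intro n
      rw [hcoeff]
      have := n_mul_A f n
      simp_rw [hcoeff]
      exact_mod_cast this)
    (d - 1) hdeg
  rw [hcoeff] at hmain
  have h1 := n_mul_A f 1
  rw [Icc_self, sum_singleton, Nat.sub_self, A_zero] at h1
  have h2 := T_eq_sum (F := F) (E := F) hF f
  rw [Module.finrank_self] at h2
  have h3 : A f 1 = ∑ x : F, quadraticChar F (f.eval x) := by
    have : A f 1 = T f 1 := by simpa using h1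
    rw [this, h2]
    simp
  rw [h3, Complex.norm_intCast] at hmain
  push_cast at hmain
  rw [Nat.cast_sub hd] at hmain
  simpa using hmain

/-- **Weil's bound** for quadratic character sums over a finite field of odd order. -/
theorem weil_sharp (hF : ringChar F ≠ 2) (f : F[X]) (hd : 1 ≤ f.natDegree)
    (hns : ∀ (c : F) (h : F[X]), f ≠ C c * h ^ 2) :
    |∑ x : F, (quadraticChar F (f.eval x) : ℝ)| ≤
      (f.natDegree - 1) * Real.sqrt (Fintype.card F) := by
  have hf0 : f ≠ 0 := by
    rintro rfl
    simp at hd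
  set a := f.leadingCoeff with ha
  have ha0 : a ≠ 0 := leadingCoeff_ne_zero.2 hf0
  set g := C a⁻¹ * f with hg
  have hgm : g.Monic := by
    rw [Monic, hg, leadingCoeff_mul, leadingCoeff_C, ← ha, inv_mul_cancel₀ ha0]
  have hfg : f = C a * g := by
    rw [hg, ← mul_assoc, ← C_mul, mul_inv_cancel₀ ha0, C_1, one_mul]
  have hdeg : g.natDegree = f.natDegree := by
    rw [hg]
    exact natDegree_C_mul (inv_ne_zero ha0)
  have h1 := weil_sharp_monic hF hgm (by omega) (by
    intro c h hgh
    exact hns (a * c) h (by rw [hfg, hgh, C_mul]; ring))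
  have h2 : ∑ x : F, (quadraticChar F (f.eval x) : ℝ) =
      (quadraticChar F a : ℝ) * ∑ x : F, (quadraticChar F (g.eval x) : ℝ) := by
    rw [mul_sum]
    apply sum_congr rfl
    intro x _
    rw [hfg, eval_mul, eval_C, map_mul]
    push_cast
    rfl
  rw [h2, abs_mul]
  have h3 : |(quadraticChar F a : ℝ)| = 1 := by
    rcases quadraticChar_dichotomy ha0 with h | h <;> simp [h]
  rw [h3, one_mul, ← hdeg]
  exact h1

end Main

end Pool.Agent.H341R2.Sharp

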